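import Pool.Agent.T6.H42.Four6

set_option autoImplicit false
set_option linter.unusedSectionVars false

noncomputable section

namespace Pool.Agent.T6.H42

open MeasureTheory Function Filter Topology Set
open scoped ENNReal FourierTransform

variable {N : ℕ}

/-- Existence of the parameters, for given `α`, `k`, and `δ`, for all large `N`. -/
def ParEx (α : ℝ) (k : ℕ) (δ : ℝ) : Prop :=
  ∃ C : ℝ, 0 < C ∧ ∃ N0 : ℕ, ∀ N : ℕ, N0 ≤ N →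
    ∃ (θ : ℕ → ℝ) (m0 : ℕ) (nn : ℕ → ℕ) (b ε CBC d ε' : ℝ),
      Params k θ m0 nn ((2 : ℝ) ^ α) b ε CBC ∧ (∃ m, m0 ≤ m ∧ (N : ℝ) ≤ θ m) ∧
      (∀ m, m0 ≤ m → 2 ≤ θ m) ∧ 1 < d ∧ 0 ≤ ε' ∧
      (∀ m, m0 ≤ m → ENNReal.ofReal (d ^ (m - m0)) * Zs N θ m ≤
        ENNReal.ofReal (ε' * ((2 : ℝ) ^ α) ^ m)) ∧
      CBC * (CD k d * ε') + ε ≤ δ ∧
      N * (CBC * (2 ^ m0 + 2 * KK k * (ε' * ((2 : ℝ) ^ α) ^ m0))) ≤ C * (N : ℝ) ^ gam α

theorem coul_toLp (e : Fin N → ℝ) (x : Fin N × Fin 3 → ℝ) :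
    coul e (WithLp.toLp 2 x) = coulR e x := rfl

theorem toPi_ae (ψ : Wave N) (e : Fin N → ℝ) :
    (fun x : Fin N × Fin 3 → ℝ => coulR e x * ‖(toPi ψ : HS (Fin N × Fin 3)) x‖ ^ 2) =ᵐ[volume]
      (fun y : Cfg N => coul e y * ‖ψ y‖ ^ 2) ∘ (WithLp.toLp 2) := by
  filter_upwards [toPi_coe ψ] with x hx
  rw [Function.comp_apply, coul_toLp, hx]

theorem emb_toLp (ι : Type) [Fintype ι] :
    MeasurableEmbedding (WithLp.toLp 2 : (ι → ℝ) → EuclideanSpace ℝ ι) :=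
  (MeasurableEquiv.toLp 2 (ι → ℝ)).measurableEmbedding

theorem pot_toPi (ψ : Wave N) (e : Fin N → ℝ) :
    ∫ x, coulR e x * ‖(toPi ψ : HS (Fin N × Fin 3)) x‖ ^ 2 = pot e ψ := by
  rw [integral_congr_ae (toPi_ae ψ e)]
  exact (PiLp.volume_preserving_toLp (Fin N × Fin 3)).integral_comp (emb_toLp _)
    (fun y : Cfg N => coul e y * ‖ψ y‖ ^ 2)

theorem int_toPi (ψ : Wave N) (e : Fin N → ℝ)
    (h : Integrable fun x => coulR e x * ‖(toPi ψ : HS (Fin N × Fin 3)) x‖ ^ 2) :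
    Integrable fun x => coul e x * ‖ψ x‖ ^ 2 := by
  rw [integrable_congr (toPi_ae ψ e)] at h
  exact ((PiLp.volume_preserving_toLp (Fin N × Fin 3)).integrable_comp_emb (emb_toLp _)).1 h

/-- The lower bound, given the parameters. -/
theorem lower_of_par (α : ℝ) (hα : 1 < α) (k : ℕ) (hk : α < 2 * (k + 1))
    (hpar : ParEx α (k + 1) (C7 k α)⁻¹) :
    ∃ C : ℝ, 0 < C ∧ ∃ N0 : ℕ, ∀ N : ℕ, N0 ≤ N → ∀ e : Fin N → ℝ, IsCharge e →
      ∀ ψ : Wave N, kin α ψ ≠ ⊤ → Integrable (fun x => coul e x * ‖ψ x‖ ^ 2) ∧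
        -(C * (N : ℝ) ^ gam α * ‖ψ‖ ^ 2) ≤ (kin α ψ).toReal + pot e ψ := by
  obtain ⟨C, hC, N0, H⟩ := hpar
  refine ⟨C, hC, N0, fun N hN e he ψ hψ => ?_⟩
  obtain ⟨θ, m0, nn, b, ε, CBC, d, ε', hp, hθ, hθ2, hd, hε', hZ, hδ, hCN⟩ := H N hN
  have hC5 := C5_pos k
  have hC6 := C6_pos k α (by linarith) hk
  have hC7 : 0 < C7 k α := by unfold C7; positivity
  set φ : HS (Fin N × Fin 3) := toPi ψ with hφ
  have hEk := Ea_kin k α (by linarith) hk ψ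
  have hsum : ∑ i, Ea (k + 1) ((2 : ℝ) ^ α) i φ ≠ ⊤ :=
    ne_top_of_le_ne_top (ENNReal.mul_ne_top ENNReal.ofReal_ne_top hψ) hEk
  have hfin : ∀ i, Ea (k + 1) ((2 : ℝ) ^ α) i φ ≠ ⊤ := fun i =>
    ne_top_of_le_ne_top hsum (Finset.single_le_sum (f := fun i => Ea (k + 1) ((2 : ℝ) ^ α) i φ)
      (fun _ _ => zero_le) (Finset.mem_univ i))
  have hint : Integrable fun x => coulR e x * ‖φ x‖ ^ 2 :=
    coulR_int (pairFin (k + 1) hp.hk _ b hp.b2 hp.b8 hp.ba φ hfin)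
  refine ⟨int_toPi ψ e hint, ?_⟩
  have h1 := low_params hp hθ hθ2 d ε' hd hε' hZ e he φ hfin
  rw [pot_toPi] at h1
  have hφ2 : ‖φ‖ₑ ^ 2 = ENNReal.ofReal (‖ψ‖ ^ 2) := by
    rw [enorm_sq_ofReal, hφ, toPi_enorm]
  have h2 : ENNReal.ofReal (-pot e ψ) ≤
      ENNReal.ofReal (C * (N : ℝ) ^ gam α * ‖ψ‖ ^ 2 + (kin α ψ).toReal) := by
    refine h1.trans ?_
    rw [ENNReal.ofReal_add (by positivity) ENNReal.toReal_nonneg, ENNReal.ofReal_toReal hψ,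
      hφ2, ENNReal.ofReal_mul (p := C * (N : ℝ) ^ gam α) (by positivity)]
    refine add_le_add (mul_le_mul_left (ENNReal.ofReal_le_ofReal hCN) _) ?_
    calc _ ≤ ENNReal.ofReal (C7 k α)⁻¹ * (ENNReal.ofReal (C7 k α) * kin α ψ) := by
          gcongr
      _ = kin α ψ := by
          rw [← mul_assoc, ← ENNReal.ofReal_mul (inv_nonneg.2 hC7.le),
            inv_mul_cancel₀ hC7.ne', ENNReal.ofReal_one, one_mul]
  have h3 : (0 : ℝ) ≤ C * (N : ℝ) ^ gam α * ‖ψ‖ ^ 2 + (kin α ψ).toReal := by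
    have := (kin α ψ).toReal_nonneg
    positivity
  rw [ENNReal.ofReal_le_ofReal_iff h3] at h2
  linarith

end Pool.Agent.T6.H42
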