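import Mathlib

/-!
# Charged particles with kinetic energy `|p|^α`: definitions
-/

set_option autoImplicit false

noncomputable section

namespace Pool.Agent.T6.H42

open MeasureTheory
open scoped ENNReal FourierTransform

/-- Configurations of `N` particles in `ℝ³`; the coordinate `(i, a)` is the `a`-th coordinate of
the position of the `i`-th particle. -/
abbrev Cfg (N : ℕ) : Type := EuclideanSpace ℝ (Fin N × Fin 3)

/-- The position of the `i`-th particle. -/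
def pos {N : ℕ} (x : Cfg N) (i : Fin N) : EuclideanSpace ℝ (Fin 3) :=
  WithLp.toLp 2 fun a => x (i, a)

/-- The Hilbert space `L²(ℝ^{3N})` of complex wave functions. -/
abbrev Wave (N : ℕ) : Type := Lp ℂ 2 (volume : Measure (Cfg N))

/-- The kinetic energy `⟨ψ, ∑ i, |p_i|^α ψ⟩`, computed on the Fourier side with the unitary Fourier
transform `𝓕 ψ (ξ) = ∫ exp (-2 π i x·ξ) ψ(x) dx`, for which `p_i` is multiplication by `2 π ξ_i`. -/
def kin {N : ℕ} (α : ℝ) (ψ : Wave N) : ℝ≥0∞ :=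
  ∫⁻ ξ, ENNReal.ofReal ((∑ i, (2 * Real.pi * ‖pos ξ i‖) ^ α) * ‖(𝓕 ψ : Wave N) ξ‖ ^ 2)

/-- The Coulomb potential `∑_{i<j} e_i e_j / |x_i - x_j|`. -/
def coul {N : ℕ} (e : Fin N → ℝ) (x : Cfg N) : ℝ :=
  ∑ i, ∑ j, if i < j then e i * e j / ‖pos x i - pos x j‖ else 0

/-- The potential energy `⟨ψ, ∑_{i<j} e_i e_j |x_i - x_j|⁻¹ ψ⟩`. -/
def pot {N : ℕ} (e : Fin N → ℝ) (ψ : Wave N) : ℝ :=
  ∫ x, coul e x * ‖ψ x‖ ^ 2

/-- An assignment of charges `±1`. -/
def IsCharge {N : ℕ} (e : Fin N → ℝ) : Prop := ∀ i, e i = 1 ∨ e i = -1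

/-- The values `K(ψ) + P(ψ)` of the energy over all charge assignments and all normalised `ψ` in
the form domain (finite kinetic energy, absolutely convergent potential energy). -/
def energies (α : ℝ) (N : ℕ) : Set ℝ :=
  {E | ∃ e : Fin N → ℝ, IsCharge e ∧ ∃ ψ : Wave N, ‖ψ‖ = 1 ∧ kin α ψ ≠ ⊤ ∧
    Integrable (fun x => coul e x * ‖ψ x‖ ^ 2) ∧ E = (kin α ψ).toReal + pot e ψ}

/-- The ground state energy `E₀^{(α)}(N)`. -/
def E0 (α : ℝ) (N : ℕ) : ℝ := sInf (energies α N)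

/-- The exponent `γ(α)`. -/
def gam (α : ℝ) : ℝ := (α ^ 2 + 3 * α - 3) / ((α - 1) * (α + 3))

end Pool.Agent.T6.H42
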