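import Mathlib

set_option autoImplicit false
set_option linter.unusedSectionVars false

noncomputable section

namespace Pool.Agent.T6.H42

open scoped InnerProductSpace

variable {H : Type*} [NormedAddCommGroup H] [InnerProductSpace ℂ H]

/-- `B` is an adjoint of `A` -/
def IsAdj (A B : H →L[ℂ] H) : Prop := ∀ x y, ⟪A x, y⟫_ℂ = ⟪x, B y⟫_ℂ

theorem IsAdj.mul {A B A' B' : H →L[ℂ] H} (h : IsAdj A B) (h' : IsAdj A' B') :
    IsAdj (A * A') (B' * B) := fun x y => by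
  show ⟪A (A' x), y⟫_ℂ = ⟪x, B' (B y)⟫_ℂ
  rw [h, h']

theorem IsAdj.one : IsAdj (1 : H →L[ℂ] H) 1 := fun _ _ => rfl

theorem IsAdj.sub {A B A' B' : H →L[ℂ] H} (h : IsAdj A B) (h' : IsAdj A' B') :
    IsAdj (A - A') (B - B') := fun x y => by
  show ⟪A x - A' x, y⟫_ℂ = ⟪x, B y - B' y⟫_ℂ
  rw [inner_sub_left, inner_sub_right, h, h']

theorem IsAdj.add {A B A' B' : H →L[ℂ] H} (h : IsAdj A B) (h' : IsAdj A' B') :
    IsAdj (A + A') (B + B') := fun x y => by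
  show ⟪A x + A' x, y⟫_ℂ = ⟪x, B y + B' y⟫_ℂ
  rw [inner_add_left, inner_add_right, h, h']

theorem sq_sum {J : Type*} (s : Finset J) (e : J → ℝ) (u : J → H) :
    ‖∑ i ∈ s, (e i : ℂ) • u i‖ ^ 2 = ∑ i ∈ s, ∑ j ∈ s, e i * e j * (⟪u i, u j⟫_ℂ).re := by
  rw [← inner_self_eq_norm_sq (𝕜 := ℂ), sum_inner, map_sum]
  refine Finset.sum_congr rfl fun i _ => ?_
  rw [inner_sum, map_sum]
  refine Finset.sum_congr rfl fun j _ => ?_
  rw [inner_smul_left, inner_smul_right, Complex.conj_ofReal, ← mul_assoc, ← Complex.ofReal_mul]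
  simp

theorem re_sum {J : Type*} (s : Finset J) (e : J → ℝ) (u w : J → H) :
    (⟪∑ i ∈ s, (e i : ℂ) • u i, ∑ i ∈ s, (e i : ℂ) • w i⟫_ℂ).re =
      ∑ i ∈ s, ∑ j ∈ s, e i * e j * (⟪u i, w j⟫_ℂ).re := by
  rw [sum_inner, Complex.re_sum]
  refine Finset.sum_congr rfl fun i _ => ?_
  rw [inner_sum, Complex.re_sum]
  refine Finset.sum_congr rfl fun j _ => ?_
  rw [inner_smul_left, inner_smul_right, Complex.conj_ofReal, ← mul_assoc, ← Complex.ofReal_mul]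
  simp

theorem key_identity (κ : ℝ) (hκ : 0 < κ) (a b d : H) :
    ‖a + b + d‖ ^ 2 ≥ (1 - κ) * (‖d‖ ^ 2 - ‖b‖ ^ 2) - (2 + κ + κ⁻¹) * ‖b‖ ^ 2 +
      2 * (⟪d, a⟫_ℂ).re - 2 * (⟪a, b⟫_ℂ).re := by
  have n2 : ∀ x y : H, ‖x + y‖ ^ 2 = ‖x‖ ^ 2 + 2 * (⟪x, y⟫_ℂ).re + ‖y‖ ^ 2 := by
    intro x y
    have := norm_add_sq (𝕜 := ℂ) x y
    simpa using this
  have h1 : 0 ≤ ‖a + (2 : ℂ) • b‖ ^ 2 := by positivity
  have h2 : 0 ≤ ‖((Real.sqrt κ : ℝ) : ℂ) • d + (((Real.sqrt κ)⁻¹ : ℝ) : ℂ) • b‖ ^ 2 := by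
    positivity
  have hs : Real.sqrt κ * Real.sqrt κ = κ := Real.mul_self_sqrt hκ.le
  have hs0 : 0 < Real.sqrt κ := Real.sqrt_pos.2 hκ
  rw [n2, norm_smul, inner_smul_right] at h1
  rw [n2, norm_smul, norm_smul, inner_smul_left, inner_smul_right, Complex.conj_ofReal,
    Complex.norm_real, Complex.norm_real, ← mul_assoc, ← Complex.ofReal_mul,
    mul_inv_cancel₀ hs0.ne', Complex.ofReal_one, one_mul, Real.norm_eq_abs, Real.norm_eq_abs,
    abs_of_pos hs0, abs_of_pos (inv_pos.2 hs0), mul_pow, mul_pow, inv_pow, sq (Real.sqrt κ), hs]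
    at h2
  have e1 : ((2 : ℂ) * ⟪a, b⟫_ℂ).re = 2 * (⟪a, b⟫_ℂ).re := by simp
  have e2 : ‖(2 : ℂ)‖ = 2 := by simp
  rw [e1, e2] at h1
  rw [n2 (a + b) d, n2 a b, inner_add_left, Complex.add_re]
  have e3 : (⟪d, b⟫_ℂ).re = (⟪b, d⟫_ℂ).re := by
    rw [← inner_conj_symm, Complex.conj_re]
  have e4 : (⟪d, a⟫_ℂ).re = (⟪a, d⟫_ℂ).re := by
    rw [← inner_conj_symm, Complex.conj_re]
  rw [e3] at h2
  rw [e4]
  nlinarith [h1, h2]

/-- The operator inequality. -/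
theorem star_ineq {J : Type*} (s : Finset J) (P g : J → H →L[ℂ] H) (e : J → ℝ)
    (he : ∀ i ∈ s, e i ^ 2 = 1)
    (hP : ∀ i, IsAdj (P i) (P i)) (hPP : ∀ i, P i * P i = P i)
    (hg : ∀ i, IsAdj (g i) (g i))
    (c1 : ∀ i j, i ≠ j → Commute (P i) (P j)) (c2 : ∀ i j, i ≠ j → Commute (P i) (g j))
    (c3 : ∀ i j, i ≠ j → Commute (g i) (g j)) (κ : ℝ) (hκ : 0 < κ) (v : H) :
    ‖∑ i ∈ s, (e i : ℂ) • g i v‖ ^ 2 - ∑ i ∈ s, ‖g i v‖ ^ 2 ≥
      -(∑ i ∈ s, (κ * ‖g i (P i v)‖ ^ 2 + 3 * ‖P i (g i (P i v))‖ ^ 2 +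
        4 * ‖P i (g i (v - P i v))‖ ^ 2 + ‖g i (v - P i v)‖ ^ 2)) -
      (2 + κ + κ⁻¹) * ‖∑ i ∈ s, (e i : ℂ) • P i (g i (v - P i v))‖ ^ 2 := by
  classical
  set b : J → H →L[ℂ] H := fun i => P i * g i * (1 - P i) with hb
  set bs : J → H →L[ℂ] H := fun i => (1 - P i) * g i * P i with hbs
  set Y : J → H →L[ℂ] H := fun i => P i * g i * P i + (1 - P i) * g i * (1 - P i) with hY
  have hQ : ∀ i, IsAdj (1 - P i) (1 - P i) := fun i => IsAdj.one.sub (hP i)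
  have hbadj : ∀ i, IsAdj (bs i) (b i) := by
    intro i
    have := ((hQ i).mul (hg i)).mul (hP i)
    rw [← mul_assoc] at this
    exact this
  have hYadj : ∀ i, IsAdj (Y i) (Y i) := by
    intro i
    have h1 := ((hP i).mul (hg i)).mul (hP i)
    have h2 := ((hQ i).mul (hg i)).mul (hQ i)
    have h3 := h1.add h2
    rw [← mul_assoc, ← mul_assoc] at h3
    exact h3
  have hcP : ∀ i j, i ≠ j → ∀ z, (z = P j ∨ z = g j) → Commute (P i) z ∧ Commute (g i) z := by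
    intro i j hij z hz
    rcases hz with rfl | rfl
    · exact ⟨c1 i j hij, (c2 j i hij.symm).symm⟩
    · exact ⟨c2 i j hij, c3 i j hij⟩
  have hQc : ∀ i (z : H →L[ℂ] H), Commute (P i) z → Commute (1 - P i) z := fun i z h =>
    (Commute.one_left z).sub_left h
  have hbz : ∀ i (z : H →L[ℂ] H), Commute (P i) z → Commute (g i) z →
      Commute (b i) z ∧ Commute (bs i) z ∧ Commute (Y i) z := by
    intro i z h1 h2
    have h3 := hQc i z h1
    exact ⟨(h1.mul_left h2).mul_left h3, (h3.mul_left h2).mul_left h1,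
      ((h1.mul_left h2).mul_left h1).add_left ((h3.mul_left h2).mul_left h3)⟩
  have hbb : ∀ i j, i ≠ j → Commute (b i) (bs j) ∧ Commute (b i) (Y j) := by
    intro i j hij
    have h1 := hbz i (P j) (hcP i j hij _ (Or.inl rfl)).1 (hcP i j hij _ (Or.inl rfl)).2
    have h2 := hbz i (g j) (hcP i j hij _ (Or.inr rfl)).1 (hcP i j hij _ (Or.inr rfl)).2
    have h3 := hbz j (b i) h1.1.symm h2.1.symm
    exact ⟨h3.2.1.symm, h3.2.2.symm⟩
  -- the decomposition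
  have hdec : ∀ i, g i v = Y i v + b i v + bs i v := by
    intro i
    simp only [hb, hbs, hY]
    show g i v = (P i (g i (P i v)) + (g i (v - P i v) - P i (g i (v - P i v)))) +
      P i (g i (v - P i v)) + (g i (P i v) - P i (g i (P i v)))
    rw [map_sub]
    abel
  set a' : H := ∑ i ∈ s, (e i : ℂ) • Y i v with ha'
  set b' : H := ∑ i ∈ s, (e i : ℂ) • b i v with hb'
  set d' : H := ∑ i ∈ s, (e i : ℂ) • bs i v with hd'
  have hsum : ∑ i ∈ s, (e i : ℂ) • g i v = a' + b' + d' := by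
    rw [ha', hb', hd', ← Finset.sum_add_distrib, ← Finset.sum_add_distrib]
    refine Finset.sum_congr rfl fun i _ => ?_
    rw [hdec i, smul_add, smul_add]
  have hkey := key_identity κ hκ a' b' d'
  -- diagonal reduction
  have o1 : ‖d'‖ ^ 2 - ‖b'‖ ^ 2 = ∑ i ∈ s, (‖bs i v‖ ^ 2 - ‖b i v‖ ^ 2) := by
    rw [hd', hb', sq_sum, sq_sum, ← Finset.sum_sub_distrib]
    refine Finset.sum_congr rfl fun i hi => ?_
    rw [← Finset.sum_sub_distrib, Finset.sum_eq_single i]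
    · have h1 := he i hi
      have h2 : ∀ x : H, (⟪x, x⟫_ℂ).re = ‖x‖ ^ 2 := fun x => by
        have := inner_self_eq_norm_sq (𝕜 := ℂ) x
        simpa using this
      rw [h2, h2, ← sq, h1]; ring
    · intro j _ hji
      have h1 : (⟪bs i v, bs j v⟫_ℂ).re = (⟪b i v, b j v⟫_ℂ).re := by
        rw [hbadj i v (bs j v)]
        have h2 : b i (bs j v) = bs j (b i v) := by
          have := (hbb i j hji.symm).1
          exact congrArg (fun T : H →L[ℂ] H => T v) this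
        rw [h2, ← inner_conj_symm, Complex.conj_re, hbadj j (b i v) v, ← inner_conj_symm,
          Complex.conj_re, ← inner_conj_symm, Complex.conj_re]
      rw [h1]; ring
    · intro h; exact absurd hi h
  have o2 : (⟪d', a'⟫_ℂ).re - (⟪a', b'⟫_ℂ).re =
      ∑ i ∈ s, ((⟪bs i v, Y i v⟫_ℂ).re - (⟪Y i v, b i v⟫_ℂ).re) := by
    have hcomm : ∑ i ∈ s, ∑ j ∈ s, e i * e j * (⟪Y i v, b j v⟫_ℂ).re =
        ∑ i ∈ s, ∑ j ∈ s, e i * e j * (⟪Y j v, b i v⟫_ℂ).re := by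
      rw [Finset.sum_comm]
      refine Finset.sum_congr rfl fun i _ => Finset.sum_congr rfl fun j _ => ?_
      ring
    rw [ha', hb', hd', re_sum, re_sum, hcomm, ← Finset.sum_sub_distrib]
    refine Finset.sum_congr rfl fun i hi => ?_
    rw [← Finset.sum_sub_distrib, Finset.sum_eq_single i]
    · have h1 := he i hi
      rw [← sq, h1]; ring
    · intro j _ hji
      have h1 : (⟪bs i v, Y j v⟫_ℂ).re = (⟪Y j v, b i v⟫_ℂ).re := by
        rw [hbadj i v (Y j v)]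
        have h2 : b i (Y j v) = Y j (b i v) := by
          have := (hbb i j hji.symm).2
          exact congrArg (fun T : H →L[ℂ] H => T v) this
        rw [h2, ← hYadj j v (b i v)]
      rw [h1]; ring
    · intro h; exact absurd hi h
  have P0 : ∀ i (x y : H), ⟪P i x, y - P i y⟫_ℂ = 0 := by
    intro i x y
    have h1 : P i (P i y) = P i y := congrArg (fun T : H →L[ℂ] H => T y) (hPP i)
    rw [hP i x, map_sub, h1, sub_self, inner_zero_right]
  have n2 : ∀ x y : H, ‖x + y‖ ^ 2 = ‖x‖ ^ 2 + 2 * (⟪x, y⟫_ℂ).re + ‖y‖ ^ 2 := by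
    intro x y
    have := norm_add_sq (𝕜 := ℂ) x y
    simpa using this
  -- the estimate for one particle
  have hone : ∀ i, (1 - κ) * (‖bs i v‖ ^ 2 - ‖b i v‖ ^ 2) +
      2 * ((⟪bs i v, Y i v⟫_ℂ).re - (⟪Y i v, b i v⟫_ℂ).re) - ‖g i v‖ ^ 2 ≥
      -(κ * ‖g i (P i v)‖ ^ 2 + 3 * ‖P i (g i (P i v))‖ ^ 2 +
        4 * ‖P i (g i (v - P i v))‖ ^ 2 + ‖g i (v - P i v)‖ ^ 2) := by
    intro i
    set w := g i (P i v) with hw
    set z := g i (v - P i v) with hz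
    have eb : b i v = P i z := rfl
    have ebs : bs i v = w - P i w := rfl
    have eY : Y i v = P i w + (z - P i z) := rfl
    have eg : g i v = (P i w + P i z) + ((w - P i w) + (z - P i z)) := by
      have : g i v = w + z := by rw [hw, hz, map_sub]; abel
      rw [this]; abel
    have ew : ‖w‖ ^ 2 = ‖P i w‖ ^ 2 + ‖w - P i w‖ ^ 2 := by
      have h1 : w = P i w + (w - P i w) := by abel
      have h2 := n2 (P i w) (w - P i w)
      rw [P0, Complex.zero_re, mul_zero, add_zero, ← h1] at h2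
      exact h2
    have ez : ‖z‖ ^ 2 = ‖P i z‖ ^ 2 + ‖z - P i z‖ ^ 2 := by
      have h1 : z = P i z + (z - P i z) := by abel
      have h2 := n2 (P i z) (z - P i z)
      rw [P0, Complex.zero_re, mul_zero, add_zero, ← h1] at h2
      exact h2
    have f1 : ‖g i v‖ ^ 2 = ‖P i w + P i z‖ ^ 2 + ‖(w - P i w) + (z - P i z)‖ ^ 2 := by
      rw [eg, n2]
      have h1 : P i w + P i z = P i (w + z) := (map_add _ _ _).symm
      have h2 : (w - P i w) + (z - P i z) = (w + z) - P i (w + z) := by rw [map_add]; abel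
      rw [h1, h2, P0]
      simp
    have f2 : (⟪bs i v, Y i v⟫_ℂ).re = (⟪w - P i w, z - P i z⟫_ℂ).re := by
      rw [ebs, eY, inner_add_right, Complex.add_re]
      have h1 : ⟪w - P i w, P i w⟫_ℂ = 0 := by
        rw [← inner_conj_symm, P0, map_zero]
      rw [h1, Complex.zero_re, zero_add]
    have f3 : (⟪Y i v, b i v⟫_ℂ).re = (⟪P i w, P i z⟫_ℂ).re := by
      rw [eb, eY, inner_add_left, Complex.add_re]
      have h1 : ⟪z - P i z, P i z⟫_ℂ = 0 := by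
        rw [← inner_conj_symm, P0, map_zero]
      rw [h1, Complex.zero_re, add_zero]
    have f4 : 0 ≤ ‖P i w + -(P i z)‖ ^ 2 := by positivity
    rw [n2, inner_neg_right, norm_neg, Complex.neg_re] at f4
    rw [f1, f2, f3, eb, ebs, n2, n2, ew, ez]
    nlinarith [f4, mul_nonneg hκ.le (sq_nonneg ‖P i w‖), mul_nonneg hκ.le (sq_nonneg ‖P i z‖)]
  have hfin := Finset.sum_le_sum fun i (_ : i ∈ s) => hone i
  have h9 : ∑ i ∈ s, ((1 - κ) * (‖bs i v‖ ^ 2 - ‖b i v‖ ^ 2) +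
      2 * ((⟪bs i v, Y i v⟫_ℂ).re - (⟪Y i v, b i v⟫_ℂ).re) - ‖g i v‖ ^ 2) =
      (1 - κ) * (‖d'‖ ^ 2 - ‖b'‖ ^ 2) + 2 * ((⟪d', a'⟫_ℂ).re - (⟪a', b'⟫_ℂ).re) -
        ∑ i ∈ s, ‖g i v‖ ^ 2 := by
    rw [Finset.sum_sub_distrib, Finset.sum_add_distrib, ← Finset.mul_sum, ← Finset.mul_sum,
      ← o1, ← o2]
  rw [Finset.sum_neg_distrib, h9] at hfin
  rw [hsum]
  have eb' : ∑ i ∈ s, (e i : ℂ) • P i (g i (v - P i v)) = b' := rfl
  rw [eb']
  linarith

end Pool.Agent.T6.H42
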