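import Pool.Agent.T6.H42.Geo
import Pool.Agent.T6.H42.Abs

set_option autoImplicit false
set_option linter.unusedSectionVars false

noncomputable section

namespace Pool.Agent.T6.H42

open MeasureTheory Function Filter
open scoped ENNReal

variable {N : ℕ}

/-- three dimensional space -/
abbrev S3 : Type := EuclideanSpace ℝ (Fin 3)

/-- the position of a particle -/
def pt (x : Fin N × Fin 3 → ℝ) (i : Fin N) : S3 := WithLp.toLp 2 fun a => x (i, a)

theorem pt_apply (x : Fin N × Fin 3 → ℝ) (i : Fin N) (a : Fin 3) : pt x i a = x (i, a) := rfl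

theorem meas_pt (i : Fin N) : Measurable fun x : Fin N × Fin 3 → ℝ => pt x i := by
  unfold pt
  exact (PiLp.continuous_toLp 2 _).measurable.comp (by fun_prop)

/-- configurations in which the particle `i` is in a ball -/
def bset (i : Fin N) (z : S3) (r : ℝ) : Set (Fin N × Fin 3 → ℝ) := {x | ‖pt x i - z‖ < r}

/-- configurations in which two particles are close -/
def pset (i j : Fin N) (r : ℝ) : Set (Fin N × Fin 3 → ℝ) := {x | ‖pt x i - pt x j‖ < r}

theorem meas_bset (i : Fin N) (z : S3) (r : ℝ) : MeasurableSet (bset i z r) :=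
  measurableSet_lt ((meas_pt i).sub_const z).norm measurable_const

theorem meas_pset (i j : Fin N) (r : ℝ) : MeasurableSet (pset i j r) :=
  measurableSet_lt ((meas_pt i).sub (meas_pt j)).norm measurable_const

/-- multiplication by the indicator of a ball -/
def gB (i : Fin N) (z : S3) (r : ℝ) : HS (Fin N × Fin 3) →L[ℂ] HS (Fin N × Fin 3) :=
  ind (bset i z r) (meas_bset i z r)

/-- multiplication by the indicator of a pair set -/
def gP (i j : Fin N) (r : ℝ) : HS (Fin N × Fin 3) →L[ℂ] HS (Fin N × Fin 3) :=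
  ind (pset i j r) (meas_pset i j r)

theorem coord_le (u : S3) (a : Fin 3) : |u a| ≤ ‖u‖ := by
  have := PiLp.norm_apply_le u a
  simpa using this

theorem avg3_ball (m : ℕ) (i : Fin N) (z : S3) (r : ℝ) (x : Fin N × Fin 3 → ℝ) :
    avg3 m i ((bset i z r).indicator fun _ => 1) x ≤ (2 ^ m * ENNReal.ofReal (2 * r)) ^ 3 := by
  have h := avg3_le m i ((bset i z r).indicator fun _ => 1) x (Finset.univ : Finset Unit)
    (fun _ a => Set.Ioo (z a - r) (z a + r)) (fun _ _ => measurableSet_Ioo) ?_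
    (ENNReal.ofReal (2 * r)) ?_
  · simpa using h
  · intro t
    by_cases hx : setpos x i t ∈ bset i z r
    · have h1 : ∀ a, t a ∈ Set.Ioo (z a - r) (z a + r) := by
        intro a
        have h2 : |(pt (setpos x i t) i - z) a| < r := lt_of_le_of_lt (coord_le _ a) hx
        have h3 : (pt (setpos x i t) i - z) a = t a - z a := by
          rw [PiLp.sub_apply, pt_apply, setpos_self]
        rw [h3, abs_lt] at h2
        constructor <;> linarith [h2.1, h2.2]
      simp [hx, h1 0, h1 1, h1 2]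
    · simp [hx]
  · intro _ _ a
    rw [Real.volume_Ioo]
    apply le_of_eq
    congr 1
    ring

theorem avg3_pair (m : ℕ) (i j : Fin N) (hij : j ≠ i) (r : ℝ) (x : Fin N × Fin 3 → ℝ) :
    avg3 m i ((pset i j r).indicator fun _ => 1) x ≤ (2 ^ m * ENNReal.ofReal (2 * r)) ^ 3 := by
  have h := avg3_le m i ((pset i j r).indicator fun _ => 1) x (Finset.univ : Finset Unit)
    (fun _ a => Set.Ioo (x (j, a) - r) (x (j, a) + r)) (fun _ _ => measurableSet_Ioo) ?_
    (ENNReal.ofReal (2 * r)) ?_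
  · simpa using h
  · intro t
    by_cases hx : setpos x i t ∈ pset i j r
    · have h1 : ∀ a, t a ∈ Set.Ioo (x (j, a) - r) (x (j, a) + r) := by
        intro a
        have h2 : |(pt (setpos x i t) i - pt (setpos x i t) j) a| < r :=
          lt_of_le_of_lt (coord_le _ a) hx
        have h3 : (pt (setpos x i t) i - pt (setpos x i t) j) a = t a - x (j, a) := by
          rw [PiLp.sub_apply, pt_apply, pt_apply, setpos_self, setpos_ne _ _ _ hij]
        rw [h3, abs_lt] at h2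
        constructor <;> linarith [h2.1, h2.2]
      simp [hx, h1 0, h1 1, h1 2]
    · simp [hx]
  · intro _ _ a
    rw [Real.volume_Ioo]
    apply le_of_eq
    congr 1
    ring

/-- the constant of the local bounds -/
def KK (k : ℕ) : ℝ := 8 * kap k ^ 6

theorem KK_pos (k : ℕ) : 0 < KK k := by
  have := kap_pos k
  unfold KK; positivity

theorem sq_of_enorm {H : Type*} [NormedAddCommGroup H] {φ ψ : H} {C : ℝ} (hC : 0 ≤ C)
    (h : ‖φ‖ₑ ^ 2 ≤ ENNReal.ofReal C * ‖ψ‖ₑ ^ 2) : ‖φ‖ ^ 2 ≤ C * ‖ψ‖ ^ 2 := by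
  have h2 := ENNReal.toReal_mono (by finiteness) h
  simpa [hC] using h2

theorem gB_PP (k m : ℕ) (i : Fin N) (z : S3) {r : ℝ} (hr : 0 ≤ r) (φ : HS (Fin N × Fin 3)) :
    ‖gB i z r (PP k m i φ)‖ ^ 2 ≤ KK k * (2 ^ m * r) ^ 3 * ‖φ‖ ^ 2 := by
  have hκ := kap_pos k
  apply sq_of_enorm (by unfold KK; positivity)
  unfold gB
  rw [ind_sq]
  refine (PP_wn_le k m i φ (measurable_const.indicator (meas_bset i z r)) _
    (avg3_ball m i z r)).trans (le_of_eq ?_)
  rw [← mul_assoc]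
  congr 1
  unfold KK
  have h2 : (2 : ℝ≥0∞) ^ m = ENNReal.ofReal (2 ^ m) := by
    rw [ENNReal.ofReal_pow (by norm_num), ENNReal.ofReal_ofNat]
  rw [h2, ← ENNReal.ofReal_mul (by positivity), ← ENNReal.ofReal_pow hκ.le,
    ← ENNReal.ofReal_pow (by positivity), ← ENNReal.ofReal_mul (by positivity)]
  congr 1
  ring

theorem gP_PP (k m : ℕ) (i j : Fin N) (hij : j ≠ i) {r : ℝ} (hr : 0 ≤ r)
    (φ : HS (Fin N × Fin 3)) :
    ‖gP i j r (PP k m i φ)‖ ^ 2 ≤ KK k * (2 ^ m * r) ^ 3 * ‖φ‖ ^ 2 := by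
  have hκ := kap_pos k
  apply sq_of_enorm (by unfold KK; positivity)
  unfold gP
  rw [ind_sq]
  refine (PP_wn_le k m i φ (measurable_const.indicator (meas_pset i j r)) _
    (avg3_pair m i j hij r)).trans (le_of_eq ?_)
  rw [← mul_assoc]
  congr 1
  unfold KK
  have h2 : (2 : ℝ≥0∞) ^ m = ENNReal.ofReal (2 ^ m) := by
    rw [ENNReal.ofReal_pow (by norm_num), ENNReal.ofReal_ofNat]
  rw [h2, ← ENNReal.ofReal_mul (by positivity), ← ENNReal.ofReal_pow hκ.le,
    ← ENNReal.ofReal_pow (by positivity), ← ENNReal.ofReal_mul (by positivity)]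
  congr 1
  ring

theorem gB_adj (i : Fin N) (z : S3) (r : ℝ) : IsAdj (gB i z r) (gB i z r) :=
  fun x y => ind_adj _ x y

theorem PP_isAdj (k m : ℕ) (i : Fin N) : IsAdj (PP k m i) (PP k m i) := fun x y => PP_adj k m i x y

theorem ind_idem {ι : Type} [DecidableEq ι] [Fintype ι] {S : Set (ι → ℝ)} (hS : MeasurableSet S)
    (φ : HS ι) : ind S hS (ind S hS φ) = ind S hS φ := by
  rw [ind_ind]
  congr 2
  exact Set.inter_self S

theorem gB_idem (i : Fin N) (z : S3) (r : ℝ) (φ : HS (Fin N × Fin 3)) :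
    gB i z r (gB i z r φ) = gB i z r φ := ind_idem _ φ

theorem ind_norm_le {ι : Type} [DecidableEq ι] [Fintype ι] {S : Set (ι → ℝ)}
    (hS : MeasurableSet S) (φ : HS ι) : ‖ind S hS φ‖ ≤ ‖φ‖ :=
  proj_norm_le (ind_adj hS) (ind_idem hS) φ

/-- the dual bound -/
theorem PP_gB (k : ℕ) (hk : 0 < k) (m : ℕ) (i : Fin N) (z : S3) {r : ℝ} (hr : 0 ≤ r)
    (φ : HS (Fin N × Fin 3)) :
    ‖PP k m i (gB i z r φ)‖ ^ 2 ≤ KK k * (2 ^ m * r) ^ 3 * ‖gB i z r φ‖ ^ 2 := by
  have hκ := KK_pos k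
  set w := gB i z r φ with hw
  have hgw : gB i z r w = w := gB_idem i z r φ
  set y := PP k m i w with hy
  have hPy : PP k m i y = y := PP_idem k hk m i w
  set K := Real.sqrt (KK k * (2 ^ m * r) ^ 3) with hK
  have hK2 : K ^ 2 = KK k * (2 ^ m * r) ^ 3 := Real.sq_sqrt (by positivity)
  have hK0 : 0 ≤ K := Real.sqrt_nonneg _
  have h1 : ‖gB i z r (PP k m i y)‖ ≤ K * ‖y‖ := by
    apply le_of_sq_le_sq _ (by positivity)
    rw [mul_pow, hK2]
    exact gB_PP k m i z hr y
  have h2 : (‖y‖ : ℝ) ^ 2 ≤ ‖w‖ * (K * ‖y‖) := by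
    have e1 : (‖y‖ : ℝ) ^ 2 = RCLike.re (inner ℂ y y) := by
      rw [← inner_self_eq_norm_sq (𝕜 := ℂ)]
    have e2 : inner ℂ y y = inner ℂ w (gB i z r (PP k m i y)) := by
      conv_lhs => rw [hy]
      rw [PP_adj, hPy]
      conv_lhs => rw [← hgw]
      rw [gB_adj i z r w y]
    rw [e1, e2]
    calc _ ≤ ‖w‖ * ‖gB i z r (PP k m i y)‖ := re_inner_le_norm _ _
      _ ≤ _ := by gcongr
  have h3 : ‖y‖ ≤ K * ‖w‖ := by
    rcases (norm_nonneg y).eq_or_lt with h | h
    · rw [← h]; positivity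
    · nlinarith
  calc ‖y‖ ^ 2 ≤ (K * ‖w‖) ^ 2 := by gcongr
    _ = _ := by rw [mul_pow, hK2]

end Pool.Agent.T6.H42
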