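import Pool.Agent.T6.H42.Proj

set_option autoImplicit false
set_option linter.unusedSectionVars false

noncomputable section

namespace Pool.Agent.T6.H42

open MeasureTheory Function Filter Topology Set
open scoped ENNReal Polynomial

theorem poly_anti (k : ℕ) (T : ℂ[X]) (hT : T.natDegree < k) :
    ∃ A : ℂ[X], A.natDegree < k + 1 ∧ Polynomial.derivative A = T := by
  refine ⟨∑ i ∈ Finset.range k, Polynomial.C (T.coeff i / (i + 1)) * Polynomial.X ^ (i + 1),
    ?_, ?_⟩
  · refine lt_of_le_of_lt (Polynomial.natDegree_sum_le_of_forall_le (n := k) _ _ ?_)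
      (Nat.lt_succ_self k)
    intro i hi
    rw [Finset.mem_range] at hi
    exact (Polynomial.natDegree_C_mul_X_pow_le _ _).trans hi
  · rw [Polynomial.derivative_sum]
    conv_rhs => rw [Polynomial.as_sum_range' T k hT]
    refine Finset.sum_congr rfl fun i _ => ?_
    rw [Polynomial.derivative_C_mul_X_pow, ← Polynomial.C_mul_X_pow_eq_monomial]
    congr 2
    push_cast
    have : (i : ℂ) + 1 ≠ 0 := by exact_mod_cast Nat.succ_ne_zero i
    field_simp

theorem cs_int (f : ℝ → ℂ) (hf : Continuous f) {a b s : ℝ} (hs : s ∈ Icc a b) :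
    ‖∫ t in a..s, f t‖ ^ 2 ≤ (b - a) * ∫ t in a..b, ‖f t‖ ^ 2 := by
  have h1 : ‖∫ t in a..s, f t‖ ≤ ∫ t in a..b, ‖f t‖ := by
    refine (intervalIntegral.norm_integral_le_integral_norm hs.1).trans ?_
    have h2 : IntervalIntegrable (fun t => ‖f t‖) volume a s := hf.norm.intervalIntegrable _ _
    have h3 : IntervalIntegrable (fun t => ‖f t‖) volume s b := hf.norm.intervalIntegrable _ _
    rw [← intervalIntegral.integral_add_adjacent_intervals h2 h3]
    have h4 : 0 ≤ ∫ t in s..b, ‖f t‖ :=
      intervalIntegral.integral_nonneg hs.2 fun _ _ => norm_nonneg _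
    linarith
  have hab : a ≤ b := hs.1.trans hs.2
  -- Cauchy-Schwarz by positivity of a square
  set A := ∫ t in a..b, ‖f t‖ with hA
  set B := ∫ t in a..b, ‖f t‖ ^ 2 with hB
  have hA0 : 0 ≤ A := intervalIntegral.integral_nonneg hab fun _ _ => norm_nonneg _
  have h5 : A ^ 2 ≤ (b - a) * B := by
    rcases hab.eq_or_lt with h | h
    · have : A = 0 := by rw [hA, h]; simp
      rw [this, h]; simp
    · have h6 : 0 ≤ ∫ t in a..b, (‖f t‖ - A / (b - a)) ^ 2 :=
        intervalIntegral.integral_nonneg hab fun _ _ => sq_nonneg _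
      have h7 : ∫ t in a..b, (‖f t‖ - A / (b - a)) ^ 2 =
          B - 2 * (A / (b - a)) * A + (A / (b - a)) ^ 2 * (b - a) := by
        have e1 : ∀ t, (‖f t‖ - A / (b - a)) ^ 2 =
            (‖f t‖ ^ 2 - 2 * (A / (b - a)) * ‖f t‖) + (A / (b - a)) ^ 2 := by
          intro t; ring
        simp_rw [e1]
        rw [intervalIntegral.integral_add, intervalIntegral.integral_sub,
          intervalIntegral.integral_const_mul, intervalIntegral.integral_const, smul_eq_mul]
        · ring
        · exact (hf.norm.pow 2).intervalIntegrable _ _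
        · exact (hf.norm.const_mul _).intervalIntegrable _ _
        · exact ((hf.norm.pow 2).sub (hf.norm.const_mul _)).intervalIntegrable _ _
        · exact continuous_const.intervalIntegrable _ _
      rw [h7] at h6
      have h8 : 0 < b - a := by linarith
      have e2 : B - 2 * (A / (b - a)) * A + (A / (b - a)) ^ 2 * (b - a) =
          B - A ^ 2 / (b - a) := by
        field_simp
        ring
      rw [e2] at h6
      have h9 : A ^ 2 / (b - a) ≤ B := by linarith
      rw [div_le_iff₀ h8] at h9
      linarith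
  calc ‖∫ t in a..s, f t‖ ^ 2 ≤ A ^ 2 := by gcongr
    _ ≤ _ := h5

/-- Taylor approximation with an `L²` bound of the last derivative. -/
theorem taylor_l2 (k : ℕ) : ∀ (h : ℕ → ℝ → ℂ)
    (_ : ∀ j, j < k + 1 → ∀ s, HasDerivAt (h j) (h (j + 1) s) s) (_ : Continuous (h (k + 1)))
    (a b : ℝ) (_ : a ≤ b),
    ∃ T : ℂ[X], T.natDegree < k + 1 ∧ ∀ s ∈ Icc a b,
      ‖h 0 s - T.eval (s : ℂ)‖ ^ 2 ≤ (b - a) ^ (2 * k + 1) * ∫ t in a..b, ‖h (k + 1) t‖ ^ 2 := by
  induction k with
  | zero =>
    intro h hd hc a b hab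
    refine ⟨Polynomial.C (h 0 a), by simp, ?_⟩
    intro s hs
    have h1 : ∫ t in a..s, h 1 t = h 0 s - h 0 a :=
      intervalIntegral.integral_eq_sub_of_hasDerivAt (fun t _ => hd 0 (by omega) t)
        (hc.intervalIntegrable _ _)
    rw [Polynomial.eval_C, ← h1]
    simpa using cs_int (h 1) hc hs
  | succ k ih =>
    intro h hd hc a b hab
    obtain ⟨T1, hT1, hb1⟩ := ih (fun j => h (j + 1)) (fun j hj s => hd (j + 1) (by omega) s) hc
      a b hab
    obtain ⟨A, hA, hA'⟩ := poly_anti (k + 1) T1 hT1
    refine ⟨A + Polynomial.C (h 0 a - A.eval (a : ℂ)), ?_, ?_⟩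
    · refine lt_of_le_of_lt (Polynomial.natDegree_add_le _ _) ?_
      rw [Polynomial.natDegree_C]
      exact max_lt hA (by omega)
    · intro s hs
      set I := ∫ t in a..b, ‖h (k + 1 + 1) t‖ ^ 2 with hI
      have hI0 : 0 ≤ I := intervalIntegral.integral_nonneg hab fun _ _ => by positivity
      have hba : 0 ≤ b - a := by linarith
      have hcont1 : Continuous (h 1) := by
        rw [continuous_iff_continuousAt]
        intro t
        exact (hd 1 (by omega) t).continuousAt
      have hTc : Continuous fun t : ℝ => T1.eval (t : ℂ) :=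
        (Polynomial.continuous T1).comp Complex.continuous_ofReal
      have hint : IntervalIntegrable (fun t => h 1 t - T1.eval (t : ℂ)) volume a s :=
        (hcont1.sub hTc).intervalIntegrable _ _
      have h1 : ∫ t in a..s, (h 1 t - T1.eval (t : ℂ)) =
          (h 0 s - A.eval (s : ℂ)) - (h 0 a - A.eval (a : ℂ)) := by
        refine intervalIntegral.integral_eq_sub_of_hasDerivAt
          (f := fun t => h 0 t - A.eval (t : ℂ)) (fun t _ => ?_) hint
        have hA1 : HasDerivAt (fun t : ℝ => A.eval (t : ℂ)) (T1.eval (t : ℂ)) t := by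
          have := (A.hasDerivAt (t : ℂ)).comp_ofReal
          rwa [hA'] at this
        exact (hd 0 (by omega) t).sub hA1
      have h2 : h 0 s - (A + Polynomial.C (h 0 a - A.eval (a : ℂ))).eval (s : ℂ) =
          ∫ t in a..s, (h 1 t - T1.eval (t : ℂ)) := by
        rw [h1, Polynomial.eval_add, Polynomial.eval_C]
        ring
      rw [h2]
      set M := Real.sqrt ((b - a) ^ (2 * k + 1) * I) with hM
      have hM2 : M ^ 2 = (b - a) ^ (2 * k + 1) * I := Real.sq_sqrt (by positivity)
      have h3 : ‖∫ t in a..s, (h 1 t - T1.eval (t : ℂ))‖ ≤ M * |s - a| := by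
        apply intervalIntegral.norm_integral_le_of_norm_le_const
        intro t ht
        rw [uIoc_of_le hs.1] at ht
        have h4 := hb1 t ⟨ht.1.le, ht.2.trans hs.2⟩
        rw [← hM2] at h4
        exact le_of_sq_le_sq h4 (Real.sqrt_nonneg _)
      have h4 : |s - a| ≤ b - a := by
        rw [abs_of_nonneg (by linarith [hs.1])]
        linarith [hs.2]
      calc ‖∫ t in a..s, (h 1 t - T1.eval (t : ℂ))‖ ^ 2 ≤ (M * |s - a|) ^ 2 := by gcongr
        _ ≤ (M * (b - a)) ^ 2 := by
          have := Real.sqrt_nonneg ((b - a) ^ (2 * k + 1) * I)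
          gcongr
        _ = _ := by
          rw [mul_pow, hM2]
          ring

end Pool.Agent.T6.H42
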