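import Pool.Agent.T6.H42.Bd

set_option autoImplicit false
set_option linter.unusedSectionVars false

noncomputable section

namespace Pool.Agent.T6.H42

open MeasureTheory Function Filter Topology
open scoped ENNReal

variable {N : ℕ}

theorem enorm_sq_ofReal' {H : Type*} [NormedAddCommGroup H] (φ : H) :
    ENNReal.ofReal (‖φ‖ ^ 2) = ‖φ‖ₑ ^ 2 := by
  rw [ENNReal.ofReal_pow (norm_nonneg _), ofReal_norm]

/-- telescoping -/
theorem tele (k : ℕ) (hk : 0 < k) (i : Fin N) (v : HS (Fin N × Fin 3)) {m1 n : ℕ} (h : m1 ≤ n) :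
    v - PP k m1 i v = ∑ m ∈ Finset.Ico m1 n, PP k (m + 1) i (v - PP k m i v) +
      (v - PP k n i v) := by
  induction n, h using Nat.le_induction with
  | base => simp
  | succ n hn ih =>
    rw [ih, Finset.sum_Ico_succ_top hn, map_sub, PP_comp k hk (Nat.le_succ n)]
    abel

/-- a constant -/
def K1 (k : ℕ) : ℝ := max (KK k) 1

theorem K1_pos (k : ℕ) : 0 < K1 k := lt_max_of_lt_right one_pos

theorem geo_le (r : ℝ) (h0 : 0 ≤ r) (h1 : r < 1) (m1 n : ℕ) :
    ∑ m ∈ Finset.Icc m1 n, r ^ (n - m) ≤ (1 - r)⁻¹ := by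
  have e1 : ∑ m ∈ Finset.Icc m1 n, r ^ (n - m) ≤ ∑ m ∈ Finset.range (n + 1), r ^ (n - m) := by
    refine Finset.sum_le_sum_of_subset_of_nonneg ?_ fun _ _ _ => by positivity
    intro m hm
    rw [Finset.mem_Icc] at hm
    rw [Finset.mem_range]
    omega
  have e2 := Finset.sum_range_reflect (fun l => r ^ l) (n + 1)
  simp only [Nat.add_sub_cancel] at e2
  rw [e2] at e1
  refine e1.trans ?_
  rw [← tsum_geometric_of_lt_one h0 h1]
  exact (summable_geometric_of_lt_one h0 h1).sum_le_tsum _ fun _ _ => by positivity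

/-- abstract form of the telescoping estimate: `G` is multiplication by an indicator -/
theorem tele_bound (k : ℕ) (hk : 0 < k) (i : Fin N) (v : HS (Fin N × Fin 3))
    (G : HS (Fin N × Fin 3) →L[ℂ] HS (Fin N × Fin 3)) (hG : ∀ φ, ‖G φ‖ ≤ ‖φ‖)
    (W c : ℕ → ℝ) (hW0 : ∀ m, 0 ≤ W m) (hW8 : ∀ m, W (m + 1) ≤ 8 * W m) (hc : ∀ m, 0 < c m)
    {m1 n : ℕ} (h : m1 ≤ n)
    (hGP : ∀ m φ, ‖G (PP k m i φ)‖ ^ 2 ≤ KK k * W m * ‖φ‖ ^ 2)
    (hWn : 1 ≤ W n) :
    ‖G v‖ ^ 2 ≤ 2 * (KK k * W m1 * ‖v‖ ^ 2) +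
      2 * ((∑ m ∈ Finset.Icc m1 n, (c m)⁻¹) *
        ∑ m ∈ Finset.Icc m1 n, 8 * K1 k * W m * c m * ‖v - PP k m i v‖ ^ 2) := by
  set a : ℕ → ℝ := fun m => ‖v - PP k m i v‖ with ha
  have hK1 := K1_pos k
  have hKK := KK_pos k
  have hKK1 : KK k ≤ K1 k := le_max_left _ _
  set w : ℕ → ℝ := fun m => Real.sqrt (8 * K1 k * W m) with hw
  have hw2 : ∀ m, w m ^ 2 = 8 * K1 k * W m := fun m =>
    Real.sq_sqrt (mul_nonneg (by positivity) (hW0 m))
  have hw0 : ∀ m, 0 ≤ w m := fun m => Real.sqrt_nonneg _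
  have h1 : ‖G (v - PP k m1 i v)‖ ≤ ∑ m ∈ Finset.Icc m1 n, w m * a m := by
    rw [tele k hk i v h, map_add, map_sum, ← Finset.sum_Ico_add_eq_sum_Icc h]
    refine (norm_add_le _ _).trans (add_le_add ?_ ?_)
    · refine (norm_sum_le _ _).trans (Finset.sum_le_sum fun m _ => ?_)
      apply le_of_sq_le_sq _ (by positivity)
      rw [mul_pow, hw2]
      refine (hGP (m + 1) _).trans ?_
      simp only [ha]
      refine mul_le_mul_of_nonneg_right ?_ (by positivity)
      calc KK k * W (m + 1) ≤ K1 k * (8 * W m) := by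
            apply mul_le_mul hKK1 (hW8 m) (hW0 _) hK1.le
        _ = _ := by ring
    · refine (hG _).trans ?_
      have h2 : 1 ≤ w n := by
        rw [hw, Real.one_le_sqrt]
        have : 1 ≤ K1 k := le_max_right _ _
        nlinarith
      have h3 : 0 ≤ a n := norm_nonneg _
      nlinarith
  have h2 : (∑ m ∈ Finset.Icc m1 n, w m * a m) ^ 2 ≤
      (∑ m ∈ Finset.Icc m1 n, (c m)⁻¹) *
        ∑ m ∈ Finset.Icc m1 n, 8 * K1 k * W m * c m * a m ^ 2 := by
    have h3 := Finset.sum_mul_sq_le_sq_mul_sq (Finset.Icc m1 n)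
      (fun m => (Real.sqrt (c m))⁻¹) (fun m => Real.sqrt (c m) * (w m * a m))
    have e1 : ∀ m, (√(c m))⁻¹ * (√(c m) * (w m * a m)) = w m * a m := by
      intro m
      have h0 : √(c m) ≠ 0 := (Real.sqrt_pos.2 (hc m)).ne'
      field_simp
    have e2 : ∀ m, ((√(c m))⁻¹) ^ 2 = (c m)⁻¹ := by
      intro m
      rw [inv_pow, Real.sq_sqrt (hc m).le]
    have e3 : ∀ m, (√(c m) * (w m * a m)) ^ 2 = 8 * K1 k * W m * c m * a m ^ 2 := by
      intro m
      rw [mul_pow, mul_pow, Real.sq_sqrt (hc m).le, hw2]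
      ring
    simp_rw [e1, e2, e3] at h3
    exact h3
  have h4 : ‖G v‖ ≤ ‖G (PP k m1 i v)‖ + ‖G (v - PP k m1 i v)‖ := by
    have : G v = G (PP k m1 i v) + G (v - PP k m1 i v) := by rw [map_sub]; abel
    rw [this]
    exact norm_add_le _ _
  have h5 : ‖G v‖ ^ 2 ≤ 2 * ‖G (PP k m1 i v)‖ ^ 2 + 2 * ‖G (v - PP k m1 i v)‖ ^ 2 := by
    have h6 := norm_nonneg (G v)
    nlinarith [sq_nonneg (‖G (PP k m1 i v)‖ - ‖G (v - PP k m1 i v)‖)]
  refine h5.trans ?_
  gcongr
  · exact hGP m1 v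
  · calc ‖G (v - PP k m1 i v)‖ ^ 2 ≤ (∑ m ∈ Finset.Icc m1 n, w m * a m) ^ 2 := by gcongr
      _ ≤ _ := h2

/-- short range estimate for one pair and one radius -/
theorem pair_bound (k : ℕ) (hk : 0 < k) {i j : Fin N} (hij : j ≠ i) (v : HS (Fin N × Fin 3))
    (b : ℝ) (hb0 : 0 < b) (hb : b < 8) {m1 n : ℕ} (h : m1 ≤ n) :
    ‖gP i j (1 / 2 ^ n) v‖ ^ 2 ≤ 2 * (KK k * (8 ^ m1 / 8 ^ n) * ‖v‖ ^ 2) +
      2 * (8 * K1 k * (1 - b / 8)⁻¹ / b ^ n *
        ∑ m ∈ Finset.Icc m1 n, b ^ m * ‖v - PP k m i v‖ ^ 2) := by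
  have hK1 := K1_pos k
  have h1 := tele_bound k hk i v (gP i j (1 / 2 ^ n)) (fun φ => ind_norm_le _ φ)
    (fun m => 8 ^ m / 8 ^ n) (fun m => b ^ m / (8 ^ m / 8 ^ n)) (fun m => by positivity)
    (fun m => le_of_eq (by rw [pow_succ]; ring)) (fun m => by positivity) h ?_ ?_
  · refine h1.trans (add_le_add le_rfl (mul_le_mul_of_nonneg_left ?_ (by norm_num)))
    have e1 : ∀ m ∈ Finset.Icc m1 n, (b ^ m / (8 ^ m / 8 ^ n) : ℝ)⁻¹ =
        1 / b ^ n * (b / 8) ^ (n - m) := by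
      intro m hm
      rw [Finset.mem_Icc] at hm
      obtain ⟨l, hl⟩ := Nat.exists_eq_add_of_le hm.2
      rw [hl, Nat.add_sub_cancel_left, div_pow, pow_add, pow_add]
      field_simp
    have e2 : ∀ m ∈ Finset.Icc m1 n, 8 * K1 k * (8 ^ m / 8 ^ n) * (b ^ m / (8 ^ m / 8 ^ n)) *
        ‖v - PP k m i v‖ ^ 2 = 8 * K1 k * (b ^ m * ‖v - PP k m i v‖ ^ 2) := by
      intro m _
      field_simp
    rw [Finset.sum_congr rfl e1, Finset.sum_congr rfl e2, ← Finset.mul_sum, ← Finset.mul_sum]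
    have h4 := geo_le (b / 8) (by positivity) (by linarith) m1 n
    have h5 : 0 ≤ ∑ m ∈ Finset.Icc m1 n, b ^ m * ‖v - PP k m i v‖ ^ 2 :=
      Finset.sum_nonneg fun m _ => by positivity
    calc _ ≤ 1 / b ^ n * (1 - b / 8)⁻¹ *
          (8 * K1 k * ∑ m ∈ Finset.Icc m1 n, b ^ m * ‖v - PP k m i v‖ ^ 2) := by gcongr
      _ = _ := by ring
  · intro m φ
    have h2 := gP_PP k m i j hij (r := 1 / 2 ^ n) (by positivity) φ
    refine h2.trans (le_of_eq ?_)
    have h8 : (8 : ℝ) = 2 ^ 3 := by norm_num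
    rw [h8, ← pow_mul, ← pow_mul, mul_pow, div_pow, one_pow, ← pow_mul, ← pow_mul,
      mul_comm 3 m, mul_comm 3 n]
    ring
  · rw [div_self (by positivity)]

theorem geoE (r c : ℝ) (h0 : 0 ≤ r) (h1 : r < 1) (hc : 0 ≤ c) (n0 : ℕ) :
    ∑' n : ℕ, (if n0 ≤ n then ENNReal.ofReal (c * r ^ n) else 0) =
      ENNReal.ofReal (c * r ^ n0 * (1 - r)⁻¹) := by
  rw [← Summable.sum_add_tsum_nat_add' (k := n0) ENNReal.summable]
  have e1 : ∑ n ∈ Finset.range n0, (if n0 ≤ n then ENNReal.ofReal (c * r ^ n) else 0) = 0 := by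
    refine Finset.sum_eq_zero fun n hn => ?_
    rw [Finset.mem_range] at hn
    rw [if_neg (by omega)]
  rw [e1, zero_add]
  have e2 : ∀ n : ℕ, (if n0 ≤ n + n0 then ENNReal.ofReal (c * r ^ (n + n0)) else 0) =
      ENNReal.ofReal (c * r ^ n0 * r ^ n) := by
    intro n
    rw [if_pos (by omega), pow_add]
    congr 1; ring
  simp_rw [e2]
  rw [← ENNReal.ofReal_tsum_of_nonneg (fun n => by positivity)
    ((summable_geometric_of_lt_one h0 h1).mul_left _), tsum_mul_left,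
    tsum_geometric_of_lt_one h0 h1]

/-- dyadic decomposition of `1/t` near zero -/
theorem dyadic_inv (t : ℝ) (ht : 0 ≤ t) (n0 : ℕ) :
    (if t < 1 / 2 ^ n0 then ENNReal.ofReal (1 / t) else 0) ≤
      ∑' n : ℕ, (if n0 ≤ n then ENNReal.ofReal (2 ^ (n + 1)) else 0) *
        (if t < 1 / 2 ^ n then 1 else 0) := by
  split_ifs with h
  · rcases ht.eq_or_lt with h0 | h0
    · rw [← h0]; simp
    · classical
      have hex : ∃ n : ℕ, 1 / 2 ^ (n + 1) ≤ t := by
        obtain ⟨n, hn⟩ := exists_pow_lt_of_lt_one h0 (by norm_num : (1 / 2 : ℝ) < 1)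
        refine ⟨n, ?_⟩
        rw [div_pow, one_pow] at hn
        refine le_trans ?_ hn.le
        apply one_div_le_one_div_of_le (by positivity)
        exact pow_le_pow_right₀ (by norm_num) (Nat.le_succ n)
      set n := Nat.find hex with hn
      have h1 : 1 / 2 ^ (n + 1) ≤ t := Nat.find_spec hex
      have h2 : n0 ≤ n := by
        by_contra h3
        push Not at h3
        have h4 : (1 : ℝ) / 2 ^ n0 ≤ 1 / 2 ^ (n + 1) := by
          apply one_div_le_one_div_of_le (by positivity)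
          exact pow_le_pow_right₀ (by norm_num) h3
        linarith
      have h3 : t < 1 / 2 ^ n := by
        rcases Nat.eq_zero_or_pos n with h4 | h4
        · have h5 : n0 = 0 := by omega
          rw [h4]; rw [h5] at h; exact h
        · obtain ⟨l, hl⟩ := Nat.exists_eq_succ_of_ne_zero h4.ne'
          have h5 : l < Nat.find hex := by rw [← hn, hl]; exact Nat.lt_succ_self l
          have h6 := Nat.find_min hex h5
          push Not at h6
          rw [hl]
          exact h6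
      refine le_trans ?_ (ENNReal.le_tsum n)
      rw [if_pos h2, if_pos h3, mul_one]
      apply ENNReal.ofReal_le_ofReal
      rw [div_le_iff₀ h0]
      rw [div_le_iff₀ (by positivity)] at h1
      linarith
  · exact zero_le

/-- a constant -/
def CC (k : ℕ) (b : ℝ) : ℝ := 32 * K1 k * (1 - b / 8)⁻¹ * (1 - 2 / b)⁻¹

/-- The short range estimate. -/
theorem short (k : ℕ) (hk : 0 < k) {i j : Fin N} (hij : j ≠ i) (v : HS (Fin N × Fin 3))
    (b : ℝ) (hb2 : 2 < b) (hb : b < 8) {m1 n0 : ℕ} (h : m1 ≤ n0) :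
    ∫⁻ x, (if ‖pt x i - pt x j‖ < 1 / 2 ^ n0 then ENNReal.ofReal (1 / ‖pt x i - pt x j‖) else 0) *
        ‖v x‖ₑ ^ 2 ≤
      ENNReal.ofReal (16 / 3 * KK k * 8 ^ m1 / 4 ^ n0) * ‖v‖ₑ ^ 2 +
      ENNReal.ofReal (CC k b * (2 / b) ^ n0) *
        ∑' m, (if m1 ≤ m then ENNReal.ofReal (b ^ m) * ‖v - PP k m i v‖ₑ ^ 2 else 0) := by
  have hb0 : 0 < b := by linarith
  have hK1 := K1_pos k
  have hKK := KK_pos k
  have hb8 : 0 < (1 - b / 8)⁻¹ := inv_pos.2 (by linarith)
  have hb2' : 2 / b < 1 := by rw [div_lt_one hb0]; exact hb2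
  set Sm : ℝ≥0∞ := ∑' m, (if m1 ≤ m then ENNReal.ofReal (b ^ m) * ‖v - PP k m i v‖ₑ ^ 2 else 0)
    with hSm
  -- one radius
  have hone : ∀ n, n0 ≤ n → ‖gP i j (1 / 2 ^ n) v‖ₑ ^ 2 ≤
      ENNReal.ofReal (2 * KK k * 8 ^ m1 / 8 ^ n) * ‖v‖ₑ ^ 2 +
      ENNReal.ofReal (16 * K1 k * (1 - b / 8)⁻¹ / b ^ n) * Sm := by
    intro n hn
    have h1 := pair_bound k hk hij v b hb0 hb (h.trans hn)
    have h2 := ENNReal.ofReal_le_ofReal h1
    rw [enorm_sq_ofReal'] at h2
    refine h2.trans ?_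
    rw [ENNReal.ofReal_add (by positivity) (by positivity)]
    refine add_le_add (le_of_eq ?_) ?_
    · rw [← enorm_sq_ofReal', ← ENNReal.ofReal_mul (by positivity)]
      congr 1; ring
    · have e1 : 2 * (8 * K1 k * (1 - b / 8)⁻¹ / b ^ n *
          ∑ m ∈ Finset.Icc m1 n, b ^ m * ‖v - PP k m i v‖ ^ 2) =
          (16 * K1 k * (1 - b / 8)⁻¹ / b ^ n) *
          ∑ m ∈ Finset.Icc m1 n, b ^ m * ‖v - PP k m i v‖ ^ 2 := by ring
      rw [e1, ENNReal.ofReal_mul (by positivity),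
        ENNReal.ofReal_sum_of_nonneg (fun m _ => by positivity)]
      gcongr
      refine le_trans (le_of_eq ?_) (ENNReal.sum_le_tsum (Finset.Icc m1 n))
      refine Finset.sum_congr rfl fun m hm => ?_
      rw [Finset.mem_Icc] at hm
      rw [if_pos hm.1, ENNReal.ofReal_mul (by positivity), enorm_sq_ofReal']
  have hms : ∀ n : ℕ, Measurable fun x : Fin N × Fin 3 → ℝ =>
      (if ‖pt x i - pt x j‖ < 1 / 2 ^ n then (1 : ℝ≥0∞) else 0) := fun n =>
    Measurable.ite (meas_pset i j _) measurable_const measurable_const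
  calc _ ≤ ∫⁻ x, (∑' n : ℕ, (if n0 ≤ n then ENNReal.ofReal (2 ^ (n + 1)) else 0) *
        (if ‖pt x i - pt x j‖ < 1 / 2 ^ n then 1 else 0)) * ‖v x‖ₑ ^ 2 := by
        refine lintegral_mono fun x => ?_
        gcongr
        exact dyadic_inv _ (norm_nonneg _) n0
    _ = ∑' n : ℕ, (if n0 ≤ n then ENNReal.ofReal (2 ^ (n + 1)) else 0) *
        ‖gP i j (1 / 2 ^ n) v‖ₑ ^ 2 := by
        simp_rw [← ENNReal.tsum_mul_right]
        rw [lintegral_tsum]
        · refine tsum_congr fun n => ?_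
          simp_rw [mul_assoc]
          have hmm : Measurable fun x : Fin N × Fin 3 → ℝ =>
              (if ‖pt x i - pt x j‖ < 1 / 2 ^ n then (1 : ℝ≥0∞) else 0) * ‖v x‖ₑ ^ 2 :=
            (hms n).mul ((meas_coe v).enorm.pow_const 2)
          rw [lintegral_const_mul _ hmm]
          congr 1
          unfold gP
          rw [ind_sq]
          unfold wn
          refine lintegral_congr fun x => ?_
          congr 1
        · intro n
          exact (((hms n).const_mul _).mul ((meas_coe v).enorm.pow_const 2)).aemeasurable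
    _ ≤ ∑' n : ℕ, ((if n0 ≤ n then ENNReal.ofReal (4 * KK k * 8 ^ m1 * (1 / 4) ^ n) else 0) *
        ‖v‖ₑ ^ 2 + (if n0 ≤ n then
          ENNReal.ofReal (32 * K1 k * (1 - b / 8)⁻¹ * (2 / b) ^ n) else 0) * Sm) := by
        refine ENNReal.tsum_le_tsum fun n => ?_
        split_ifs with hn
        · refine (mul_le_mul_right (hone n hn) _).trans (le_of_eq ?_)
          rw [mul_add, ← mul_assoc, ← mul_assoc, ← ENNReal.ofReal_mul (by positivity),
            ← ENNReal.ofReal_mul (by positivity)]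
          congr 3
          · rw [pow_succ, div_pow, one_pow]
            have h8 : (8 : ℝ) ^ n = 2 ^ n * 4 ^ n := by rw [← mul_pow]; norm_num
            rw [h8]
            field_simp
            ring
          · rw [pow_succ, div_pow]
            field_simp
            ring
        · simp
    _ = _ := by
        rw [ENNReal.tsum_add, ENNReal.tsum_mul_right, ENNReal.tsum_mul_right,
          geoE (1 / 4) _ (by norm_num) (by norm_num) (by positivity),
          geoE (2 / b) _ (by positivity) hb2' (by positivity)]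
        congr 3
        · rw [div_pow, one_pow]
          field_simp
          norm_num
        · unfold CC
          ring

end Pool.Agent.T6.H42
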