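import Pool.Agent.T6.H42.Four1
import Pool.Agent.T6.H42.StepC1

set_option autoImplicit false
set_option linter.unusedSectionVars false

noncomputable section

namespace Pool.Agent.T6.H42

open MeasureTheory Function Filter Topology Set
open scoped ENNReal Polynomial

variable {ι : Type} [DecidableEq ι] [Fintype ι]

theorem dker_le (k m : ℕ) (s t : ℝ) :
    ‖(dker k m s t : ℂ)‖ ≤ (Ico ((cel m s : ℝ) / 2 ^ m) (((cel m s : ℝ) + 1) / 2 ^ m)).indicator
      (fun _ => kap k * 2 ^ m) t := by
  classical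
  have h := (dker_isKer k m).bound s t
  rw [Complex.norm_real, Real.norm_eq_abs, Set.indicator_apply]
  refine h.trans (le_of_eq ?_)
  simp only [← cel_eq_iff]

theorem dker_int (k m : ℕ) (s : ℝ) (g : ℝ → ℂ) (hg : Continuous g) :
    Integrable fun t => (dker k m s t : ℂ) * g t := by
  set I := Ico ((cel m s : ℝ) / 2 ^ m) (((cel m s : ℝ) + 1) / 2 ^ m) with hI
  have hκ := kap_pos k
  have h1 : Integrable (I.indicator fun t => kap k * 2 ^ m * ‖g t‖) := by
    rw [integrable_indicator_iff measurableSet_Ico]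
    exact ((hg.norm.const_mul (kap k * 2 ^ m)).integrableOn_Icc).mono_set Ico_subset_Icc_self
  refine h1.mono' ?_ (Eventually.of_forall fun t => ?_)
  · refine (Measurable.mul ?_ hg.measurable).aestronglyMeasurable
    exact Complex.measurable_ofReal.comp ((dker_isKer k m).meas.comp measurable_prodMk_left)
  · rw [norm_mul]
    have h2 := dker_le k m s t
    by_cases ht : t ∈ I
    · rw [Set.indicator_of_mem ht] at h2 ⊢
      gcongr
    · rw [Set.indicator_of_notMem ht] at h2 ⊢
      have : ‖(dker k m s t : ℂ)‖ = 0 := le_antisymm h2 (norm_nonneg _)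
      rw [this, zero_mul]

theorem dker_bd (k m : ℕ) (s : ℝ) (g : ℝ → ℂ) (B : ℝ)
    (hB : ∀ t, cel m s = cel m t → ‖g t‖ ≤ B) :
    ‖∫ t, (dker k m s t : ℂ) * g t‖ ≤ kap k * B := by
  set I := Ico ((cel m s : ℝ) / 2 ^ m) (((cel m s : ℝ) + 1) / 2 ^ m) with hI
  have hκ := kap_pos k
  have hint : Integrable (I.indicator fun _ => kap k * 2 ^ m * B) := by
    rw [integrable_indicator_iff measurableSet_Ico]
    exact integrableOn_const (by rw [Real.volume_Ico]; exact ENNReal.ofReal_ne_top)
  refine (norm_integral_le_of_norm_le hint (Eventually.of_forall fun t => ?_)).trans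
    (le_of_eq ?_)
  · rw [norm_mul]
    have h2 := dker_le k m s t
    by_cases ht : t ∈ I
    · rw [Set.indicator_of_mem ht] at h2 ⊢
      have h3 := hB t ((cel_eq_iff m s t).2 ht)
      gcongr
    · rw [Set.indicator_of_notMem ht] at h2 ⊢
      have : ‖(dker k m s t : ℂ)‖ = 0 := le_antisymm h2 (norm_nonneg _)
      rw [this, zero_mul]
  · rw [integral_indicator measurableSet_Ico, setIntegral_const, Measure.real,
      Real.volume_Ico, ← sub_div, add_sub_cancel_left, ENNReal.toReal_ofReal (by positivity),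
      smul_eq_mul]
    field_simp

/-- approximation by piecewise polynomials -/
theorem approx_pt (k m : ℕ) (c : ι) (F : ℕ → (ι → ℝ) → ℂ)
    (hd : ∀ j, j < k + 1 → ∀ x s, HasDerivAt (fun s => F j (update x c s))
      (F (j + 1) (update x c s)) s)
    (hc : ∀ x, Continuous fun s => F (k + 1) (update x c s)) (x : ι → ℝ) :
    ‖F 0 x - opF (dker (k + 1) m) c (F 0) x‖ₑ ^ 2 ≤
      ENNReal.ofReal ((1 + kap (k + 1)) ^ 2 * (1 / 4 ^ m) ^ (k + 1)) *
        avg m c (fun y => ‖F (k + 1) y‖ₑ ^ 2) x := by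
  set q := cel m (x c) with hq
  set a : ℝ := (q : ℝ) / 2 ^ m with ha
  set b : ℝ := ((q : ℝ) + 1) / 2 ^ m with hb
  have hba : b - a = 1 / 2 ^ m := by rw [ha, hb, ← sub_div, add_sub_cancel_left]
  have hab : a ≤ b := by
    have : 0 ≤ b - a := by rw [hba]; positivity
    linarith
  have hκ := kap_pos (k + 1)
  obtain ⟨T, hT, hTb⟩ := taylor_l2 k (fun j s => F j (update x c s)) (fun j hj s => hd j hj x s)
    (hc x) a b hab
  set I := ∫ t in a..b, ‖F (k + 1) (update x c t)‖ ^ 2 with hI
  have hI0 : 0 ≤ I := intervalIntegral.integral_nonneg hab fun _ _ => by positivity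
  set M := Real.sqrt ((b - a) ^ (2 * k + 1) * I) with hM
  have hM0 : 0 ≤ M := Real.sqrt_nonneg _
  have hM2 : M ^ 2 = (b - a) ^ (2 * k + 1) * I :=
    Real.sq_sqrt (mul_nonneg (pow_nonneg (by linarith) _) hI0)
  have hTM : ∀ s, cel m (x c) = cel m s → ‖F 0 (update x c s) - T.eval (s : ℂ)‖ ≤ M := by
    intro s hs
    have h1 := hTb s (Ico_subset_Icc_self ((cel_eq_iff m (x c) s).1 hs))
    rw [← hM2] at h1
    exact le_of_sq_le_sq h1 hM0
  have hcont0 : Continuous fun s => F 0 (update x c s) := by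
    rw [continuous_iff_continuousAt]
    intro t
    exact (hd 0 (by omega) x t).continuousAt
  have hTc : Continuous fun t : ℝ => T.eval (t : ℂ) :=
    (Polynomial.continuous T).comp Complex.continuous_ofReal
  have hop : F 0 x - opF (dker (k + 1) m) c (F 0) x = (F 0 (update x c (x c)) -
      T.eval ((x c : ℝ) : ℂ)) - ∫ t, (dker (k + 1) m (x c) t : ℂ) *
        (F 0 (update x c t) - T.eval (t : ℂ)) := by
    have h1 := dker_rep (k + 1) m (x c) T hT (fun t => T.eval (t : ℂ)) (fun t _ => rfl)
    have h2 : ∫ t, (dker (k + 1) m (x c) t : ℂ) * (F 0 (update x c t) - T.eval (t : ℂ)) =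
        opF (dker (k + 1) m) c (F 0) x - T.eval ((x c : ℝ) : ℂ) := by
      rw [← h1]
      unfold opF
      rw [← integral_sub (dker_int _ _ _ _ hcont0) (dker_int _ _ _ _ hTc)]
      refine integral_congr_ae (Eventually.of_forall fun t => ?_)
      simp only
      ring
    rw [h2, update_eq_self]
    ring
  have hnorm : ‖F 0 x - opF (dker (k + 1) m) c (F 0) x‖ ≤ (1 + kap (k + 1)) * M := by
    rw [hop]
    refine (norm_sub_le _ _).trans ?_
    have h1 := hTM (x c) rfl
    have h2 := dker_bd (k + 1) m (x c) _ M hTM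
    linarith
  have hsq : ‖F 0 x - opF (dker (k + 1) m) c (F 0) x‖ ^ 2 ≤
      (1 + kap (k + 1)) ^ 2 * (1 / 4 ^ m) ^ (k + 1) * (2 ^ m * I) := by
    calc _ ≤ ((1 + kap (k + 1)) * M) ^ 2 := by gcongr
      _ = _ := by
        rw [mul_pow, hM2, hba]
        have h4 : (4 : ℝ) ^ m = 2 ^ m * 2 ^ m := by rw [← mul_pow]; norm_num
        have h5 : (1 / (4 : ℝ) ^ m) ^ (k + 1) * 2 ^ m = (1 / 2 ^ m) ^ (2 * k + 1) := by
          rw [h4, div_pow, div_pow, one_pow, one_pow, mul_pow, ← pow_add,
            show k + 1 + (k + 1) = 2 * k + 1 + 1 from by ring, pow_succ ((2 : ℝ) ^ m) (2 * k + 1)]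
          field_simp
        rw [← h5]
        ring
  have havg : avg m c (fun y => ‖F (k + 1) y‖ₑ ^ 2) x = ENNReal.ofReal (2 ^ m * I) := by
    unfold avg
    have h1 : ∀ t, kbox m (x c) t * ‖F (k + 1) (update x c t)‖ₑ ^ 2 =
        (Ico a b).indicator (fun t => 2 ^ m * ‖F (k + 1) (update x c t)‖ₑ ^ 2) t := by
      intro t
      classical
      rw [Set.indicator_apply]
      unfold kbox
      simp only [cel_eq_iff]
      split_ifs <;> simp
    simp_rw [h1]
    rw [lintegral_indicator measurableSet_Ico, lintegral_const_mul]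
    · rw [ENNReal.ofReal_mul (by positivity), ENNReal.ofReal_pow (by norm_num),
        ENNReal.ofReal_ofNat, hI, intervalIntegral.integral_of_le hab,
        ← integral_Ico_eq_integral_Ioc, ofReal_integral_eq_lintegral_ofReal]
      · congr 1
        refine lintegral_congr fun t => ?_
        rw [ENNReal.ofReal_pow (norm_nonneg _), ofReal_norm]
      · exact (((hc x).norm.pow 2).integrableOn_Icc).mono_set Ico_subset_Icc_self
      · exact Eventually.of_forall fun t => by positivity
    · exact (hc x).measurable.enorm.pow_const 2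
  rw [havg, ← enorm_sq_ofReal', ← ENNReal.ofReal_mul (by positivity)]
  exact ENNReal.ofReal_le_ofReal hsq

end Pool.Agent.T6.H42
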