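import Pool.Agent.T6.H42.Four2

set_option autoImplicit false
set_option linter.unusedSectionVars false

noncomputable section

namespace Pool.Agent.T6.H42

open MeasureTheory Function Filter Topology Set
open scoped ENNReal FourierTransform SchwartzMap LineDeriv

variable {ι : Type} [DecidableEq ι] [Fintype ι]

/-- Euclidean space -/
abbrev EE (ι : Type) [Fintype ι] : Type := EuclideanSpace ℝ ι

/-- `L²` of the Euclidean space -/
abbrev LE (ι : Type) [Fintype ι] : Type := Lp ℂ 2 (volume : Measure (EE ι))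

/-- `L²(EuclideanSpace)` seen in `L²(ℝ^ι)`. -/
def toPi : LE ι →ₗᵢ[ℂ] HS ι :=
  Lp.compMeasurePreservingₗᵢ ℂ (WithLp.toLp 2) (PiLp.volume_preserving_toLp ι)

theorem toPi_coe (ψ : LE ι) : (toPi ψ : (ι → ℝ) → ℂ) =ᵐ[volume] fun x => ψ (WithLp.toLp 2 x) :=
  Lp.coeFn_compMeasurePreserving ψ (PiLp.volume_preserving_toLp ι)

theorem lintE (ψ : LE ι) : ∫⁻ x, ‖ψ x‖ₑ ^ 2 = ‖ψ‖ₑ ^ 2 := by
  have h1 : ‖ψ‖ₑ = eLpNorm ψ 2 volume := Lp.enorm_def ψ
  rw [h1, eLpNorm_eq_lintegral_rpow_enorm_toReal (by norm_num) (by norm_num),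
    ← ENNReal.rpow_natCast, ← ENNReal.rpow_mul]
  simp

theorem lint_schwartz (f : 𝓢(EE ι, ℂ)) : ‖(f.toLp 2 volume : LE ι)‖ₑ ^ 2 = ∫⁻ x, ‖f x‖ₑ ^ 2 := by
  rw [← lintE]
  refine lintegral_congr_ae ?_
  filter_upwards [f.coeFn_toLp 2 volume] with x hx
  rw [hx]

theorem plancherel (f : 𝓢(EE ι, ℂ)) : ∫⁻ x, ‖f x‖ₑ ^ 2 = ∫⁻ x, ‖𝓕 f x‖ₑ ^ 2 := by
  rw [← lint_schwartz, ← lint_schwartz, ← SchwartzMap.toLp_fourier_eq]
  congr 1
  have h := Lp.norm_fourier_eq (f.toLp 2 volume : LE ι)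
  rw [← ofReal_norm, ← ofReal_norm, h]

/-- the derivative in the coordinate `c` -/
def Dk (c : ι) (j : ℕ) (f : 𝓢(EE ι, ℂ)) : 𝓢(EE ι, ℂ) :=
  (fun g : 𝓢(EE ι, ℂ) => (∂_{(EuclideanSpace.single c (1 : ℝ))} g : 𝓢(EE ι, ℂ)))^[j] f

theorem Dk_zero (c : ι) (f : 𝓢(EE ι, ℂ)) : Dk c 0 f = f := rfl

theorem Dk_succ (c : ι) (j : ℕ) (f : 𝓢(EE ι, ℂ)) :
    Dk c (j + 1) f = ∂_{(EuclideanSpace.single c (1 : ℝ))} (Dk c j f) := by
  unfold Dk
  rw [Function.iterate_succ_apply']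

theorem toLp_update (x : ι → ℝ) (c : ι) (s : ℝ) : (WithLp.toLp 2 (update x c s) : EE ι) =
    WithLp.toLp 2 x + (s - x c) • EuclideanSpace.single c (1 : ℝ) := by
  ext i
  by_cases h : i = c
  · subst h; simp
  · simp [h]

theorem Dk_deriv (c : ι) (j : ℕ) (f : 𝓢(EE ι, ℂ)) (x : ι → ℝ) (s : ℝ) :
    HasDerivAt (fun s => Dk c j f (WithLp.toLp 2 (update x c s)))
      (Dk c (j + 1) f (WithLp.toLp 2 (update x c s))) s := by
  have h1 : HasDerivAt (fun s : ℝ => (WithLp.toLp 2 (update x c s) : EE ι))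
      (EuclideanSpace.single c (1 : ℝ)) s := by
    simp_rw [toLp_update x c]
    have h2 : HasDerivAt (fun s : ℝ => s - x c) 1 s := (hasDerivAt_id s).sub_const _
    have h3 := (h2.smul_const (EuclideanSpace.single c (1 : ℝ) : EE ι)).const_add
      (WithLp.toLp 2 x : EE ι)
    simpa using h3
  have h4 := ((Dk c j f).hasFDerivAt (WithLp.toLp 2 (update x c s))).comp_hasDerivAt s h1
  rw [Dk_succ, SchwartzMap.lineDerivOp_apply_eq_fderiv]
  exact h4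

theorem Dk_fourier (c : ι) (j : ℕ) (f : 𝓢(EE ι, ℂ)) (ξ : EE ι) :
    𝓕 (Dk c j f) ξ = (2 * Real.pi * Complex.I * (ξ c : ℂ)) ^ j * 𝓕 f ξ := by
  induction j with
  | zero => simp [Dk_zero]
  | succ j ih =>
    rw [Dk_succ, SchwartzMap.fourier_lineDerivOp_eq, smul_apply,
      SchwartzMap.smulLeftCLM_apply_apply (by fun_prop), ih]
    have h1 : inner ℝ ξ (EuclideanSpace.single c (1 : ℝ)) = ξ c := by
      rw [EuclideanSpace.inner_single_right]
      simp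
    rw [h1, pow_succ, smul_eq_mul, Complex.real_smul]
    ring

theorem schwartz_approx (k m : ℕ) (c : ι) (f : 𝓢(EE ι, ℂ)) :
    ‖toPi (f.toLp 2 volume : LE ι) - PC (k + 1) m c (toPi (f.toLp 2 volume : LE ι))‖ₑ ^ 2 ≤
      ENNReal.ofReal ((1 + kap (k + 1)) ^ 2 * (1 / 4 ^ m) ^ (k + 1)) *
        ∫⁻ ξ : EE ι, ‖((2 * Real.pi * Complex.I * (ξ c : ℂ)) ^ (k + 1) * 𝓕 f ξ : ℂ)‖ₑ ^ 2 := by
  set φ := toPi (f.toLp 2 volume : LE ι) with hφ
  set F : ℕ → (ι → ℝ) → ℂ := fun j x => Dk c j f (WithLp.toLp 2 x) with hF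
  have hmF : ∀ j, Measurable (F j) := fun j =>
    (Dk c j f).continuous.measurable.comp (PiLp.continuous_toLp 2 _).measurable
  have h0 : (φ : (ι → ℝ) → ℂ) =ᵐ[volume] F 0 := by
    have h1 := toPi_coe (f.toLp 2 volume : LE ι)
    have h2 : ∀ᵐ x : ι → ℝ, (f.toLp 2 volume : LE ι) (WithLp.toLp 2 x) = f (WithLp.toLp 2 x) :=
      (PiLp.volume_preserving_toLp ι).quasiMeasurePreserving.ae (f.coeFn_toLp 2 volume)
    filter_upwards [h1, h2] with x e1 e2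
    rw [e1, e2]
    rfl
  have h1 : ‖φ - PC (k + 1) m c φ‖ₑ ^ 2 = ∫⁻ x, ‖F 0 x - opF (dker (k + 1) m) c (F 0) x‖ₑ ^ 2 := by
    rw [← lint_sq]
    refine lintegral_congr_ae ?_
    filter_upwards [Lp.coeFn_sub φ (PC (k + 1) m c φ), op_coe (dker_isKer (k + 1) m) c φ,
      opF_congr (k := dker (k + 1) m) c h0, h0] with x e1 e2 e3 e4
    rw [e1, Pi.sub_apply, e4]
    unfold PC
    rw [e2, e3]
  have hd : ∀ j, j < k + 1 → ∀ (x : ι → ℝ) (s : ℝ), HasDerivAt (fun s => F j (update x c s))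
      (F (j + 1) (update x c s)) s := fun j _ x s => Dk_deriv c j f x s
  have hc : ∀ x : ι → ℝ, Continuous fun s => F (k + 1) (update x c s) := by
    intro x
    rw [continuous_iff_continuousAt]
    intro t
    exact (Dk_deriv c (k + 1) f x t).continuousAt
  rw [h1]
  calc _ ≤ ∫⁻ x, ENNReal.ofReal ((1 + kap (k + 1)) ^ 2 * (1 / 4 ^ m) ^ (k + 1)) *
        avg m c (fun y => ‖F (k + 1) y‖ₑ ^ 2) x :=
        lintegral_mono fun x => approx_pt k m c F hd hc x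
    _ = ENNReal.ofReal ((1 + kap (k + 1)) ^ 2 * (1 / 4 ^ m) ^ (k + 1)) *
        ∫⁻ x, ‖F (k + 1) x‖ₑ ^ 2 := by
        have hm2 : Measurable fun y => ‖F (k + 1) y‖ₑ ^ 2 := (hmF (k + 1)).enorm.pow_const 2
        rw [lintegral_const_mul _ (meas_avg m c hm2), avg_int m c hm2]
    _ = _ := by
        congr 1
        have h2 : ∫⁻ x, ‖F (k + 1) x‖ₑ ^ 2 = ∫⁻ y : EE ι, ‖Dk c (k + 1) f y‖ₑ ^ 2 := by
          have h3 := (PiLp.volume_preserving_toLp ι).lintegral_comp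
            (f := fun y : EE ι => ‖Dk c (k + 1) f y‖ₑ ^ 2)
            ((Dk c (k + 1) f).continuous.measurable.enorm.pow_const 2)
          exact h3
        rw [h2, plancherel]
        refine lintegral_congr fun ξ => ?_
        rw [Dk_fourier]

end Pool.Agent.T6.H42
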