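import Pool.Agent.T6.H42.Four3

set_option autoImplicit false
set_option linter.unusedSectionVars false

noncomputable section

namespace Pool.Agent.T6.H42

open MeasureTheory Function Filter Topology Set
open scoped ENNReal FourierTransform SchwartzMap LineDeriv

variable {ι : Type} [DecidableEq ι] [Fintype ι]

/-- the weight `min 1 t^{2(k+1)}` -/
def w0 (k : ℕ) (t : ℝ) : ℝ := min 1 (t ^ (2 * (k + 1)))

theorem w0_nonneg (k : ℕ) (t : ℝ) : 0 ≤ w0 k t := by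
  unfold w0
  refine le_min zero_le_one ?_
  rw [pow_mul]
  positivity

theorem w0_le (k : ℕ) (t : ℝ) : w0 k t ≤ 1 := min_le_left _ _

theorem w0_cont (k : ℕ) : Continuous (w0 k) := by
  unfold w0
  fun_prop

/-- the smooth cut-off -/
def chi : ContDiffBump (0 : ℝ) := ⟨1, 2, by norm_num, by norm_num⟩

/-- the cut-off in the coordinate `c` -/
def cutF (m : ℕ) (c : ι) (ξ : EE ι) : ℂ :=
  ((chi ((1 / 2 ^ m) * inner ℝ ξ (EuclideanSpace.single c (1 : ℝ))) : ℝ) : ℂ)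

theorem cutF_growth (m : ℕ) (c : ι) : (cutF m c).HasTemperateGrowth := by
  have h1 : Function.HasTemperateGrowth fun t : ℝ => ((chi t : ℝ) : ℂ) := by
    refine HasCompactSupport.hasTemperateGrowth ?_ ?_
    · exact chi.hasCompactSupport.comp_left (g := fun x : ℝ => (x : ℂ)) (by simp)
    · exact Complex.ofRealCLM.contDiff.comp chi.contDiff
  have h2 : Function.HasTemperateGrowth fun ξ : EE ι =>
      (1 / 2 ^ m : ℝ) * inner ℝ ξ (EuclideanSpace.single c (1 : ℝ)) := by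
    fun_prop
  exact h1.comp h2

theorem cutF_eq (m : ℕ) (c : ι) (ξ : EE ι) : cutF m c ξ = ((chi (ξ c / 2 ^ m) : ℝ) : ℂ) := by
  unfold cutF
  congr 2
  rw [EuclideanSpace.inner_single_right]
  simp
  ring

theorem chi_one {t : ℝ} (h : |t| ≤ 1) : chi t = 1 :=
  chi.one_of_mem_closedBall (by
    rw [mem_closedBall_zero_iff, Real.norm_eq_abs]; exact h)

theorem chi_zero {t : ℝ} (h : 2 ≤ |t|) : chi t = 0 :=
  chi.zero_of_le_dist (by rw [dist_zero_right, Real.norm_eq_abs]; exact h)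

theorem chi_low (k : ℕ) (t : ℝ) : chi t ^ 2 * t ^ (2 * (k + 1)) ≤ 4 ^ (k + 1) * w0 k t := by
  have h0 := chi.nonneg (x := t)
  have h1 := chi.le_one (x := t)
  have ht0 : 0 ≤ t ^ (2 * (k + 1)) := by rw [pow_mul]; positivity
  by_cases ht : 2 ≤ |t|
  · rw [chi_zero ht]
    simp only [ne_eq, OfNat.ofNat_ne_zero, not_false_eq_true, zero_pow, zero_mul]
    exact mul_nonneg (by positivity) (w0_nonneg k t)
  · push Not at ht
    have h2 : t ^ (2 * (k + 1)) ≤ 4 ^ (k + 1) := by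
      rw [pow_mul]
      gcongr
      rw [← sq_abs]
      nlinarith [abs_nonneg t]
    have h3 : chi t ^ 2 * t ^ (2 * (k + 1)) ≤ t ^ (2 * (k + 1)) := by
      have : chi t ^ 2 ≤ 1 := by nlinarith
      nlinarith
    have h4 : (1 : ℝ) ≤ 4 ^ (k + 1) := one_le_pow₀ (by norm_num)
    unfold w0
    rcases le_total 1 (t ^ (2 * (k + 1))) with h | h
    · rw [min_eq_left h, mul_one]
      linarith
    · rw [min_eq_right h]
      nlinarith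

theorem chi_high (k : ℕ) (t : ℝ) : (1 - chi t) ^ 2 ≤ w0 k t := by
  have h0 := chi.nonneg (x := t)
  have h1 := chi.le_one (x := t)
  by_cases ht : |t| ≤ 1
  · rw [chi_one ht]
    simp [w0_nonneg]
  · push Not at ht
    have h2 : 1 ≤ t ^ (2 * (k + 1)) := by
      rw [pow_mul, ← sq_abs]
      exact one_le_pow₀ (by nlinarith)
    unfold w0
    rw [min_eq_left h2]
    nlinarith

/-- the constant for Schwartz functions -/
def C5 (k : ℕ) : ℝ := 2 * (1 + kap (k + 1)) ^ 2 * (2 * Real.pi) ^ (2 * (k + 1)) * 4 ^ (k + 1) + 8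

theorem C5_pos (k : ℕ) : 0 < C5 k := by
  have := kap_pos (k + 1)
  have := Real.pi_pos
  unfold C5; positivity

theorem enorm_sq_add_le {H : Type*} [NormedAddCommGroup H] (a b : H) :
    ‖a + b‖ₑ ^ 2 ≤ 2 * ‖a‖ₑ ^ 2 + 2 * ‖b‖ₑ ^ 2 := by
  have h1 : ‖a + b‖ₑ ^ 2 ≤ (‖a‖ₑ + ‖b‖ₑ) ^ 2 := by gcongr; exact enorm_add_le a b
  refine h1.trans ?_
  have h2 := ENNReal.rpow_add_le_mul_rpow_add_rpow ‖a‖ₑ ‖b‖ₑ (p := 2) (by norm_num)
  have h3 : (2 : ℝ≥0∞) ^ ((2 : ℝ) - 1) = 2 := by norm_num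
  rw [h3] at h2
  simp only [ENNReal.rpow_ofNat] at h2
  rw [← mul_add]
  exact h2

theorem PC_enorm_le (k : ℕ) (hk : 0 < k) (m : ℕ) (c : ι) (φ : HS ι) :
    ‖PC k m c φ‖ₑ ≤ ‖φ‖ₑ := by
  have h1 : ‖PC k m c φ‖ ≤ ‖φ‖ :=
    proj_norm_le (PC_adj k m c) (fun φ => PC_comp k hk (le_refl m) c φ) φ
  rw [← ofReal_norm, ← ofReal_norm]
  exact ENNReal.ofReal_le_ofReal h1

theorem QC_enorm_le (k : ℕ) (hk : 0 < k) (m : ℕ) (c : ι) (φ : HS ι) :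
    ‖φ - PC k m c φ‖ₑ ^ 2 ≤ 4 * ‖φ‖ₑ ^ 2 := by
  have h1 : ‖φ - PC k m c φ‖ₑ ≤ 2 * ‖φ‖ₑ := by
    refine enorm_sub_le.trans ?_
    rw [two_mul]
    gcongr
    exact PC_enorm_le k hk m c φ
  calc _ ≤ (2 * ‖φ‖ₑ) ^ 2 := by gcongr
    _ = _ := by rw [mul_pow]; norm_num

theorem toPi_enorm (ψ : LE ι) : ‖toPi ψ‖ₑ = ‖ψ‖ₑ := by
  rw [← ofReal_norm, ← ofReal_norm, LinearIsometry.norm_map]

theorem schwartz_w (k m : ℕ) (c : ι) (f : 𝓢(EE ι, ℂ)) :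
    ‖toPi (f.toLp 2 volume : LE ι) - PC (k + 1) m c (toPi (f.toLp 2 volume : LE ι))‖ₑ ^ 2 ≤
      ENNReal.ofReal (C5 k) * ∫⁻ ξ : EE ι, ENNReal.ofReal (w0 k (ξ c / 2 ^ m)) * ‖𝓕 f ξ‖ₑ ^ 2 := by
  set f1 : 𝓢(EE ι, ℂ) := 𝓕⁻ (SchwartzMap.smulLeftCLM ℂ (cutF m c) (𝓕 f)) with hf1
  have e1 : ∀ ξ, 𝓕 f1 ξ = cutF m c ξ * 𝓕 f ξ := by
    intro ξ
    rw [hf1, FourierTransform.fourier_fourierInv_eq,
      SchwartzMap.smulLeftCLM_apply_apply (cutF_growth m c), smul_eq_mul]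
  set f2 : 𝓢(EE ι, ℂ) := f - f1 with hf2
  have hsum : f = f1 + f2 := by rw [hf2]; abel
  have e2 : ∀ ξ, 𝓕 f2 ξ = (1 - cutF m c ξ) * 𝓕 f ξ := by
    intro ξ
    have h : 𝓕 f = 𝓕 f1 + 𝓕 f2 := by
      conv_lhs => rw [hsum]
      exact FourierAdd.fourier_add f1 f2
    have h' : 𝓕 f ξ = 𝓕 f1 ξ + 𝓕 f2 ξ := by
      conv_lhs => rw [h]
      rfl
    rw [e1] at h'
    linear_combination -h'
  have hL : toPi (f.toLp 2 volume : LE ι) =
      toPi (f1.toLp 2 volume : LE ι) + toPi (f2.toLp 2 volume : LE ι) := by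
    rw [← map_add]
    congr 1
    have h : (SchwartzMap.toLpCLM ℝ ℂ 2 (volume : Measure (EE ι))) f =
        SchwartzMap.toLpCLM ℝ ℂ 2 volume f1 + SchwartzMap.toLpCLM ℝ ℂ 2 volume f2 := by
      rw [← map_add, ← hsum]
    simpa only [SchwartzMap.toLpCLM_apply] using h
  set φ1 := toPi (f1.toLp 2 volume : LE ι) with hφ1
  set φ2 := toPi (f2.toLp 2 volume : LE ι) with hφ2
  have hκ := kap_pos (k + 1)
  have hπ := Real.pi_pos
  have hQ : ‖(φ1 + φ2) - PC (k + 1) m c (φ1 + φ2)‖ₑ ^ 2 ≤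
      2 * ‖φ1 - PC (k + 1) m c φ1‖ₑ ^ 2 + 2 * ‖φ2 - PC (k + 1) m c φ2‖ₑ ^ 2 := by
    have : (φ1 + φ2) - PC (k + 1) m c (φ1 + φ2) =
        (φ1 - PC (k + 1) m c φ1) + (φ2 - PC (k + 1) m c φ2) := by
      rw [map_add]; abel
    rw [this]
    exact enorm_sq_add_le _ _
  have h1 := schwartz_approx k m c f1
  have h2 : ‖φ2 - PC (k + 1) m c φ2‖ₑ ^ 2 ≤ 4 * ∫⁻ ξ : EE ι, ‖𝓕 f2 ξ‖ₑ ^ 2 := by
    refine (QC_enorm_le (k + 1) (Nat.succ_pos k) m c φ2).trans ?_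
    rw [hφ2, toPi_enorm, lint_schwartz, plancherel]
  set I := ∫⁻ ξ : EE ι, ENNReal.ofReal (w0 k (ξ c / 2 ^ m)) * ‖𝓕 f ξ‖ₑ ^ 2 with hI
  have h3 : ∫⁻ ξ : EE ι, ‖𝓕 f2 ξ‖ₑ ^ 2 ≤ I := by
    refine lintegral_mono fun ξ => ?_
    rw [e2, enorm_mul, mul_pow]
    gcongr
    have : ‖(1 - cutF m c ξ : ℂ)‖ₑ ^ 2 = ENNReal.ofReal ((1 - chi (ξ c / 2 ^ m)) ^ 2) := by
      rw [cutF_eq, ← Complex.ofReal_one, ← Complex.ofReal_sub, ← ofReal_norm,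
        ← ENNReal.ofReal_pow (norm_nonneg _), Complex.norm_real, Real.norm_eq_abs, sq_abs]
    rw [this]
    exact ENNReal.ofReal_le_ofReal (chi_high k _)
  have h4 : ENNReal.ofReal ((1 + kap (k + 1)) ^ 2 * (1 / 4 ^ m) ^ (k + 1)) *
      ∫⁻ ξ : EE ι, ‖((2 * Real.pi * Complex.I * (ξ c : ℂ)) ^ (k + 1) * 𝓕 f1 ξ : ℂ)‖ₑ ^ 2 ≤
      ENNReal.ofReal ((1 + kap (k + 1)) ^ 2 * (2 * Real.pi) ^ (2 * (k + 1)) * 4 ^ (k + 1)) * I := by
    rw [← lintegral_const_mul' _ _ ENNReal.ofReal_ne_top, hI,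
      ← lintegral_const_mul' _ _ ENNReal.ofReal_ne_top]
    refine lintegral_mono fun ξ => ?_
    rw [e1, ← mul_assoc, enorm_mul, mul_pow, ← mul_assoc, ← mul_assoc,
      ← ENNReal.ofReal_mul (by positivity)]
    gcongr
    have : ‖((2 * Real.pi * Complex.I * (ξ c : ℂ)) ^ (k + 1) * cutF m c ξ : ℂ)‖ₑ ^ 2 =
        ENNReal.ofReal ((2 * Real.pi * |ξ c|) ^ (2 * (k + 1)) * chi (ξ c / 2 ^ m) ^ 2) := by
      rw [cutF_eq, ← ofReal_norm, ← ENNReal.ofReal_pow (norm_nonneg _)]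
      congr 1
      rw [norm_mul, norm_pow, norm_mul, norm_mul, norm_mul, Complex.norm_I, Complex.norm_real,
        Complex.norm_real, Complex.norm_real, Complex.norm_ofNat, Real.norm_eq_abs, Real.norm_eq_abs,
        Real.norm_eq_abs, abs_of_pos hπ, mul_one, mul_pow, sq_abs, ← pow_mul, mul_comm (k + 1) 2]
    rw [this, ← ENNReal.ofReal_mul (by positivity)]
    apply ENNReal.ofReal_le_ofReal
    have h5 := chi_low k (ξ c / 2 ^ m)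
    have h6 : (1 / 4 ^ m : ℝ) ^ (k + 1) * (2 * Real.pi * |ξ c|) ^ (2 * (k + 1)) =
        (2 * Real.pi) ^ (2 * (k + 1)) * (ξ c / 2 ^ m) ^ (2 * (k + 1)) := by
      have e : (4 : ℝ) ^ m = (2 ^ m) ^ 2 := by rw [← pow_mul, mul_comm m 2, pow_mul]; norm_num
      rw [mul_pow, pow_mul |ξ c|, sq_abs, pow_mul (ξ c / 2 ^ m), div_pow (ξ c), e,
        div_pow (ξ c ^ 2), div_pow 1, one_pow]
      ring
    calc (1 + kap (k + 1)) ^ 2 * (1 / 4 ^ m) ^ (k + 1) *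
          ((2 * Real.pi * |ξ c|) ^ (2 * (k + 1)) * chi (ξ c / 2 ^ m) ^ 2)
        = (1 + kap (k + 1)) ^ 2 * chi (ξ c / 2 ^ m) ^ 2 *
          ((1 / 4 ^ m) ^ (k + 1) * (2 * Real.pi * |ξ c|) ^ (2 * (k + 1))) := by ring
      _ = (1 + kap (k + 1)) ^ 2 * (2 * Real.pi) ^ (2 * (k + 1)) *
          (chi (ξ c / 2 ^ m) ^ 2 * (ξ c / 2 ^ m) ^ (2 * (k + 1))) := by rw [h6]; ring
      _ ≤ (1 + kap (k + 1)) ^ 2 * (2 * Real.pi) ^ (2 * (k + 1)) *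
          (4 ^ (k + 1) * w0 k (ξ c / 2 ^ m)) := by gcongr
      _ = _ := by ring
  rw [hL]
  refine hQ.trans ?_
  have h7 : ENNReal.ofReal (C5 k) = 2 * ENNReal.ofReal ((1 + kap (k + 1)) ^ 2 *
      (2 * Real.pi) ^ (2 * (k + 1)) * 4 ^ (k + 1)) + 2 * 4 := by
    unfold C5
    have e1 : 2 * (1 + kap (k + 1)) ^ 2 * (2 * Real.pi) ^ (2 * (k + 1)) * 4 ^ (k + 1) =
        2 * ((1 + kap (k + 1)) ^ 2 * (2 * Real.pi) ^ (2 * (k + 1)) * 4 ^ (k + 1)) := by ring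
    rw [ENNReal.ofReal_add (by positivity) (by norm_num), e1, ENNReal.ofReal_mul (by norm_num)]
    norm_num
  rw [h7, add_mul, mul_assoc 2 (ENNReal.ofReal _) I, mul_assoc 2 4 I]
  exact add_le_add (mul_le_mul_right (h1.trans h4) _)
    (mul_le_mul_right (h2.trans (mul_le_mul_right h3 _)) _)

end Pool.Agent.T6.H42
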