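import Pool.Agent.T6.H42.Four4

set_option autoImplicit false
set_option linter.unusedSectionVars false

noncomputable section

namespace Pool.Agent.T6.H42

open MeasureTheory Function Filter Topology Set
open scoped ENNReal FourierTransform SchwartzMap LineDeriv

variable {ι : Type} [DecidableEq ι] [Fintype ι]

/-- the weighted square of the norm with the weight `w0 (ξ_c / 2^m)` -/
def WF (k m : ℕ) (c : ι) (g : LE ι) : ℝ≥0∞ :=
  ∫⁻ ξ : EE ι, ENNReal.ofReal (w0 k (ξ c / 2 ^ m)) * ‖g ξ‖ₑ ^ 2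

theorem meas_LE (g : LE ι) : Measurable (g : EE ι → ℂ) := (Lp.stronglyMeasurable g).measurable

theorem meas_w (k m : ℕ) (c : ι) : Measurable fun ξ : EE ι =>
    ENNReal.ofReal (w0 k (ξ c / 2 ^ m)) :=
  ((w0_cont k).measurable.comp (by fun_prop)).ennreal_ofReal

theorem WF_le (k m : ℕ) (c : ι) (g : LE ι) : WF k m c g ≤ ‖g‖ₑ ^ 2 := by
  rw [← lintE]
  refine lintegral_mono fun ξ => ?_
  calc _ ≤ 1 * ‖g ξ‖ₑ ^ 2 := by
        gcongr
        rw [← ENNReal.ofReal_one]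
        exact ENNReal.ofReal_le_ofReal (w0_le k _)
    _ = _ := one_mul _

theorem WF_add (k m : ℕ) (c : ι) (g h : LE ι) :
    WF k m c (g + h) ≤ 2 * WF k m c g + 2 * WF k m c h := by
  unfold WF
  have hm : Measurable fun ξ : EE ι =>
      2 * (ENNReal.ofReal (w0 k (ξ c / 2 ^ m)) * ‖g ξ‖ₑ ^ 2) :=
    ((meas_w k m c).mul ((meas_LE g).enorm.pow_const 2)).const_mul 2
  rw [← lintegral_const_mul' _ _ (by norm_num), ← lintegral_const_mul' _ _ (by norm_num),
    ← lintegral_add_left hm]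
  refine lintegral_mono_ae ?_
  filter_upwards [Lp.coeFn_add g h] with ξ hξ
  rw [hξ, Pi.add_apply]
  calc _ ≤ ENNReal.ofReal (w0 k (ξ c / 2 ^ m)) * (2 * ‖g ξ‖ₑ ^ 2 + 2 * ‖h ξ‖ₑ ^ 2) := by
        gcongr
        exact enorm_sq_add_le _ _
    _ = _ := by ring

theorem four_w (k m : ℕ) (c : ι) (ψ : LE ι) :
    ‖toPi ψ - PC (k + 1) m c (toPi ψ)‖ₑ ^ 2 ≤
      ENNReal.ofReal (4 * C5 k) * WF k m c (𝓕 ψ : LE ι) := by
  have hC := C5_pos k
  refine ENNReal.le_of_forall_pos_le_add fun ε hε _ => ?_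
  have hδ : 0 < Real.sqrt ((ε : ℝ) / (4 * C5 k + 8)) := Real.sqrt_pos.2 (by positivity)
  obtain ⟨f, hf⟩ := (SchwartzMap.denseRange_toLpCLM (E := EE ι) (F := ℂ) (p := 2)
    (μ := volume) (by norm_num)).exists_dist_lt ψ hδ
  rw [SchwartzMap.toLpCLM_apply, dist_eq_norm] at hf
  set F : LE ι := f.toLp 2 volume with hF
  set η : LE ι := ψ - F with hη
  have hψ : ψ = F + η := by rw [hη]; abel
  have hη2 : ENNReal.ofReal (4 * C5 k + 8) * ‖η‖ₑ ^ 2 ≤ ε := by
    have h1 : ‖η‖ ^ 2 ≤ ε / (4 * C5 k + 8) := by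
      rw [← Real.sq_sqrt (show (0 : ℝ) ≤ ε / (4 * C5 k + 8) by positivity)]
      gcongr
    rw [← ofReal_norm, ← ENNReal.ofReal_pow (norm_nonneg _), ← ENNReal.ofReal_mul (by positivity),
      ← ENNReal.ofReal_coe_nnreal]
    apply ENNReal.ofReal_le_ofReal
    rw [le_div_iff₀ (by positivity)] at h1
    linarith
  have h1 : ‖toPi ψ - PC (k + 1) m c (toPi ψ)‖ₑ ^ 2 ≤
      2 * ‖toPi F - PC (k + 1) m c (toPi F)‖ₑ ^ 2 + 2 * (4 * ‖η‖ₑ ^ 2) := by
    have e : toPi ψ - PC (k + 1) m c (toPi ψ) = (toPi F - PC (k + 1) m c (toPi F)) +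
        (toPi η - PC (k + 1) m c (toPi η)) := by
      conv_lhs => rw [hψ]
      rw [map_add, map_add]; abel
    rw [e]
    refine (enorm_sq_add_le _ _).trans ?_
    refine add_le_add le_rfl (mul_le_mul_right ?_ _)
    refine (QC_enorm_le (k + 1) (Nat.succ_pos k) m c _).trans ?_
    rw [toPi_enorm]
  have h2 : ‖toPi F - PC (k + 1) m c (toPi F)‖ₑ ^ 2 ≤
      ENNReal.ofReal (C5 k) * WF k m c (𝓕 F : LE ι) := by
    refine (schwartz_w k m c f).trans (le_of_eq ?_)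
    congr 1
    refine lintegral_congr_ae ?_
    rw [hF, SchwartzMap.toLp_fourier_eq]
    filter_upwards [(𝓕 f : 𝓢(EE ι, ℂ)).coeFn_toLp 2 volume] with ξ hξ
    rw [hξ]
  have h3 : WF k m c (𝓕 F : LE ι) ≤ 2 * WF k m c (𝓕 ψ : LE ι) + 2 * ‖η‖ₑ ^ 2 := by
    have e : (𝓕 F : LE ι) = 𝓕 ψ + 𝓕 (-η : LE ι) := by
      rw [← FourierAdd.fourier_add]
      congr 1
      rw [hη]; abel
    rw [e]
    refine (WF_add k m c _ _).trans ?_
    refine add_le_add le_rfl (mul_le_mul_right ?_ _)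
    refine (WF_le k m c _).trans (le_of_eq ?_)
    rw [← ofReal_norm, ← ofReal_norm, Lp.norm_fourier_eq, norm_neg]
  calc ‖toPi ψ - PC (k + 1) m c (toPi ψ)‖ₑ ^ 2
      ≤ 2 * (ENNReal.ofReal (C5 k) * (2 * WF k m c (𝓕 ψ : LE ι) + 2 * ‖η‖ₑ ^ 2)) +
        2 * (4 * ‖η‖ₑ ^ 2) := by
        refine h1.trans (add_le_add (mul_le_mul_right (h2.trans (mul_le_mul_right h3 _)) _) le_rfl)
    _ = ENNReal.ofReal (4 * C5 k) * WF k m c (𝓕 ψ : LE ι) +
        ENNReal.ofReal (4 * C5 k + 8) * ‖η‖ₑ ^ 2 := by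
        rw [ENNReal.ofReal_add (by positivity) (by norm_num), ENNReal.ofReal_mul (by norm_num),
          ENNReal.ofReal_ofNat, ENNReal.ofReal_ofNat]
        ring
    _ ≤ _ := add_le_add le_rfl hη2

/-- the constant of the summation -/
def C6 (k : ℕ) (α : ℝ) : ℝ :=
  (2 : ℝ) ^ α * (((2 : ℝ) ^ α - 1)⁻¹ + (1 - (2 : ℝ) ^ α / 4 ^ (k + 1))⁻¹)

theorem sum_w0 (k : ℕ) (α : ℝ) (h0 : 0 < α) (h1 : α < 2 * (k + 1)) (t : ℝ) (M : ℕ) :
    ∑ m ∈ Finset.range M, ((2 : ℝ) ^ α) ^ m * w0 k (t / 2 ^ m) ≤ C6 k α * |t| ^ α := by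
  set a : ℝ := (2 : ℝ) ^ α with ha
  have ha1 : 1 < a := Real.one_lt_rpow (by norm_num) h0
  have ha0 : 0 < a := by linarith
  have hr1 : a / 4 ^ (k + 1) < 1 := by
    rw [div_lt_one (by positivity)]
    have : (4 : ℝ) ^ (k + 1) = (2 : ℝ) ^ ((2 : ℝ) * (k + 1)) := by
      rw [Real.rpow_mul (by norm_num)]
      norm_num
      norm_cast
    rw [this, ha]
    exact Real.rpow_lt_rpow_of_exponent_lt (by norm_num) h1
  set r : ℝ := a / 4 ^ (k + 1) with hr
  have hr0 : 0 < r := by positivity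
  -- powers of two
  have hex : ∃ n : ℕ, |t| ≤ 2 ^ n := by
    obtain ⟨n, hn⟩ := pow_unbounded_of_one_lt |t| (one_lt_two (α := ℝ))
    exact ⟨n, hn.le⟩
  classical
  set n := Nat.find hex with hn
  have hn1 : |t| ≤ 2 ^ n := Nat.find_spec hex
  have hpow : ∀ j : ℕ, a ^ j = ((2 : ℝ) ^ j) ^ α := by
    intro j
    rw [ha, ← Real.rpow_natCast, ← Real.rpow_natCast, ← Real.rpow_mul (by norm_num),
      ← Real.rpow_mul (by norm_num), mul_comm]
  have hw : ∀ m, w0 k (t / 2 ^ m) = min 1 ((|t| / 2 ^ m) ^ (2 * (k + 1))) := by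
    intro m
    unfold w0
    rw [pow_mul, pow_mul, div_pow t, div_pow |t|, sq_abs]
  have hA : n ≠ 0 → a ^ n ≤ a * |t| ^ α := by
    intro h
    obtain ⟨j, hj⟩ := Nat.exists_eq_succ_of_ne_zero h
    have h2 : (2 : ℝ) ^ j < |t| := by
      have := Nat.find_min hex (m := j) (by rw [← hn, hj]; exact Nat.lt_succ_self j)
      push Not at this
      exact this
    rw [hj, pow_succ, mul_comm]
    gcongr
    rw [hpow]
    exact Real.rpow_le_rpow (by positivity) h2.le h0.le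
  have hB : (|t| / 2 ^ n) ^ (2 * (k + 1)) * a ^ n ≤ a * |t| ^ α := by
    by_cases h : n = 0
    · rw [h, pow_zero, pow_zero, mul_one, div_one]
      rw [h, pow_zero] at hn1
      have h2 : |t| ^ (2 * (k + 1)) ≤ |t| ^ α := by
        rcases eq_or_lt_of_le (abs_nonneg t) with h3 | h3
        · rw [← h3, Real.zero_rpow h0.ne']
          simp
        · rw [← Real.rpow_natCast]
          refine Real.rpow_le_rpow_of_exponent_ge h3 hn1 ?_
          push_cast
          linarith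
      have h3 : 0 ≤ |t| ^ α := by positivity
      nlinarith
    · refine le_trans ?_ (hA h)
      have h2 : (|t| / 2 ^ n) ^ (2 * (k + 1)) ≤ 1 := by
        refine pow_le_one₀ (by positivity) ?_
        rw [div_le_one (by positivity)]
        exact hn1
      have h3 : 0 < a ^ n := by positivity
      nlinarith
  have ht0 : 0 ≤ a ^ 0 * w0 k (t / 2 ^ 0) := by
    have := w0_nonneg k (t / 2 ^ 0)
    positivity
  have hnn : ∀ m, 0 ≤ a ^ m * w0 k (t / 2 ^ m) := fun m => by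
    have := w0_nonneg k (t / 2 ^ m)
    positivity
  have hC1 : ∑ m ∈ Finset.range n, a ^ m * w0 k (t / 2 ^ m) ≤ (a - 1)⁻¹ * (a * |t| ^ α) := by
    by_cases h : n = 0
    · rw [h, Finset.sum_range_zero]
      have : 0 < (a - 1)⁻¹ := inv_pos.2 (by linarith)
      positivity
    · have h2 : ∑ m ∈ Finset.range n, a ^ m * w0 k (t / 2 ^ m) ≤ ∑ m ∈ Finset.range n, a ^ m := by
        refine Finset.sum_le_sum fun m _ => ?_
        have h3 := w0_le k (t / 2 ^ m)
        have h4 : 0 < a ^ m := by positivity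
        nlinarith
      refine h2.trans ?_
      rw [geom_sum_eq ha1.ne']
      rw [div_eq_mul_inv, mul_comm]
      have h5 : 0 < (a - 1)⁻¹ := inv_pos.2 (by linarith)
      gcongr
      linarith [hA h]
  have hC2 : ∑ j ∈ Finset.range M, a ^ (n + j) * w0 k (t / 2 ^ (n + j)) ≤
      (1 - r)⁻¹ * (a * |t| ^ α) := by
    have h2 : ∀ j, a ^ (n + j) * w0 k (t / 2 ^ (n + j)) ≤ r ^ j * (a * |t| ^ α) := by
      intro j
      rw [hw]
      calc a ^ (n + j) * min 1 ((|t| / 2 ^ (n + j)) ^ (2 * (k + 1)))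
          ≤ a ^ (n + j) * (|t| / 2 ^ (n + j)) ^ (2 * (k + 1)) := by
            gcongr
            exact min_le_right _ _
        _ = r ^ j * ((|t| / 2 ^ n) ^ (2 * (k + 1)) * a ^ n) := by
            rw [hr, pow_add, pow_add, ← div_div, div_pow (|t| / 2 ^ n), div_pow a, ← pow_mul,
              ← pow_mul, show (4 : ℝ) ^ ((k + 1) * j) = 2 ^ (j * (2 * (k + 1))) by
                rw [show (4 : ℝ) = 2 ^ 2 by norm_num, ← pow_mul]; congr 1; ring]
            ring
        _ ≤ _ := by gcongr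
    calc _ ≤ ∑ j ∈ Finset.range M, r ^ j * (a * |t| ^ α) := Finset.sum_le_sum fun j _ => h2 j
      _ = (∑ j ∈ Finset.range M, r ^ j) * (a * |t| ^ α) := by rw [Finset.sum_mul]
      _ ≤ _ := by
          gcongr
          have := (hasSum_geometric_of_lt_one hr0.le hr1)
          rw [← this.tsum_eq]
          exact this.summable.sum_le_tsum _ fun i _ => by positivity
  calc ∑ m ∈ Finset.range M, a ^ m * w0 k (t / 2 ^ m)
      ≤ ∑ m ∈ Finset.range (n + M), a ^ m * w0 k (t / 2 ^ m) :=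
        Finset.sum_le_sum_of_subset_of_nonneg (Finset.range_subset_range.2 (by omega))
          fun m _ _ => hnn m
    _ = ∑ m ∈ Finset.range n, a ^ m * w0 k (t / 2 ^ m) +
        ∑ j ∈ Finset.range M, a ^ (n + j) * w0 k (t / 2 ^ (n + j)) := Finset.sum_range_add _ _ _
    _ ≤ (a - 1)⁻¹ * (a * |t| ^ α) + (1 - r)⁻¹ * (a * |t| ^ α) := add_le_add hC1 hC2
    _ = _ := by
        unfold C6
        rw [← ha, ← hr]
        ring

end Pool.Agent.T6.H42
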