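import Pool.Agent.T6.H42.Low1

set_option autoImplicit false
set_option linter.unusedSectionVars false

noncomputable section

namespace Pool.Agent.T6.H42

open MeasureTheory Function Filter Topology
open scoped ENNReal

variable {N : ℕ} {θ : ℕ → ℝ} {m0 : ℕ}

/-- the sum of the squares of the distances to the piecewise polynomials -/
def Ea (k : ℕ) (a : ℝ) (i : Fin N) (φ : HS (Fin N × Fin 3)) : ℝ≥0∞ :=
  ∑' m, ENNReal.ofReal (a ^ m) * ‖φ - PP k m i φ‖ₑ ^ 2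

theorem pairFin (k : ℕ) (hk : 0 < k) (a b : ℝ) (hb2 : 2 < b) (hb8 : b < 8) (hba : b ≤ a)
    (φ : HS (Fin N × Fin 3)) (h : ∀ i, Ea k a i φ ≠ ⊤) : PairFin φ := by
  intro i j hij
  have hb0 : 0 < b := by linarith
  have h1 := short k hk hij φ b hb2 hb8 (m1 := 0) (n0 := 0) le_rfl
  have hm : Measurable fun x : Fin N × Fin 3 → ℝ =>
      (if ‖pt x i - pt x j‖ < 1 / 2 ^ 0 then ENNReal.ofReal (1 / ‖pt x i - pt x j‖) else 0) *
        ‖φ x‖ₑ ^ 2 := by
    refine Measurable.mul ?_ ((meas_coe φ).enorm.pow_const 2)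
    exact Measurable.ite (meas_pset i j _)
      (((meas_pt i).sub (meas_pt j)).norm.const_div 1).ennreal_ofReal measurable_const
  have h2 : ∫⁻ x, ENNReal.ofReal (1 / ‖pt x i - pt x j‖) * ‖φ x‖ₑ ^ 2 ≤
      (∫⁻ x, (if ‖pt x i - pt x j‖ < 1 / 2 ^ 0 then ENNReal.ofReal (1 / ‖pt x i - pt x j‖)
        else 0) * ‖φ x‖ₑ ^ 2) + ∫⁻ x, ‖φ x‖ₑ ^ 2 := by
    rw [← lintegral_add_left hm]
    refine lintegral_mono fun x => ?_
    simp only
    split_ifs with hx
    · exact le_self_add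
    · rw [zero_mul, zero_add]
      have h3 : ENNReal.ofReal (1 / ‖pt x i - pt x j‖) ≤ 1 := by
        rw [← ENNReal.ofReal_one]
        apply ENNReal.ofReal_le_ofReal
        push Not at hx
        rw [pow_zero, div_one] at hx
        rw [div_le_iff₀ (by linarith)]
        linarith
      calc _ ≤ 1 * ‖φ x‖ₑ ^ 2 := by gcongr
        _ = _ := one_mul _
  refine ne_top_of_le_ne_top ?_ h2
  refine ENNReal.add_ne_top.2 ⟨?_, lint_sq_ne_top φ⟩
  refine ne_top_of_le_ne_top ?_ h1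
  refine ENNReal.add_ne_top.2 ⟨by finiteness, ?_⟩
  refine ENNReal.mul_ne_top (by simp) ?_
  refine ne_top_of_le_ne_top (h i) ?_
  unfold Ea
  refine ENNReal.tsum_le_tsum fun m => ?_
  rw [if_pos (Nat.zero_le m)]
  gcongr

/-- The lower bound for given parameters. -/
theorem low_params {k : ℕ} {nn : ℕ → ℕ} {a b ε CBC : ℝ} (hp : Params k θ m0 nn a b ε CBC)
    (hθ : ∃ m, m0 ≤ m ∧ (N : ℝ) ≤ θ m) (hθ2 : ∀ m, m0 ≤ m → 2 ≤ θ m)
    (d ε' : ℝ) (hd : 1 < d) (hε' : 0 ≤ ε')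
    (hZ : ∀ m, m0 ≤ m → ENNReal.ofReal (d ^ (m - m0)) * Zs N θ m ≤ ENNReal.ofReal (ε' * a ^ m))
    (e : Fin N → ℝ) (he : ∀ i, e i = 1 ∨ e i = -1)
    (φ : HS (Fin N × Fin 3)) (hfin : ∀ i, Ea k a i φ ≠ ⊤) :
    ENNReal.ofReal (-∫ x, coulR e x * ‖φ x‖ ^ 2) ≤
      ENNReal.ofReal (N * (CBC * (2 ^ m0 + 2 * KK k * (ε' * a ^ m0)))) * ‖φ‖ₑ ^ 2 +
        ENNReal.ofReal (CBC * (CD k d * ε') + ε) * ∑ i, Ea k a i φ := by
  have hKK := KK_pos k
  have hb0 : 0 < b := by linarith [hp.b2]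
  have ha0 : 0 < a := lt_of_lt_of_le hb0 hp.ba
  have hC0 := hp.C0
  have hε0 := hp.ε0
  have hCD : 0 ≤ CD k d := by
    unfold CD
    have hK1 := K1_pos k
    have hdi : 0 < (1 - d⁻¹)⁻¹ := inv_pos.2 (by linarith [inv_lt_one_of_one_lt₀ hd])
    positivity
  have hstep : ∀ i, ENNReal.ofReal CBC *
      (∫⁻ x, ENNReal.ofReal (2 ^ (lev θ m0 i x)) * ‖φ x‖ₑ ^ 2) +
        ENNReal.ofReal ε * ∑' m, (if m0 ≤ m then
          ENNReal.ofReal (a ^ m) * ‖φ - PP k m i φ‖ₑ ^ 2 else 0) ≤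
      ENNReal.ofReal (CBC * (2 ^ m0 + 2 * KK k * (ε' * a ^ m0))) * ‖φ‖ₑ ^ 2 +
        ENNReal.ofReal (CBC * (CD k d * ε') + ε) * Ea k a i φ := by
    intro i
    have h1 := stepD (N := N) (θ := θ) (m0 := m0) k hp.hk hθ hθ2 i φ d hd
    have h2 : Zs N θ m0 ≤ ENNReal.ofReal (ε' * a ^ m0) := by
      have := hZ m0 le_rfl
      rwa [Nat.sub_self, pow_zero, ENNReal.ofReal_one, one_mul] at this
    have h3 : ∑' m, (if m0 ≤ m then
        ENNReal.ofReal (d ^ (m - m0)) * Zs N θ m * ‖φ - PP k m i φ‖ₑ ^ 2 else 0) ≤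
        ENNReal.ofReal ε' * Ea k a i φ := by
      unfold Ea
      rw [← ENNReal.tsum_mul_left]
      refine ENNReal.tsum_le_tsum fun m => ?_
      split_ifs with h
      · rw [← mul_assoc, ← ENNReal.ofReal_mul hε']
        exact mul_le_mul_left (hZ m h) _
      · exact zero_le
    have h4 : ∑' m, (if m0 ≤ m then
          ENNReal.ofReal (a ^ m) * ‖φ - PP k m i φ‖ₑ ^ 2 else 0) ≤ Ea k a i φ := by
      unfold Ea
      refine ENNReal.tsum_le_tsum fun m => ?_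
      split_ifs
      · exact le_rfl
      · exact zero_le
    calc _ ≤ ENNReal.ofReal CBC * ((ENNReal.ofReal (2 ^ m0) + ENNReal.ofReal (2 * KK k) *
          ENNReal.ofReal (ε' * a ^ m0)) * ‖φ‖ₑ ^ 2 +
          ENNReal.ofReal (CD k d) * (ENNReal.ofReal ε' * Ea k a i φ)) +
          ENNReal.ofReal ε * Ea k a i φ := by
          refine add_le_add (mul_le_mul_right (h1.trans ?_) _) (mul_le_mul_right h4 _)
          refine add_le_add (mul_le_mul_left (add_le_add le_rfl (mul_le_mul_right h2 _)) _)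
            (mul_le_mul_right h3 _)
      _ = _ := by
          rw [← ENNReal.ofReal_mul (by positivity), ← ENNReal.ofReal_add (by positivity)
            (by positivity), ENNReal.ofReal_mul hC0, ENNReal.ofReal_add (by positivity) hε0,
            ENNReal.ofReal_mul hC0, ENNReal.ofReal_mul hCD]
          ring
  refine (total hp hθ e he φ (pairFin k hp.hk a b hp.b2 hp.b8 hp.ba φ hfin)).trans ?_
  refine (Finset.sum_le_sum fun i _ => hstep i).trans (le_of_eq ?_)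
  have hN : ENNReal.ofReal (N * (CBC * (2 ^ m0 + 2 * KK k * (ε' * a ^ m0)))) =
      N * ENNReal.ofReal (CBC * (2 ^ m0 + 2 * KK k * (ε' * a ^ m0))) := by
    rw [ENNReal.ofReal_mul (by positivity), ENNReal.ofReal_natCast]
  rw [hN, Finset.sum_add_distrib, Finset.sum_const, Finset.card_univ,
    Fintype.card_fin, nsmul_eq_mul, Finset.mul_sum]
  ring

end Pool.Agent.T6.H42
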