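import Pool.Agent.T6.H42.Four5
import Pool.Agent.T6.H42.Low2
import Pool.Agent.T6.H42.Defs

set_option autoImplicit false
set_option linter.unusedSectionVars false

noncomputable section

namespace Pool.Agent.T6.H42

open MeasureTheory Function Filter Topology Set
open scoped ENNReal FourierTransform SchwartzMap LineDeriv

section one

variable {ι : Type} [DecidableEq ι] [Fintype ι]

theorem C6_pos (k : ℕ) (α : ℝ) (h0 : 0 < α) (h1 : α < 2 * (k + 1)) : 0 < C6 k α := by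
  have ha1 : 1 < (2 : ℝ) ^ α := Real.one_lt_rpow (by norm_num) h0
  have hr1 : (2 : ℝ) ^ α / 4 ^ (k + 1) < 1 := by
    rw [div_lt_one (by positivity)]
    have : (4 : ℝ) ^ (k + 1) = (2 : ℝ) ^ ((2 : ℝ) * (k + 1)) := by
      rw [Real.rpow_mul (by norm_num)]
      norm_num
      norm_cast
    rw [this]
    exact Real.rpow_lt_rpow_of_exponent_lt (by norm_num) h1
  have h2 : 0 < ((2 : ℝ) ^ α - 1)⁻¹ := inv_pos.2 (by linarith)
  have h3 : 0 < (1 - (2 : ℝ) ^ α / 4 ^ (k + 1))⁻¹ := inv_pos.2 (by linarith)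
  unfold C6
  positivity

/-- The approximation by piecewise polynomials in one coordinate. -/
theorem four_c (k : ℕ) (α : ℝ) (h0 : 0 < α) (h1 : α < 2 * (k + 1)) (c : ι) (ψ : LE ι) :
    ∑' m, ENNReal.ofReal (((2 : ℝ) ^ α) ^ m) *
      ‖toPi ψ - PC (k + 1) m c (toPi ψ)‖ₑ ^ 2 ≤
    ENNReal.ofReal (4 * C5 k * C6 k α) *
      ∫⁻ ξ : EE ι, ENNReal.ofReal (|ξ c| ^ α) * ‖(𝓕 ψ : LE ι) ξ‖ₑ ^ 2 := by
  have hC5 := C5_pos k
  have hC6 := C6_pos k α h0 h1
  have ha0 : 0 < (2 : ℝ) ^ α := by positivity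
  calc ∑' m, ENNReal.ofReal (((2 : ℝ) ^ α) ^ m) * ‖toPi ψ - PC (k + 1) m c (toPi ψ)‖ₑ ^ 2
      ≤ ∑' m, ENNReal.ofReal (4 * C5 k) * ∫⁻ ξ : EE ι,
          ENNReal.ofReal (((2 : ℝ) ^ α) ^ m * w0 k (ξ c / 2 ^ m)) * ‖(𝓕 ψ : LE ι) ξ‖ₑ ^ 2 := by
        refine ENNReal.tsum_le_tsum fun m => ?_
        refine (mul_le_mul_right (four_w k m c ψ) _).trans (le_of_eq ?_)
        unfold WF
        rw [mul_left_comm, ← lintegral_const_mul' _ _ ENNReal.ofReal_ne_top]
        congr 1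
        refine lintegral_congr fun ξ => ?_
        rw [ENNReal.ofReal_mul (by positivity), mul_assoc]
    _ = ENNReal.ofReal (4 * C5 k) * ∫⁻ ξ : EE ι, (∑' m,
          ENNReal.ofReal (((2 : ℝ) ^ α) ^ m * w0 k (ξ c / 2 ^ m))) * ‖(𝓕 ψ : LE ι) ξ‖ₑ ^ 2 := by
        rw [ENNReal.tsum_mul_left]
        congr 1
        rw [← lintegral_tsum]
        · refine lintegral_congr fun ξ => ?_
          rw [ENNReal.tsum_mul_right]
        · intro m
          refine (Measurable.mul ?_ ((meas_LE _).enorm.pow_const 2)).aemeasurable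
          exact (((w0_cont k).measurable.comp (by fun_prop)).const_mul _).ennreal_ofReal
    _ ≤ ENNReal.ofReal (4 * C5 k) * ∫⁻ ξ : EE ι, ENNReal.ofReal (C6 k α) *
          (ENNReal.ofReal (|ξ c| ^ α) * ‖(𝓕 ψ : LE ι) ξ‖ₑ ^ 2) := by
        refine mul_le_mul_right (lintegral_mono fun ξ => ?_) _
        rw [← mul_assoc]
        refine mul_le_mul_left ?_ _
        rw [ENNReal.tsum_eq_iSup_nat]
        refine iSup_le fun M => ?_
        rw [← ENNReal.ofReal_sum_of_nonneg, ← ENNReal.ofReal_mul hC6.le]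
        · exact ENNReal.ofReal_le_ofReal (sum_w0 k α h0 h1 (ξ c) M)
        · intro m _
          have := w0_nonneg k (ξ c / 2 ^ m)
          positivity
    _ = _ := by
        rw [lintegral_const_mul' _ _ ENNReal.ofReal_ne_top, ← mul_assoc,
          ← ENNReal.ofReal_mul (by positivity)]

end one

variable {N : ℕ}

theorem PP_dist (k : ℕ) (hk : 0 < k) (m : ℕ) (i : Fin N) (φ : HS (Fin N × Fin 3)) :
    ‖φ - PP k m i φ‖ₑ ^ 2 ≤ 4 * ∑ a : Fin 3, ‖φ - PC k m (i, a) φ‖ₑ ^ 2 := by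
  have e1 : φ - PP k m i φ = (φ - PC k m (i, 0) φ) +
      PC k m (i, 0) ((φ - PC k m (i, 1) φ) + PC k m (i, 1) (φ - PC k m (i, 2) φ)) := by
    rw [PP_apply, map_add, map_sub, map_sub, map_sub]
    abel
  rw [e1, Fin.sum_univ_three]
  refine (enorm_sq_add_le _ _).trans ?_
  have h2 : ‖PC k m (i, 0) ((φ - PC k m (i, 1) φ) + PC k m (i, 1) (φ - PC k m (i, 2) φ))‖ₑ ^ 2 ≤
      2 * ‖φ - PC k m (i, 1) φ‖ₑ ^ 2 + 2 * ‖φ - PC k m (i, 2) φ‖ₑ ^ 2 := by
    calc _ ≤ ‖(φ - PC k m (i, 1) φ) + PC k m (i, 1) (φ - PC k m (i, 2) φ)‖ₑ ^ 2 := by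
          gcongr
          exact PC_enorm_le k hk m _ _
      _ ≤ _ := (enorm_sq_add_le _ _).trans (by
          gcongr
          exact PC_enorm_le k hk m _ _)
  calc _ ≤ 2 * ‖φ - PC k m (i, 0) φ‖ₑ ^ 2 + 2 * (2 * ‖φ - PC k m (i, 1) φ‖ₑ ^ 2 +
        2 * ‖φ - PC k m (i, 2) φ‖ₑ ^ 2) := by gcongr
    _ ≤ 4 * ‖φ - PC k m (i, 0) φ‖ₑ ^ 2 + 4 * ‖φ - PC k m (i, 1) φ‖ₑ ^ 2 +
        4 * ‖φ - PC k m (i, 2) φ‖ₑ ^ 2 := by
        rw [mul_add, ← mul_assoc, ← mul_assoc, ← add_assoc]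
        norm_num
        gcongr
        norm_num
    _ = _ := by ring

theorem coord_le_pos (ξ : Cfg N) (i : Fin N) (a : Fin 3) : |ξ (i, a)| ≤ ‖pos ξ i‖ := by
  have h := PiLp.norm_apply_le (pos ξ i) a
  rw [Real.norm_eq_abs] at h
  exact h

/-- the constant in the Fourier bound -/
def C7 (k : ℕ) (α : ℝ) : ℝ := 48 * C5 k * C6 k α

theorem Ea_kin (k : ℕ) (α : ℝ) (h0 : 0 < α) (h1 : α < 2 * (k + 1)) (ψ : Wave N) :
    ∑ i, Ea (k + 1) ((2 : ℝ) ^ α) i (toPi ψ) ≤ ENNReal.ofReal (C7 k α) * kin α ψ := by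
  have hC5 := C5_pos k
  have hC6 := C6_pos k α h0 h1
  have hπ : 1 ≤ 2 * Real.pi := by linarith [Real.pi_gt_three]
  have hEa : ∀ i : Fin N, Ea (k + 1) ((2 : ℝ) ^ α) i (toPi ψ) ≤ ENNReal.ofReal (C7 k α) *
      ∫⁻ ξ : Cfg N, ENNReal.ofReal ((2 * Real.pi * ‖pos ξ i‖) ^ α) * ‖(𝓕 ψ : Wave N) ξ‖ₑ ^ 2 := by
    intro i
    calc Ea (k + 1) ((2 : ℝ) ^ α) i (toPi ψ)
        ≤ ∑' m, ∑ a : Fin 3, 4 * (ENNReal.ofReal (((2 : ℝ) ^ α) ^ m) *
            ‖toPi ψ - PC (k + 1) m (i, a) (toPi ψ)‖ₑ ^ 2) := by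
          unfold Ea
          refine ENNReal.tsum_le_tsum fun m => ?_
          refine (mul_le_mul_right (PP_dist (k + 1) (Nat.succ_pos k) m i (toPi ψ)) _).trans
            (le_of_eq ?_)
          rw [← Finset.mul_sum, ← Finset.mul_sum]
          ring
      _ = ∑ a : Fin 3, 4 * ∑' m, (ENNReal.ofReal (((2 : ℝ) ^ α) ^ m) *
            ‖toPi ψ - PC (k + 1) m (i, a) (toPi ψ)‖ₑ ^ 2) := by
          rw [Summable.tsum_finsetSum fun a _ => ENNReal.summable]
          refine Finset.sum_congr rfl fun a _ => ?_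
          rw [ENNReal.tsum_mul_left]
      _ ≤ ∑ _a : Fin 3, 4 * (ENNReal.ofReal (4 * C5 k * C6 k α) * ∫⁻ ξ : Cfg N,
            ENNReal.ofReal ((2 * Real.pi * ‖pos ξ i‖) ^ α) * ‖(𝓕 ψ : Wave N) ξ‖ₑ ^ 2) := by
          refine Finset.sum_le_sum fun a _ => mul_le_mul_right ?_ _
          refine (four_c k α h0 h1 (i, a) ψ).trans (mul_le_mul_right ?_ _)
          refine lintegral_mono fun ξ => ?_
          gcongr
          have h2 := coord_le_pos ξ i a
          nlinarith [norm_nonneg (pos ξ i)]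
      _ = _ := by
          rw [Finset.sum_const, Finset.card_univ, Fintype.card_fin, nsmul_eq_mul, ← mul_assoc,
            ← mul_assoc]
          congr 1
          unfold C7
          have e : 48 * C5 k * C6 k α = 12 * (4 * C5 k * C6 k α) := by ring
          rw [e, ENNReal.ofReal_mul (p := 12) (by norm_num)]
          norm_num
  calc _ ≤ ∑ i : Fin N, ENNReal.ofReal (C7 k α) * ∫⁻ ξ : Cfg N,
        ENNReal.ofReal ((2 * Real.pi * ‖pos ξ i‖) ^ α) * ‖(𝓕 ψ : Wave N) ξ‖ₑ ^ 2 :=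
        Finset.sum_le_sum fun i _ => hEa i
    _ = ENNReal.ofReal (C7 k α) * kin α ψ := by
        rw [← Finset.mul_sum]
        congr 1
        unfold kin
        rw [← lintegral_finsetSum]
        · refine lintegral_congr fun ξ => ?_
          rw [ENNReal.ofReal_mul' (by positivity), enorm_sq_ofReal,
            ENNReal.ofReal_sum_of_nonneg fun i _ => by positivity, Finset.sum_mul]
        · intro i _
          refine Measurable.mul ?_ ((meas_LE _).enorm.pow_const 2)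
          refine Measurable.ennreal_ofReal ?_
          refine Measurable.pow_const ?_ _
          refine Measurable.const_mul ?_ _
          refine Measurable.norm ?_
          unfold pos
          exact (PiLp.continuous_toLp 2 _).measurable.comp (by fun_prop)

end Pool.Agent.T6.H42
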