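import Pool.Agent.T6.H42.Proj

set_option autoImplicit false
set_option linter.unusedSectionVars false

noncomputable section

namespace Pool.Agent.T6.H42

open MeasureTheory Function Filter
open scoped ENNReal

variable {N : ℕ}

/-- move the particle `i` to the point `t` -/
def setpos (x : Fin N × Fin 3 → ℝ) (i : Fin N) (t : Fin 3 → ℝ) : Fin N × Fin 3 → ℝ :=
  update (update (update x (i, 2) (t 2)) (i, 1) (t 1)) (i, 0) (t 0)

theorem setpos_self (x : Fin N × Fin 3 → ℝ) (i : Fin N) (t : Fin 3 → ℝ) (a : Fin 3) :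
    setpos x i t (i, a) = t a := by
  unfold setpos
  fin_cases a <;> simp

theorem setpos_ne (x : Fin N × Fin 3 → ℝ) (i j : Fin N) (h : j ≠ i) (t : Fin 3 → ℝ) (a : Fin 3) :
    setpos x i t (j, a) = x (j, a) := by
  unfold setpos
  simp [h]

theorem setpos_eq (x : Fin N × Fin 3 → ℝ) (i : Fin N) :
    setpos x i (fun a => x (i, a)) = x := by
  funext p
  obtain ⟨j, a⟩ := p
  by_cases h : j = i
  · subst h; rw [setpos_self]
  · rw [setpos_ne _ _ _ h]

theorem lint_kbox_ind (m : ℕ) (s : ℝ) (I : Set ℝ) (hI : MeasurableSet I) :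
    ∫⁻ t, kbox m s t * I.indicator (fun _ => 1) t ≤ 2 ^ m * volume I := by
  have h1 : ∀ t, kbox m s t * I.indicator (fun _ => (1 : ℝ≥0∞)) t ≤
      I.indicator (fun _ => 2 ^ m) t := by
    intro t
    by_cases h : t ∈ I
    · simp only [h, Set.indicator_of_mem, mul_one]
      unfold kbox; split_ifs <;> simp
    · simp [h]
  refine (lintegral_mono h1).trans ?_
  rw [lintegral_indicator hI, setLIntegral_const]

theorem avg3_eq (m : ℕ) (i : Fin N) (G : (Fin N × Fin 3 → ℝ) → ℝ≥0∞) (x : Fin N × Fin 3 → ℝ) :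
    avg3 m i G x = ∫⁻ t2, kbox m (x (i, 2)) t2 * ∫⁻ t1, kbox m (x (i, 1)) t1 *
      ∫⁻ t0, kbox m (x (i, 0)) t0 * G (setpos x i ![t0, t1, t2]) := by
  unfold avg3 avg
  refine lintegral_congr fun t2 => ?_
  congr 1
  have h1 : ∀ t2 : ℝ, update x (i, 2) t2 (i, 1) = x (i, 1) := fun t2 =>
    update_of_ne (ne12 i) _ _
  rw [h1]
  refine lintegral_congr fun t1 => ?_
  congr 1
  have h2 : ∀ t2 t1 : ℝ, update (update x (i, 2) t2) (i, 1) t1 (i, 0) = x (i, 0) :=
    fun t2 t1 => by rw [update_of_ne (ne01 i), update_of_ne (ne02 i)]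
  rw [h2]
  rfl

theorem avg3_le (m : ℕ) (i : Fin N) (G : (Fin N × Fin 3 → ℝ) → ℝ≥0∞) (x : Fin N × Fin 3 → ℝ)
    {β : Type} (A : Finset β) (I : β → Fin 3 → Set ℝ) (hI : ∀ b a, MeasurableSet (I b a))
    (h : ∀ t : Fin 3 → ℝ, G (setpos x i t) ≤ ∑ b ∈ A, ((I b 0).indicator (fun _ => 1) (t 0) *
      (I b 1).indicator (fun _ => 1) (t 1) * (I b 2).indicator (fun _ => 1) (t 2)))
    (L : ℝ≥0∞) (hL : ∀ b ∈ A, ∀ a, volume (I b a) ≤ L) :
    avg3 m i G x ≤ A.card * (2 ^ m * L) ^ 3 := by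
  rw [avg3_eq]
  have hm : ∀ s, Measurable fun t => kbox m s t := fun s =>
    (meas_kbox m).comp measurable_prodMk_left
  have hb : ∀ s, ∀ b ∈ A, ∀ a, ∫⁻ t, kbox m s t * (I b a).indicator (fun _ => 1) t ≤
      2 ^ m * L := by
    intro s b hb a
    refine (lint_kbox_ind m s _ (hI b a)).trans ?_
    gcongr
    exact hL b hb a
  have hmi : ∀ s b a, Measurable fun t => kbox m s t *
      (I b a).indicator (fun _ => (1 : ℝ≥0∞)) t := fun s b a =>
    (hm s).mul (measurable_const.indicator (hI b a))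
  -- generic step
  have step : ∀ (s : ℝ) (a : Fin 3) (F : ℝ → ℝ≥0∞) (c : β → ℝ≥0∞),
      (∀ t, F t ≤ ∑ b ∈ A, (c b * (I b a).indicator (fun _ => 1) t)) →
      ∫⁻ t, kbox m s t * F t ≤ ∑ b ∈ A, c b * (2 ^ m * L) := by
    intro s a F c hF
    calc ∫⁻ t, kbox m s t * F t ≤ ∫⁻ t, ∑ b ∈ A, c b * (kbox m s t *
          (I b a).indicator (fun _ => 1) t) := by
          refine lintegral_mono fun t => ?_
          refine (mul_le_mul_right (hF t) _).trans (le_of_eq ?_)
          rw [Finset.mul_sum]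
          refine Finset.sum_congr rfl fun b _ => ?_
          ring
      _ = ∑ b ∈ A, c b * ∫⁻ t, kbox m s t * (I b a).indicator (fun _ => 1) t := by
          rw [lintegral_finsetSum]
          · refine Finset.sum_congr rfl fun b _ => ?_
            rw [lintegral_const_mul _ (hmi s b a)]
          · intro b _
            exact (hmi s b a).const_mul _
      _ ≤ _ := by
          refine Finset.sum_le_sum fun b hbA => ?_
          gcongr
          exact hb s b hbA a
  have s1 : ∀ t1 t2, ∫⁻ t0, kbox m (x (i, 0)) t0 * G (setpos x i ![t0, t1, t2]) ≤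
      ∑ b ∈ A, ((2 ^ m * L) * (I b 2).indicator (fun _ => 1) t2) *
        (I b 1).indicator (fun _ => 1) t1 := by
    intro t1 t2
    refine (step (x (i, 0)) 0 _ (fun b => (I b 1).indicator (fun _ => 1) t1 *
      (I b 2).indicator (fun _ => 1) t2) (fun t => ?_)).trans (le_of_eq ?_)
    · refine (h _).trans (le_of_eq ?_)
      refine Finset.sum_congr rfl fun b _ => ?_
      simp only [Matrix.cons_val_zero, Matrix.cons_val_one, Matrix.cons_val]
      ring
    · refine Finset.sum_congr rfl fun b _ => ?_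
      ring
  have s2 : ∀ t2, ∫⁻ t1, kbox m (x (i, 1)) t1 * ∫⁻ t0, kbox m (x (i, 0)) t0 *
      G (setpos x i ![t0, t1, t2]) ≤ ∑ b ∈ A, ((2 ^ m * L) * (2 ^ m * L)) *
        (I b 2).indicator (fun _ => 1) t2 := by
    intro t2
    refine (step (x (i, 1)) 1 _ (fun b => (2 ^ m * L) * (I b 2).indicator (fun _ => 1) t2)
      (fun t => s1 t t2)).trans (le_of_eq ?_)
    refine Finset.sum_congr rfl fun b _ => ?_
    ring
  refine (step (x (i, 2)) 2 _ (fun b => (2 ^ m * L) * (2 ^ m * L)) s2).trans (le_of_eq ?_)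
  rw [Finset.sum_const, nsmul_eq_mul]
  ring

end Pool.Agent.T6.H42
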