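import Mathlib

/-!
# Kernel operators acting in one coordinate: definitions
-/

set_option autoImplicit false

noncomputable section

namespace Pool.Agent.T6.H42

open MeasureTheory Function
open scoped ENNReal

/-- The index of the dyadic interval of length `2^{-m}` containing `s`. -/
def cel (m : ℕ) (s : ℝ) : ℤ := ⌊(2 : ℝ) ^ m * s⌋

/-- The kernel of the averaging over dyadic intervals of length `2^{-m}`. -/
def kbox (m : ℕ) (s t : ℝ) : ℝ≥0∞ := if cel m s = cel m t then (2 : ℝ≥0∞) ^ m else 0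

/-- Bounded symmetric kernels that do not connect different dyadic intervals of length
`2^{-m}`. -/
structure IsKer (m : ℕ) (κ : ℝ) (k : ℝ → ℝ → ℝ) : Prop where
  meas : Measurable (uncurry k)
  symm : ∀ s t, k s t = k t s
  bound : ∀ s t, |k s t| ≤ if cel m s = cel m t then κ * 2 ^ m else 0

variable {ι : Type} [DecidableEq ι]

/-- The kernel operator with kernel `k` acting in the coordinate `c`. -/
def opF (k : ℝ → ℝ → ℝ) (c : ι) (f : (ι → ℝ) → ℂ) (x : ι → ℝ) : ℂ :=
  ∫ t, (k (x c) t : ℂ) * f (update x c t)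

/-- The average in the coordinate `c` over dyadic intervals of length `2^{-m}`. -/
def avg (m : ℕ) (c : ι) (G : (ι → ℝ) → ℝ≥0∞) (x : ι → ℝ) : ℝ≥0∞ :=
  ∫⁻ t, kbox m (x c) t * G (update x c t)

/-- The Hilbert space `L²(ℝ^ι)`. -/
abbrev HS (ι : Type) [Fintype ι] : Type := Lp ℂ 2 (volume : Measure (ι → ℝ))

/-- Weighted squares of norms. -/
def wn [Fintype ι] (G : (ι → ℝ) → ℝ≥0∞) (φ : HS ι) : ℝ≥0∞ := ∫⁻ x, G x * ‖φ x‖ₑ ^ 2

end Pool.Agent.T6.H42
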