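import Pool.Agent.T6.H42.KDefs

set_option autoImplicit false
set_option linter.unusedSectionVars false

noncomputable section

namespace Pool.Agent.T6.H42

open MeasureTheory Function Filter
open scoped ENNReal

variable {ι : Type} [DecidableEq ι] [Fintype ι]

/-- the exchange of the coordinate `c` with an additional coordinate -/
def swp (c : ι) : ((ι → ℝ) × ℝ) →ₗ[ℝ] ((ι → ℝ) × ℝ) where
  toFun p := (update p.1 c p.2, p.1 c)
  map_add' p q := by
    ext i
    · by_cases h : i = c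
      · subst h; simp
      · simp [update_of_ne h]
    · simp
  map_smul' a p := by
    ext i
    · by_cases h : i = c
      · subst h; simp
      · simp [update_of_ne h]
    · simp

theorem swp_apply (c : ι) (p : (ι → ℝ) × ℝ) : swp c p = (update p.1 c p.2, p.1 c) := rfl

theorem swp_swp (c : ι) (p : (ι → ℝ) × ℝ) : swp c (swp c p) = p := by
  ext i <;> simp [swp_apply]

theorem swp_mp (c : ι) :
    MeasurePreserving (fun p : (ι → ℝ) × ℝ => (update p.1 c p.2, p.1 c)) := by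
  have h1 : (swp c) ∘ₗ (swp c) = LinearMap.id := LinearMap.ext fun p => swp_swp c p
  have h2 : LinearMap.det (swp c) * LinearMap.det (swp c) = 1 := by
    rw [← LinearMap.det_comp, h1, LinearMap.det_id]
  have h3 : LinearMap.det (swp c) ≠ 0 := by
    intro h; rw [h] at h2; simp at h2
  have h4 : |(LinearMap.det (swp c))⁻¹| = 1 := by
    rcases mul_self_eq_one_iff.1 h2 with h | h <;> rw [h] <;> simp
  refine ⟨?_, ?_⟩
  · have : Continuous (swp c) := LinearMap.continuous_of_finiteDimensional _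
    exact this.measurable
  · have h5 := Measure.map_linearMap_addHaar_eq_smul_addHaar
      ((volume : Measure (ι → ℝ)).prod (volume : Measure ℝ)) h3
    rw [h4] at h5
    have h6 : (fun p : (ι → ℝ) × ℝ => (update p.1 c p.2, p.1 c)) = ⇑(swp c) := rfl
    rw [h6, Measure.volume_eq_prod, h5]
    simp

theorem meas_upd (c : ι) : Measurable (fun p : (ι → ℝ) × ℝ => update p.1 c p.2) :=
  (swp_mp c).measurable.fst

theorem meas_upd' (x : ι → ℝ) (c : ι) : Measurable (fun t : ℝ => update x c t) :=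
  (meas_upd c).comp measurable_prodMk_left

theorem ae_upd (c : ι) {p : (ι → ℝ) → Prop} (h : ∀ᵐ x, p x) :
    ∀ᵐ x : ι → ℝ, ∀ᵐ t : ℝ, p (update x c t) := by
  have h1 : ∀ᵐ q : (ι → ℝ) × ℝ, p q.1 :=
    (Measure.quasiMeasurePreserving_fst (μ := (volume : Measure (ι → ℝ)))
      (ν := (volume : Measure ℝ))).ae h
  have h2 : ∀ᵐ q : (ι → ℝ) × ℝ, p (update q.1 c q.2) :=
    (swp_mp c).quasiMeasurePreserving.ae h1
  exact Measure.ae_ae_of_ae_prod h2

theorem lint_swp (c : ι) (Φ : (ι → ℝ) → ℝ → ℝ≥0∞) (hΦ : Measurable (uncurry Φ)) :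
    ∫⁻ x, ∫⁻ t, Φ x t = ∫⁻ x : ι → ℝ, ∫⁻ t : ℝ, Φ (update x c t) (x c) := by
  have h1 := lintegral_prod (μ := (volume : Measure (ι → ℝ))) (ν := (volume : Measure ℝ))
    (uncurry Φ) hΦ.aemeasurable
  have h2 := lintegral_prod (μ := (volume : Measure (ι → ℝ))) (ν := (volume : Measure ℝ))
    (fun p : (ι → ℝ) × ℝ => uncurry Φ (update p.1 c p.2, p.1 c))
    (hΦ.comp (swp_mp c).measurable).aemeasurable
  have h3 := (swp_mp c).lintegral_comp hΦ
  rw [Measure.volume_eq_prod, h1, h2] at h3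
  exact h3.symm

theorem meas_cel (m : ℕ) : Measurable (cel m) := by
  unfold cel
  exact Int.measurable_floor.comp (measurable_const.mul measurable_id)

theorem meas_kbox (m : ℕ) : Measurable (uncurry (kbox m)) := by
  unfold kbox
  refine Measurable.ite ?_ measurable_const measurable_const
  exact measurableSet_eq_fun ((meas_cel m).comp measurable_fst) ((meas_cel m).comp measurable_snd)

theorem kbox_symm (m : ℕ) (s t : ℝ) : kbox m s t = kbox m t s := by
  unfold kbox; simp only [eq_comm]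

theorem kbox_ne_top (m : ℕ) (s t : ℝ) : kbox m s t ≠ ⊤ := by
  unfold kbox; split_ifs <;> simp

theorem cel_eq_iff (m : ℕ) (s t : ℝ) : cel m s = cel m t ↔
    t ∈ Set.Ico ((cel m s : ℝ) / 2 ^ m) (((cel m s : ℝ) + 1) / 2 ^ m) := by
  have h2 : (0 : ℝ) < 2 ^ m := by positivity
  rw [Set.mem_Ico, div_le_iff₀ h2, lt_div_iff₀ h2, mul_comm t, eq_comm]
  exact Int.floor_eq_iff

theorem lint_kbox (m : ℕ) (s : ℝ) : ∫⁻ t, kbox m s t = 1 := by
  have h1 : ∀ t, kbox m s t = Set.indicator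
      (Set.Ico ((cel m s : ℝ) / 2 ^ m) (((cel m s : ℝ) + 1) / 2 ^ m)) (fun _ => (2 : ℝ≥0∞) ^ m) t := by
    intro t
    unfold kbox
    rw [Set.indicator_apply]
    simp only [cel_eq_iff]
  simp_rw [h1]
  rw [lintegral_indicator measurableSet_Ico, setLIntegral_const, Real.volume_Ico,
    ← sub_div, add_sub_cancel_left, ENNReal.ofReal_div_of_pos (by positivity),
    ENNReal.ofReal_one, ENNReal.ofReal_pow (by norm_num), ENNReal.ofReal_ofNat,
    one_div, ENNReal.mul_inv_cancel] <;> simp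

theorem cs_w {α : Type*} [MeasurableSpace α] (μ : Measure α) (w g : α → ℝ≥0∞)
    (hw : Measurable w) (hg : Measurable g) :
    (∫⁻ a, w a * g a ∂μ) ^ 2 ≤ (∫⁻ a, w a ∂μ) * ∫⁻ a, w a * g a ^ 2 ∂μ := by
  have h := ENNReal.lintegral_mul_le_Lp_mul_Lq (μ.withDensity w)
    (Real.HolderConjugate.two_two) (f := fun _ => 1) (g := g) aemeasurable_const hg.aemeasurable
  have e1 : ∫⁻ a, ((fun _ => 1) * g : α → ℝ≥0∞) a ∂(μ.withDensity w) = ∫⁻ a, w a * g a ∂μ := by
    rw [lintegral_withDensity_eq_lintegral_mul _ hw (by fun_prop)]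
    simp
  have e2 : ∫⁻ a, (1 : ℝ≥0∞) ^ (2 : ℝ) ∂(μ.withDensity w) = ∫⁻ a, w a ∂μ := by
    rw [lintegral_withDensity_eq_lintegral_mul _ hw (by fun_prop)]
    simp
  have e3 : ∫⁻ a, g a ^ (2 : ℝ) ∂(μ.withDensity w) = ∫⁻ a, w a * g a ^ 2 ∂μ := by
    rw [lintegral_withDensity_eq_lintegral_mul _ hw (by fun_prop)]
    simp
  rw [e1, e2, e3] at h
  calc (∫⁻ a, w a * g a ∂μ) ^ 2 ≤ ((∫⁻ a, w a ∂μ) ^ (1 / 2 : ℝ) *
        (∫⁻ a, w a * g a ^ 2 ∂μ) ^ (1 / 2 : ℝ)) ^ 2 := by gcongr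
    _ = _ := by
      rw [mul_pow, ← ENNReal.rpow_natCast, ← ENNReal.rpow_mul, ← ENNReal.rpow_natCast,
        ← ENNReal.rpow_mul]
      norm_num

end Pool.Agent.T6.H42
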