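import Pool.Agent.T6.H42.Ker0

set_option autoImplicit false
set_option linter.unusedSectionVars false

noncomputable section

namespace Pool.Agent.T6.H42

open MeasureTheory Function Filter
open scoped ENNReal

variable {ι : Type} [DecidableEq ι] [Fintype ι]

/-! ### the averages -/

theorem meas_avg_core (m : ℕ) (c : ι) {G : (ι → ℝ) → ℝ≥0∞} (hG : Measurable G) :
    Measurable (fun p : (ι → ℝ) × ℝ => kbox m (p.1 c) p.2 * G (update p.1 c p.2)) := by
  refine Measurable.mul ?_ (hG.comp (meas_upd c))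
  exact (meas_kbox m).comp (f := fun p : (ι → ℝ) × ℝ => (p.1 c, p.2)) (by fun_prop)

theorem meas_avg (m : ℕ) (c : ι) {G : (ι → ℝ) → ℝ≥0∞} (hG : Measurable G) :
    Measurable (avg m c G) :=
  (meas_avg_core m c hG).lintegral_prod_right'

theorem avg_adj (m : ℕ) (c : ι) {F G : (ι → ℝ) → ℝ≥0∞} (hF : Measurable F) (hG : Measurable G) :
    ∫⁻ x, F x * avg m c G x = ∫⁻ x, avg m c F x * G x := by
  have h1 : ∀ x : ι → ℝ, F x * avg m c G x =
      ∫⁻ t, F x * (kbox m (x c) t * G (update x c t)) := by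
    intro x
    rw [lintegral_const_mul]
    · rfl
    · exact (meas_avg_core m c hG).comp measurable_prodMk_left
  have h2 : ∀ x : ι → ℝ, avg m c F x * G x =
      ∫⁻ t, (kbox m (x c) t * F (update x c t)) * G x := by
    intro x
    rw [lintegral_mul_const]
    · rfl
    · exact (meas_avg_core m c hF).comp measurable_prodMk_left
  simp_rw [h1, h2]
  rw [lint_swp c (fun x t => F x * (kbox m (x c) t * G (update x c t)))]
  · refine lintegral_congr fun x => lintegral_congr fun t => ?_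
    simp only [update_self, update_idem, update_eq_self]
    rw [kbox_symm]
    ring
  · exact (hF.comp measurable_fst).mul (meas_avg_core m c hG)

theorem avg_one (m : ℕ) (c : ι) (a : ℝ≥0∞) (x : ι → ℝ) : avg m c (fun _ => a) x = a := by
  unfold avg
  rw [lintegral_mul_const, lint_kbox, one_mul]
  exact (meas_kbox m).comp measurable_prodMk_left

theorem avg_mono (m : ℕ) (c : ι) {F G : (ι → ℝ) → ℝ≥0∞} (h : ∀ x, F x ≤ G x) (x : ι → ℝ) :
    avg m c F x ≤ avg m c G x :=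
  lintegral_mono fun _ => mul_le_mul_right (h _) _

theorem avg_int (m : ℕ) (c : ι) {G : (ι → ℝ) → ℝ≥0∞} (hG : Measurable G) :
    ∫⁻ x, avg m c G x = ∫⁻ x, G x := by
  have h := avg_adj m c (F := fun _ => 1) (G := G) measurable_const hG
  simpa [avg_one] using h

theorem avg_congr (m : ℕ) (c : ι) {F G : (ι → ℝ) → ℝ≥0∞} (h : ∀ᵐ x, F x = G x) :
    ∀ᵐ x, avg m c F x = avg m c G x := by
  filter_upwards [ae_upd c h] with x hx
  refine lintegral_congr_ae ?_
  filter_upwards [hx] with t ht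
  rw [ht]

/-- a factor that does not depend on the coordinate can be pulled out -/
theorem avg_pull (m : ℕ) (c : ι) (F : (ι → ℝ) → ℝ≥0∞) (u : ℝ → ℝ≥0∞) (hu : Measurable u)
    (hF : ∀ x t, F (update x c t) = F x) (B : ℝ≥0∞)
    (x : ι → ℝ) (hB : ∫⁻ t, kbox m (x c) t * u t ≤ B) :
    avg m c (fun y => F y * u (y c)) x ≤ F x * B := by
  unfold avg
  have h1 : ∀ t, kbox m (x c) t * (F (update x c t) * u (update x c t c)) =
      F x * (kbox m (x c) t * u t) := by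
    intro t
    rw [hF, update_self]; ring
  simp_rw [h1]
  rw [lintegral_const_mul]
  · gcongr
  · exact ((meas_kbox m).comp measurable_prodMk_left).mul hu

/-! ### the kernel operators on functions -/

variable {m : ℕ} {κ : ℝ} {k : ℝ → ℝ → ℝ}

theorem IsKer.nonneg (hk : IsKer m κ k) : 0 ≤ κ := by
  have h := hk.bound 0 0
  rw [if_pos rfl] at h
  have h2 : (0 : ℝ) < 2 ^ m := by positivity
  nlinarith [abs_nonneg (k 0 0)]

theorem IsKer.enorm (hk : IsKer m κ k) (s t : ℝ) :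
    ‖(k s t : ℂ)‖ₑ ≤ ENNReal.ofReal κ * kbox m s t := by
  have h := hk.bound s t
  have h1 : ‖(k s t : ℂ)‖ₑ = ENNReal.ofReal |k s t| := by
    rw [← ofReal_norm, Complex.norm_real, Real.norm_eq_abs]
  rw [h1]
  unfold kbox
  split_ifs at h ⊢ with hc
  · calc ENNReal.ofReal |k s t| ≤ ENNReal.ofReal (κ * 2 ^ m) := ENNReal.ofReal_le_ofReal h
      _ = _ := by
        rw [ENNReal.ofReal_mul hk.nonneg, ENNReal.ofReal_pow (by norm_num), ENNReal.ofReal_ofNat]
  · simp [le_antisymm h (abs_nonneg _)]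

theorem opF_meas (hk : IsKer m κ k) (c : ι) {f : (ι → ℝ) → ℂ} (hf : Measurable f) :
    Measurable (fun p : (ι → ℝ) × ℝ => (k (p.1 c) p.2 : ℂ) * f (update p.1 c p.2)) := by
  refine Measurable.mul (Complex.measurable_ofReal.comp ?_) (hf.comp (meas_upd c))
  exact hk.meas.comp (f := fun p : (ι → ℝ) × ℝ => (p.1 c, p.2)) (by fun_prop)

theorem opF_measurable (hk : IsKer m κ k) (c : ι) {f : (ι → ℝ) → ℂ} (hf : Measurable f) :
    Measurable (opF k c f) :=
  (opF_meas hk c hf).stronglyMeasurable.integral_prod_right'.measurable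

theorem opF_congr (c : ι) {f g : (ι → ℝ) → ℂ} (h : f =ᵐ[volume] g) :
    opF k c f =ᵐ[volume] opF k c g := by
  filter_upwards [ae_upd c h] with x hx
  refine integral_congr_ae ?_
  filter_upwards [hx] with t ht
  rw [ht]

theorem opF_lint (hk : IsKer m κ k) (c : ι) {f : (ι → ℝ) → ℂ} (hf : Measurable f) (x : ι → ℝ) :
    (∫⁻ t, ‖(k (x c) t : ℂ) * f (update x c t)‖ₑ) ^ 2 ≤
      ENNReal.ofReal κ ^ 2 * avg m c (fun y => ‖f y‖ₑ ^ 2) x := by
  have h1 : ∫⁻ t, ‖(k (x c) t : ℂ) * f (update x c t)‖ₑ ≤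
      ENNReal.ofReal κ * ∫⁻ t, kbox m (x c) t * ‖f (update x c t)‖ₑ := by
    rw [← lintegral_const_mul]
    · refine lintegral_mono fun t => ?_
      rw [enorm_mul, ← mul_assoc]
      gcongr
      exact hk.enorm _ _
    · exact ((meas_kbox m).comp measurable_prodMk_left).mul (hf.comp (meas_upd' x c)).enorm
  calc _ ≤ (ENNReal.ofReal κ * ∫⁻ t, kbox m (x c) t * ‖f (update x c t)‖ₑ) ^ 2 := by gcongr
    _ ≤ _ := by
      rw [mul_pow]
      gcongr
      refine (cs_w volume (fun t => kbox m (x c) t) (fun t => ‖f (update x c t)‖ₑ)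
        ((meas_kbox m).comp measurable_prodMk_left) (hf.comp (meas_upd' x c)).enorm).trans ?_
      rw [lint_kbox, one_mul]
      rfl

theorem opF_sq_le (hk : IsKer m κ k) (c : ι) {f : (ι → ℝ) → ℂ} (hf : Measurable f)
    (x : ι → ℝ) :
    ‖opF k c f x‖ₑ ^ 2 ≤ ENNReal.ofReal κ ^ 2 * avg m c (fun y => ‖f y‖ₑ ^ 2) x := by
  refine le_trans ?_ (opF_lint hk c hf x)
  gcongr
  exact enorm_integral_le_lintegral_enorm _

theorem opF_wsq_le (hk : IsKer m κ k) (c : ι) {f : (ι → ℝ) → ℂ} (hf : Measurable f)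
    {G : (ι → ℝ) → ℝ≥0∞} (hG : Measurable G) :
    ∫⁻ x, G x * ‖opF k c f x‖ₑ ^ 2 ≤
      ENNReal.ofReal κ ^ 2 * ∫⁻ x, avg m c G x * ‖f x‖ₑ ^ 2 := by
  rw [← avg_adj m c hG (hf.enorm.pow_const 2), ← lintegral_const_mul]
  · refine lintegral_mono fun x => ?_
    calc G x * ‖opF k c f x‖ₑ ^ 2 ≤ G x * (ENNReal.ofReal κ ^ 2 *
        avg m c (fun y => ‖f y‖ₑ ^ 2) x) := by gcongr; exact opF_sq_le hk c hf x
      _ = _ := by ring
  · exact hG.mul (meas_avg m c (hf.enorm.pow_const 2))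

theorem avg_fin (m : ℕ) (c : ι) {f : (ι → ℝ) → ℂ} (hf : Measurable f)
    (h2 : ∫⁻ x, ‖f x‖ₑ ^ 2 ≠ ⊤) : ∀ᵐ x, avg m c (fun y => ‖f y‖ₑ ^ 2) x < ⊤ := by
  refine ae_lt_top (meas_avg m c (hf.enorm.pow_const 2)) ?_
  rw [avg_int m c (hf.enorm.pow_const 2)]
  exact h2

theorem opF_int (hk : IsKer m κ k) (c : ι) {f : (ι → ℝ) → ℂ} (hf : Measurable f)
    (h2 : ∫⁻ x, ‖f x‖ₑ ^ 2 ≠ ⊤) :
    ∀ᵐ x : ι → ℝ, Integrable (fun t : ℝ => (k (x c) t : ℂ) * f (update x c t)) := by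
  filter_upwards [avg_fin m c hf h2] with x hx
  refine ⟨((opF_meas hk c hf).comp measurable_prodMk_left).aestronglyMeasurable, ?_⟩
  rw [hasFiniteIntegral_iff_enorm]
  have h := opF_lint hk c hf x
  have h3 : ENNReal.ofReal κ ^ 2 * avg m c (fun y => ‖f y‖ₑ ^ 2) x < ⊤ :=
    ENNReal.mul_lt_top (by simp) hx
  have h4 := lt_of_le_of_lt h h3
  by_contra h5
  rw [not_lt, top_le_iff] at h5
  rw [h5] at h4
  simp at h4

/-! ### the operators on `L²` -/

theorem wn_one (φ : HS ι) : wn (fun _ => 1) φ = ‖φ‖ₑ ^ 2 := by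
  have h1 : ‖φ‖ₑ = eLpNorm φ 2 volume := Lp.enorm_def φ
  rw [h1, eLpNorm_eq_lintegral_rpow_enorm_toReal (by norm_num) (by norm_num), ← ENNReal.rpow_natCast,
    ← ENNReal.rpow_mul]
  simp [wn]

theorem lint_sq (φ : HS ι) : ∫⁻ x, ‖φ x‖ₑ ^ 2 = ‖φ‖ₑ ^ 2 := by
  rw [← wn_one]
  simp [wn]

theorem lint_sq_ne_top (φ : HS ι) : ∫⁻ x, ‖φ x‖ₑ ^ 2 ≠ ⊤ := by
  rw [lint_sq]; simp

theorem memLp_of_sq {f : (ι → ℝ) → ℂ} (hf : Measurable f) (h : ∫⁻ x, ‖f x‖ₑ ^ 2 ≠ ⊤) :
    MemLp f 2 volume := by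
  refine ⟨hf.aestronglyMeasurable, ?_⟩
  rw [eLpNorm_lt_top_iff_lintegral_rpow_enorm_lt_top (by norm_num) (by norm_num)]
  simpa using lt_top_iff_ne_top.2 h

theorem meas_coe (φ : HS ι) : Measurable (φ : (ι → ℝ) → ℂ) := (Lp.stronglyMeasurable φ).measurable

theorem opF_sq_int (hk : IsKer m κ k) (c : ι) (φ : HS ι) :
    ∫⁻ x, ‖opF k c φ x‖ₑ ^ 2 ≤ ENNReal.ofReal κ ^ 2 * ‖φ‖ₑ ^ 2 := by
  have h := opF_wsq_le hk c (meas_coe φ) (G := fun _ => 1) measurable_const
  simpa [avg_one, lint_sq] using h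

theorem opF_memLp (hk : IsKer m κ k) (c : ι) (φ : HS ι) : MemLp (opF k c φ) 2 volume := by
  refine memLp_of_sq (opF_measurable hk c (meas_coe φ)) ?_
  refine ne_top_of_le_ne_top ?_ (opF_sq_int hk c φ)
  exact ENNReal.mul_ne_top (by simp) (by simp)

theorem enorm_toLp {f : (ι → ℝ) → ℂ} (hf : MemLp f 2 volume) :
    ‖hf.toLp f‖ₑ ^ 2 = ∫⁻ x, ‖f x‖ₑ ^ 2 := by
  rw [← lint_sq]
  refine lintegral_congr_ae ?_
  filter_upwards [hf.coeFn_toLp] with x hx
  rw [hx]

theorem norm_le_of_sq {φ : HS ι} {ψ : HS ι} {C : ℝ} (hC : 0 ≤ C)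
    (h : ‖φ‖ₑ ^ 2 ≤ ENNReal.ofReal C ^ 2 * ‖ψ‖ₑ ^ 2) : ‖φ‖ ≤ C * ‖ψ‖ := by
  have h1 : ‖φ‖ₑ ≤ ENNReal.ofReal C * ‖ψ‖ₑ := by
    rw [← mul_pow] at h
    exact (ENNReal.pow_le_pow_left_iff (by norm_num)).1 h
  have h2 := ENNReal.toReal_mono (by finiteness) h1
  simpa [hC] using h2

/-- The kernel operator on `L²`. -/
def op (hk : IsKer m κ k) (c : ι) : HS ι →L[ℂ] HS ι :=
  LinearMap.mkContinuous
    { toFun := fun φ => (opF_memLp hk c φ).toLp (opF k c φ)
      map_add' := by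
        intro φ ψ
        rw [← MemLp.toLp_add]
        apply MemLp.toLp_congr
        have h1 := opF_congr (k := k) c (Lp.coeFn_add φ ψ)
        filter_upwards [h1, opF_int hk c (meas_coe φ) (lint_sq_ne_top φ),
          opF_int hk c (meas_coe ψ) (lint_sq_ne_top ψ)] with x hx h2 h3
        rw [hx, Pi.add_apply]
        unfold opF
        rw [← integral_add h2 h3]
        refine integral_congr_ae (Eventually.of_forall fun t => ?_)
        simp only [Pi.add_apply]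
        ring
      map_smul' := by
        intro a φ
        rw [RingHom.id_apply, ← MemLp.toLp_const_smul]
        apply MemLp.toLp_congr
        have h1 := opF_congr (k := k) c (Lp.coeFn_smul a φ)
        filter_upwards [h1] with x hx
        rw [hx, Pi.smul_apply]
        unfold opF
        rw [← integral_smul]
        refine integral_congr_ae (Eventually.of_forall fun t => ?_)
        simp only [Pi.smul_apply, smul_eq_mul]
        ring } κ
    (by
      intro φ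
      refine norm_le_of_sq hk.nonneg ?_
      simp only [LinearMap.coe_mk, AddHom.coe_mk]
      rw [enorm_toLp]
      exact opF_sq_int hk c φ)

theorem op_coe (hk : IsKer m κ k) (c : ι) (φ : HS ι) :
    (op hk c φ : (ι → ℝ) → ℂ) =ᵐ[volume] opF k c φ :=
  (opF_memLp hk c φ).coeFn_toLp

theorem op_wn (hk : IsKer m κ k) (c : ι) (φ : HS ι) {G : (ι → ℝ) → ℝ≥0∞} (hG : Measurable G) :
    wn G (op hk c φ) ≤ ENNReal.ofReal κ ^ 2 * wn (avg m c G) φ := by
  refine le_trans (le_of_eq ?_) (opF_wsq_le hk c (meas_coe φ) hG)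
  refine lintegral_congr_ae ?_
  filter_upwards [op_coe hk c φ] with x hx
  rw [hx]

end Pool.Agent.T6.H42
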