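import Pool.Agent.T6.H42.Ker1

set_option autoImplicit false
set_option linter.unusedSectionVars false

noncomputable section

namespace Pool.Agent.T6.H42

open MeasureTheory Function Filter
open scoped ENNReal

variable {ι : Type} [DecidableEq ι] [Fintype ι]
variable {m m1 m2 m3 : ℕ} {κ κ1 κ2 κ3 : ℝ} {k k1 k2 k3 : ℝ → ℝ → ℝ}

theorem avg_add_le (m : ℕ) (c : ι) (G : (ι → ℝ) → ℝ≥0∞) (x : ι → ℝ) :
    avg m c (fun y => 1 + G y) x = 1 + avg m c G x := by
  unfold avg
  simp_rw [mul_add, mul_one]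
  rw [lintegral_add_left, lint_kbox]
  exact (meas_kbox m).comp measurable_prodMk_left

theorem avg2_fin (m1 m2 : ℕ) (c c' : ι) {f : (ι → ℝ) → ℂ} (hf : Measurable f)
    (h2 : ∫⁻ x, ‖f x‖ₑ ^ 2 ≠ ⊤) :
    ∀ᵐ x, avg m1 c (avg m2 c' (fun y => ‖f y‖ₑ)) x < ⊤ := by
  have hm1 : Measurable fun y => ‖f y‖ₑ ^ 2 := hf.enorm.pow_const 2
  have h1 : ∀ᵐ x, avg m1 c (avg m2 c' (fun y => ‖f y‖ₑ ^ 2)) x < ⊤ := by
    refine ae_lt_top (meas_avg m1 c (meas_avg m2 c' hm1)) ?_
    rw [avg_int m1 c (meas_avg m2 c' hm1), avg_int m2 c' hm1]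
    exact h2
  filter_upwards [h1] with x hx
  have h3 : ∀ a : ℝ≥0∞, a ≤ 1 + a ^ 2 := by
    intro a
    rcases le_total a 1 with h | h
    · exact h.trans le_self_add
    · calc a = a ^ 1 := (pow_one a).symm
        _ ≤ a ^ 2 := pow_le_pow_right₀ h (by norm_num)
        _ ≤ _ := le_add_self
  have h4 : avg m1 c (avg m2 c' (fun y => ‖f y‖ₑ)) x ≤
      avg m1 c (fun y => 1 + avg m2 c' (fun y => ‖f y‖ₑ ^ 2) y) x := by
    refine avg_mono _ _ (fun y => ?_) x
    rw [← avg_add_le m2 c' _ y]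
    exact avg_mono _ _ (fun z => h3 _) y
  rw [avg_add_le m1 c] at h4
  exact lt_of_le_of_lt h4 (by simp [hx])

theorem dbl_meas (h1 : IsKer m1 κ1 k1) (h2 : IsKer m2 κ2 k2) (c c' : ι) {f : (ι → ℝ) → ℂ}
    (hf : Measurable f) (x : ι → ℝ) :
    Measurable (uncurry fun t u : ℝ => (k1 (x c) t : ℂ) *
      ((k2 (update x c t c') u : ℂ) * f (update (update x c t) c' u))) := by
  have e1 : Measurable fun p : ℝ × ℝ => (update x c p.1, p.2) :=
    ((meas_upd' x c).comp measurable_fst).prodMk measurable_snd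
  have e2 := (opF_meas h2 c' hf).comp e1
  refine Measurable.mul ?_ e2
  exact Complex.measurable_ofReal.comp
    (h1.meas.comp (f := fun p : ℝ × ℝ => (x c, p.1)) (by fun_prop))

theorem dbl_int (h1 : IsKer m1 κ1 k1) (h2 : IsKer m2 κ2 k2) (c c' : ι) {f : (ι → ℝ) → ℂ}
    (hf : Measurable f) (hf2 : ∫⁻ x, ‖f x‖ₑ ^ 2 ≠ ⊤) :
    ∀ᵐ x : ι → ℝ, Integrable (uncurry fun t u : ℝ => (k1 (x c) t : ℂ) *
      ((k2 (update x c t c') u : ℂ) * f (update (update x c t) c' u)))
      ((volume : Measure ℝ).prod (volume : Measure ℝ)) := by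
  filter_upwards [avg2_fin m1 m2 c c' hf hf2] with x hx
  have hm := dbl_meas h1 h2 c c' hf x
  refine ⟨hm.aestronglyMeasurable, ?_⟩
  rw [hasFiniteIntegral_iff_enorm]
  rw [lintegral_prod _ hm.enorm.aemeasurable]
  have h3 : ∫⁻ t, ∫⁻ u, ‖uncurry (fun t u : ℝ => (k1 (x c) t : ℂ) *
      ((k2 (update x c t c') u : ℂ) * f (update (update x c t) c' u))) (t, u)‖ₑ ≤
      ∫⁻ t, ENNReal.ofReal κ1 * (ENNReal.ofReal κ2 * (kbox m1 (x c) t *
        avg m2 c' (fun y => ‖f y‖ₑ) (update x c t))) := by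
    refine lintegral_mono fun t => ?_
    unfold avg
    rw [← lintegral_const_mul, ← lintegral_const_mul, ← lintegral_const_mul]
    · refine lintegral_mono fun u => ?_
      simp only [uncurry_apply_pair]
      rw [enorm_mul, enorm_mul]
      calc _ ≤ (ENNReal.ofReal κ1 * kbox m1 (x c) t) *
          ((ENNReal.ofReal κ2 * kbox m2 (update x c t c') u) *
            ‖f (update (update x c t) c' u)‖ₑ) := by
            gcongr
            · exact h1.enorm _ _
            · exact h2.enorm _ _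
        _ = _ := by ring
    all_goals
      first
      | exact (((meas_kbox m2).comp measurable_prodMk_left).mul
          (hf.comp (meas_upd' _ c')).enorm)
      | exact (((meas_kbox m2).comp measurable_prodMk_left).mul
          (hf.comp (meas_upd' _ c')).enorm).const_mul _
      | exact ((((meas_kbox m2).comp measurable_prodMk_left).mul
          (hf.comp (meas_upd' _ c')).enorm).const_mul _).const_mul _
  refine lt_of_le_of_lt h3 ?_
  have hm3 : Measurable fun t => kbox m1 (x c) t *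
        avg m2 c' (fun y => ‖f y‖ₑ) (update x c t) :=
    ((meas_kbox m1).comp measurable_prodMk_left).mul
      ((meas_avg m2 c' hf.enorm).comp (meas_upd' x c))
  rw [lintegral_const_mul _ (hm3.const_mul _), lintegral_const_mul _ hm3]
  exact ENNReal.mul_lt_top (by simp) (ENNReal.mul_lt_top (by simp) hx)

/-- composition in the same coordinate -/
theorem op_comp (h1 : IsKer m1 κ1 k1) (h2 : IsKer m2 κ2 k2) (h3 : IsKer m3 κ3 k3)
    (hc : ∀ s u, ∫ t, k1 s t * k2 t u = k3 s u) (c : ι) (φ : HS ι) :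
    op h1 c (op h2 c φ) = op h3 c φ := by
  apply Lp.ext
  filter_upwards [op_coe h1 c (op h2 c φ), opF_congr (k := k1) c (op_coe h2 c φ),
    op_coe h3 c φ, dbl_int h1 h2 c c (meas_coe φ) (lint_sq_ne_top φ)] with x e1 e2 e3 hi
  rw [e1, e2, e3]
  unfold opF
  simp_rw [← integral_const_mul]
  rw [integral_integral_swap hi]
  refine integral_congr_ae (Eventually.of_forall fun u => ?_)
  simp only [update_self, update_idem]
  rw [← hc (x c) u, ← integral_complex_ofReal, ← integral_mul_const]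
  refine integral_congr_ae (Eventually.of_forall fun t => ?_)
  simp only
  push_cast
  ring

/-- operators in different coordinates commute -/
theorem op_comm (h1 : IsKer m1 κ1 k1) (h2 : IsKer m2 κ2 k2) {c c' : ι} (hcc : c ≠ c')
    (φ : HS ι) : op h1 c (op h2 c' φ) = op h2 c' (op h1 c φ) := by
  apply Lp.ext
  filter_upwards [op_coe h1 c (op h2 c' φ), opF_congr (k := k1) c (op_coe h2 c' φ),
    op_coe h2 c' (op h1 c φ), opF_congr (k := k2) c' (op_coe h1 c φ),
    dbl_int h1 h2 c c' (meas_coe φ) (lint_sq_ne_top φ)] with x e1 e2 e3 e4 hi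
  rw [e1, e2, e3, e4]
  unfold opF
  simp_rw [← integral_const_mul]
  rw [integral_integral_swap hi]
  refine integral_congr_ae (Eventually.of_forall fun u => ?_)
  refine integral_congr_ae (Eventually.of_forall fun t => ?_)
  simp only [update_of_ne hcc.symm, update_of_ne hcc]
  rw [update_comm hcc]
  ring

theorem op_adj (hk : IsKer m κ k) (c : ι) (φ ψ : HS ι) :
    inner ℂ (op hk c φ) ψ = inner ℂ φ (op hk c ψ) := by
  rw [L2.inner_def, L2.inner_def]
  set Φ : (ι → ℝ) × ℝ → ℂ := fun p => (k (p.1 c) p.2 : ℂ) *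
    (starRingEnd ℂ (φ (update p.1 c p.2)) * ψ p.1) with hΦ
  have hΦm : Measurable Φ := by
    refine Measurable.mul (Complex.measurable_ofReal.comp ?_) ?_
    · exact hk.meas.comp (f := fun p : (ι → ℝ) × ℝ => (p.1 c, p.2)) (by fun_prop)
    · exact (Complex.continuous_conj.measurable.comp ((meas_coe φ).comp (meas_upd c))).mul
        ((meas_coe ψ).comp measurable_fst)
  have hΦi : Integrable Φ ((volume : Measure (ι → ℝ)).prod (volume : Measure ℝ)) := by
    refine ⟨hΦm.aestronglyMeasurable, ?_⟩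
    rw [hasFiniteIntegral_iff_enorm, lintegral_prod _ hΦm.enorm.aemeasurable]
    have h3 : ∫⁻ x : ι → ℝ, ∫⁻ t : ℝ, ‖Φ (x, t)‖ₑ ≤ ∫⁻ x : ι → ℝ, ENNReal.ofReal κ *
        (avg m c (fun y => ‖φ y‖ₑ ^ 2) x + ‖ψ x‖ₑ ^ 2) := by
      refine lintegral_mono fun x => ?_
      have e1 : ‖ψ x‖ₑ ^ 2 = ∫⁻ t, kbox m (x c) t * ‖ψ x‖ₑ ^ 2 :=
        (avg_one m c (‖ψ x‖ₑ ^ 2) x).symm
      have hm1 : Measurable fun t => kbox m (x c) t * ‖φ (update x c t)‖ₑ ^ 2 :=
        ((meas_kbox m).comp measurable_prodMk_left).mul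
          (((meas_coe φ).comp (meas_upd' _ c)).enorm.pow_const 2)
      have hm2 : Measurable fun t => kbox m (x c) t * ‖ψ x‖ₑ ^ 2 :=
        ((meas_kbox m).comp measurable_prodMk_left).mul_const _
      have hm12 : Measurable fun t => kbox m (x c) t * ‖φ (update x c t)‖ₑ ^ 2 +
        kbox m (x c) t * ‖ψ x‖ₑ ^ 2 := hm1.add hm2
      rw [e1]
      unfold avg
      rw [← lintegral_add_left hm1, ← lintegral_const_mul _ hm12]
      refine lintegral_mono fun t => ?_
      simp only [hΦ]
      rw [enorm_mul, enorm_mul, RCLike.enorm_conj]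
      have h4 : ∀ a b : ℝ≥0∞, a * b ≤ a ^ 2 + b ^ 2 := by
        intro a b
        rcases le_total a b with h | h
        · calc a * b ≤ b * b := by gcongr
            _ = b ^ 2 := (sq b).symm
            _ ≤ _ := le_add_self
        · calc a * b ≤ a * a := by gcongr
            _ = a ^ 2 := (sq a).symm
            _ ≤ _ := le_self_add
      calc _ ≤ (ENNReal.ofReal κ * kbox m (x c) t) *
          (‖φ (update x c t)‖ₑ ^ 2 + ‖ψ x‖ₑ ^ 2) := by
            gcongr
            · exact hk.enorm _ _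
            · exact h4 _ _
        _ = _ := by ring
    refine lt_of_le_of_lt h3 ?_
    have hm4 : Measurable (avg m c (fun y => ‖φ y‖ₑ ^ 2)) :=
      meas_avg m c ((meas_coe φ).enorm.pow_const 2)
    have hm5 : Measurable fun x => avg m c (fun y => ‖φ y‖ₑ ^ 2) x + ‖ψ x‖ₑ ^ 2 :=
      hm4.add ((meas_coe ψ).enorm.pow_const 2)
    rw [lintegral_const_mul _ hm5, lintegral_add_left hm4, avg_int m c ((meas_coe φ).enorm.pow_const 2), lint_sq, lint_sq]
    finiteness
  have e1 : ∫ x, inner ℂ (op hk c φ x) (ψ x) = ∫ x : ι → ℝ, ∫ t : ℝ, Φ (x, t) := by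
    refine integral_congr_ae ?_
    filter_upwards [op_coe hk c φ] with x hx
    rw [hx, RCLike.inner_apply]
    unfold opF
    rw [← integral_conj, ← integral_const_mul]
    refine integral_congr_ae (Eventually.of_forall fun t => ?_)
    simp only [hΦ, map_mul, Complex.conj_ofReal]
    ring
  have e2 : ∫ x, inner ℂ (φ x) (op hk c ψ x) =
      ∫ x : ι → ℝ, ∫ t : ℝ, Φ (update x c t, x c) := by
    refine integral_congr_ae ?_
    filter_upwards [op_coe hk c ψ] with x hx
    rw [hx, RCLike.inner_apply]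
    unfold opF
    rw [← integral_mul_const]
    refine integral_congr_ae (Eventually.of_forall fun t => ?_)
    simp only [hΦ, update_self, update_idem, update_eq_self]
    rw [hk.symm t (x c)]
    ring
  have hΦi2 : Integrable (fun p : (ι → ℝ) × ℝ => Φ (update p.1 c p.2, p.1 c))
      ((volume : Measure (ι → ℝ)).prod (volume : Measure ℝ)) :=
    (swp_mp c).integrable_comp_of_integrable hΦi
  rw [e1, e2, ← integral_prod _ hΦi, ← integral_prod _ hΦi2]
  have h5 := (swp_mp (ι := ι) c).map_eq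
  have h6 := integral_map (μ := (volume : Measure ((ι → ℝ) × ℝ)))
    (swp_mp (ι := ι) c).measurable.aemeasurable (f := Φ) (hΦm.aestronglyMeasurable)
  rw [h5, Measure.volume_eq_prod] at h6
  exact h6

/-! ### indicators -/

theorem ind_memLp {S : Set (ι → ℝ)} (hS : MeasurableSet S) (φ : HS ι) :
    MemLp (S.indicator φ) 2 volume := (Lp.memLp φ).indicator hS

/-- Multiplication by the indicator of a measurable set. -/
def ind (S : Set (ι → ℝ)) (hS : MeasurableSet S) : HS ι →L[ℂ] HS ι :=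
  LinearMap.mkContinuous
    { toFun := fun φ => (ind_memLp hS φ).toLp (S.indicator φ)
      map_add' := by
        intro φ ψ
        rw [← MemLp.toLp_add]
        apply MemLp.toLp_congr
        filter_upwards [Lp.coeFn_add φ ψ] with x hx
        rw [Pi.add_apply] at hx ⊢
        by_cases h : x ∈ S
        · rw [Set.indicator_of_mem h, Set.indicator_of_mem h, Set.indicator_of_mem h, hx]
        · rw [Set.indicator_of_notMem h, Set.indicator_of_notMem h, Set.indicator_of_notMem h,
            add_zero]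
      map_smul' := by
        intro a φ
        rw [RingHom.id_apply, ← MemLp.toLp_const_smul]
        apply MemLp.toLp_congr
        filter_upwards [Lp.coeFn_smul a φ] with x hx
        rw [Pi.smul_apply] at hx ⊢
        by_cases h : x ∈ S
        · rw [Set.indicator_of_mem h, Set.indicator_of_mem h, hx]
        · rw [Set.indicator_of_notMem h, Set.indicator_of_notMem h, smul_zero] } 1
    (by
      intro φ
      refine norm_le_of_sq zero_le_one ?_
      simp only [LinearMap.coe_mk, AddHom.coe_mk]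
      rw [enorm_toLp, ENNReal.ofReal_one, one_pow, one_mul, ← lint_sq]
      refine lintegral_mono fun x => ?_
      by_cases h : x ∈ S <;> simp [h])

theorem ind_coe {S : Set (ι → ℝ)} (hS : MeasurableSet S) (φ : HS ι) :
    (ind S hS φ : (ι → ℝ) → ℂ) =ᵐ[volume] S.indicator φ :=
  (ind_memLp hS φ).coeFn_toLp

theorem ind_wn {S : Set (ι → ℝ)} (hS : MeasurableSet S) (φ : HS ι) (G : (ι → ℝ) → ℝ≥0∞) :
    wn G (ind S hS φ) = wn (S.indicator G) φ := by
  refine lintegral_congr_ae ?_
  filter_upwards [ind_coe hS φ] with x hx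
  rw [hx]
  by_cases h : x ∈ S <;> simp [h]

theorem ind_sq {S : Set (ι → ℝ)} (hS : MeasurableSet S) (φ : HS ι) :
    ‖ind S hS φ‖ₑ ^ 2 = wn (S.indicator fun _ => 1) φ := by
  rw [← wn_one, ind_wn]

theorem ind_ind {S T : Set (ι → ℝ)} (hS : MeasurableSet S) (hT : MeasurableSet T) (φ : HS ι) :
    ind S hS (ind T hT φ) = ind (S ∩ T) (hS.inter hT) φ := by
  apply Lp.ext
  filter_upwards [ind_coe hS (ind T hT φ), ind_coe hT φ, ind_coe (hS.inter hT) φ]
    with x e1 e2 e3
  rw [e1, e3]
  by_cases h : x ∈ S <;> by_cases h' : x ∈ T <;> simp [h, h', e2]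

theorem ind_adj {S : Set (ι → ℝ)} (hS : MeasurableSet S) (φ ψ : HS ι) :
    inner ℂ (ind S hS φ) ψ = inner ℂ φ (ind S hS ψ) := by
  rw [L2.inner_def, L2.inner_def]
  refine integral_congr_ae ?_
  filter_upwards [ind_coe hS φ, ind_coe hS ψ] with x e1 e2
  rw [e1, e2]
  by_cases h : x ∈ S <;> simp [h]

theorem op_ind (hk : IsKer m κ k) (c : ι) {S : Set (ι → ℝ)} (hS : MeasurableSet S)
    (hsat : ∀ (x : ι → ℝ) (t : ℝ), cel m (x c) = cel m t → (update x c t ∈ S ↔ x ∈ S))
    (φ : HS ι) : op hk c (ind S hS φ) = ind S hS (op hk c φ) := by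
  apply Lp.ext
  filter_upwards [op_coe hk c (ind S hS φ), opF_congr (k := k) c (ind_coe hS φ),
    ind_coe hS (op hk c φ), op_coe hk c φ] with x e1 e2 e3 e4
  rw [e1, e2, e3]
  have h1 : ∀ t, (k (x c) t : ℂ) * S.indicator φ (update x c t) =
      S.indicator (fun _ => 1) x * ((k (x c) t : ℂ) * φ (update x c t)) := by
    intro t
    by_cases hc : cel m (x c) = cel m t
    · have h2 := hsat x t hc
      by_cases h : x ∈ S
      · simp [h, h2.2 h]
      · have h3 : update x c t ∉ S := fun h4 => h (h2.1 h4)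
        simp [h, h3]
    · have h2 := hk.bound (x c) t
      rw [if_neg hc] at h2
      have h3 : k (x c) t = 0 := by
        rw [← abs_eq_zero]; exact le_antisymm h2 (abs_nonneg _)
      simp [h3]
  unfold opF
  simp_rw [h1]
  rw [integral_const_mul]
  by_cases h : x ∈ S
  · simp only [h, Set.indicator_of_mem, one_mul]
    rw [e4]; rfl
  · simp [h]

end Pool.Agent.T6.H42
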