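import Pool.Agent.T6.H42.StepD1

set_option autoImplicit false
set_option linter.unusedSectionVars false

noncomputable section

namespace Pool.Agent.T6.H42

open MeasureTheory Function Filter Topology
open scoped ENNReal

variable {N : ℕ} {θ : ℕ → ℝ} {m0 : ℕ}

/-- the fraction of the bad set in the cubes of level `m` -/
def Wb (N : ℕ) (θ : ℕ → ℝ) (n m : ℕ) : ℝ := min 1 (54 * N / θ n * (8 ^ m / 8 ^ n))

theorem Wb_nonneg (n m : ℕ) (hθ2 : 2 ≤ θ n) : 0 ≤ Wb N θ n m := by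
  unfold Wb
  have : 0 < θ n := by linarith
  exact le_min zero_le_one (by positivity)

theorem bad_PP (k m n : ℕ) (i : Fin N) (hθ2 : 2 ≤ θ n) (φ : HS (Fin N × Fin 3)) :
    ‖ind (bad θ n i) (meas_bad θ n i) (PP k m i φ)‖ ^ 2 ≤ KK k * Wb N θ n m * ‖φ‖ ^ 2 := by
  have hκ := kap_pos k
  have hW := Wb_nonneg (N := N) n m hθ2
  apply sq_of_enorm (by unfold KK; positivity)
  rw [ind_sq]
  have hB : ∀ x, avg3 m i ((bad θ n i).indicator fun _ => 1) x ≤ ENNReal.ofReal (Wb N θ n m) := by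
    intro x
    unfold Wb
    rw [ENNReal.ofReal_min, ENNReal.ofReal_one]
    refine le_min (avg3_le_one m i _ (fun y => ?_) x) (avg3_bad m n i hθ2 x)
    by_cases h : y ∈ bad θ n i <;> simp [h]
  refine (PP_wn_le k m i φ (measurable_const.indicator (meas_bad θ n i)) _ hB).trans ?_
  rw [← mul_assoc]
  gcongr
  rw [← ENNReal.ofReal_pow hκ.le, ← ENNReal.ofReal_mul (by positivity)]
  apply ENNReal.ofReal_le_ofReal
  unfold KK
  have : 0 ≤ kap k ^ 6 := by positivity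
  nlinarith

theorem bad_empty (n : ℕ) (i : Fin N) (h : (N : ℝ) < θ n) : bad θ n i = ∅ := by
  ext x
  simp only [Set.mem_empty_iff_false, iff_false]
  intro hx
  apply hx
  intro q' _
  have h1 : cnt n q' x ≤ N := by
    unfold cnt
    refine (Finset.card_filter_le _ _).trans ?_
    simp
  have h2 : (cnt n q' x : ℝ) ≤ N := by exact_mod_cast h1
  exact h2.trans h.le

theorem ind_empty {S : Set (Fin N × Fin 3 → ℝ)} (hS : MeasurableSet S) (h : S = ∅)
    (v : HS (Fin N × Fin 3)) : ind S hS v = 0 := by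
  subst h
  apply Lp.ext
  filter_upwards [ind_coe hS v, Lp.coeFn_zero ℂ 2 (volume : Measure (Fin N × Fin 3 → ℝ))]
    with x h3 h4
  rw [h3, h4]
  simp

theorem geo_le2 (d : ℝ) (h1 : 1 < d) (m0 n : ℕ) :
    ∑ m ∈ Finset.Icc m0 n, (d ^ (m - m0))⁻¹ ≤ (1 - d⁻¹)⁻¹ := by
  have hd : 0 < d := by linarith
  have hd0 : 0 ≤ d⁻¹ := by positivity
  have hd1 : d⁻¹ < 1 := inv_lt_one_of_one_lt₀ h1
  rw [← tsum_geometric_of_lt_one hd0 hd1]
  have e1 : ∑ m ∈ Finset.Icc m0 n, (d ^ (m - m0))⁻¹ =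
      ∑ l ∈ (Finset.Icc m0 n).image (fun m => m - m0), (d⁻¹) ^ l := by
    rw [Finset.sum_image]
    · refine Finset.sum_congr rfl fun m _ => ?_
      rw [inv_pow]
    · intro a ha b hb hab
      simp only [Finset.coe_Icc, Set.mem_Icc] at ha hb
      simp only at hab
      omega
  rw [e1]
  exact (summable_geometric_of_lt_one hd0 hd1).sum_le_tsum _ fun _ _ => by positivity

/-- a constant -/
def CD (k : ℕ) (d : ℝ) : ℝ := 16 * K1 k * (1 - d⁻¹)⁻¹

theorem bad_bound (k : ℕ) (hk : 0 < k) (i : Fin N) (φ : HS (Fin N × Fin 3)) (d : ℝ) (hd : 1 < d)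
    {n : ℕ} (hn : m0 ≤ n) (hθ2 : 2 ≤ θ n) :
    ‖ind (bad θ n i) (meas_bad θ n i) φ‖ ^ 2 ≤ 2 * KK k * Wb N θ n m0 * ‖φ‖ ^ 2 +
      CD k d * ∑ m ∈ Finset.Icc m0 n, d ^ (m - m0) * Wb N θ n m * ‖φ - PP k m i φ‖ ^ 2 := by
  have hK1 := K1_pos k
  have hKK := KK_pos k
  have hd0 : 0 < d := by linarith
  have hdi : 0 < (1 - d⁻¹)⁻¹ := inv_pos.2 (by linarith [inv_lt_one_of_one_lt₀ hd])
  have hW0 : ∀ m, 0 ≤ Wb N θ n m := fun m => Wb_nonneg n m hθ2
  have hsum0 : 0 ≤ ∑ m ∈ Finset.Icc m0 n, d ^ (m - m0) * Wb N θ n m * ‖φ - PP k m i φ‖ ^ 2 :=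
    Finset.sum_nonneg fun m _ => by have := hW0 m; positivity
  by_cases hN : (N : ℝ) < θ n
  · rw [ind_empty _ (bad_empty n i hN)]
    have h1 := hW0 m0
    unfold CD
    rw [norm_zero, zero_pow two_ne_zero]
    positivity
  · push Not at hN
    have hθp : 0 < θ n := by linarith
    have h1 := tele_bound k hk i φ (ind (bad θ n i) (meas_bad θ n i)) (fun φ => ind_norm_le _ φ)
      (fun m => Wb N θ n m) (fun m => d ^ (m - m0)) hW0 ?_ (fun m => by positivity) hn
      (fun m φ => bad_PP k m n i hθ2 φ) ?_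
    · refine h1.trans ?_
      have e2 : ∑ m ∈ Finset.Icc m0 n, 8 * K1 k * Wb N θ n m * d ^ (m - m0) *
          ‖φ - PP k m i φ‖ ^ 2 = 8 * K1 k *
          ∑ m ∈ Finset.Icc m0 n, d ^ (m - m0) * Wb N θ n m * ‖φ - PP k m i φ‖ ^ 2 := by
        rw [Finset.mul_sum]
        refine Finset.sum_congr rfl fun m _ => ?_
        ring
      rw [e2]
      refine add_le_add (le_of_eq (by ring)) ?_
      unfold CD
      have h3 := geo_le2 d hd m0 n
      calc 2 * ((∑ m ∈ Finset.Icc m0 n, (d ^ (m - m0))⁻¹) * (8 * K1 k *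
            ∑ m ∈ Finset.Icc m0 n, d ^ (m - m0) * Wb N θ n m * ‖φ - PP k m i φ‖ ^ 2)) ≤
            2 * ((1 - d⁻¹)⁻¹ * (8 * K1 k *
            ∑ m ∈ Finset.Icc m0 n, d ^ (m - m0) * Wb N θ n m * ‖φ - PP k m i φ‖ ^ 2)) := by
            gcongr
        _ = _ := by ring
    · intro m
      unfold Wb
      rw [pow_succ]
      have h4 : 0 ≤ 54 * N / θ n * (8 ^ m / 8 ^ n) := by positivity
      rcases le_total 1 (54 * N / θ n * (8 ^ m / 8 ^ n)) with h | h
      · rw [min_eq_left h]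
        refine (min_le_left _ _).trans (by norm_num)
      · rw [min_eq_right h]
        refine (min_le_right _ _).trans (le_of_eq ?_)
        ring
    · simp only [Wb]
      rw [div_self (by positivity), mul_one]
      refine le_min le_rfl ?_
      rw [le_div_iff₀ hθp]
      have : (0 : ℝ) ≤ N := by positivity
      linarith

/-- the sum over the finer levels -/
def Zs (N : ℕ) (θ : ℕ → ℝ) (m : ℕ) : ℝ≥0∞ :=
  ∑' n : ℕ, (if m ≤ n then ENNReal.ofReal (2 ^ (n + 1) * Wb N θ n m) else 0)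

theorem lev_weight (hθ : ∃ m, m0 ≤ m ∧ (N : ℝ) ≤ θ m) (i : Fin N) (x : Fin N × Fin 3 → ℝ) :
    ENNReal.ofReal (2 ^ (lev θ m0 i x)) ≤ ENNReal.ofReal (2 ^ m0) +
      ∑' n : ℕ, (if m0 ≤ n then ENNReal.ofReal (2 ^ (n + 1)) else 0) *
        (bad θ n i).indicator (fun _ => 1) x := by
  have h1 := lev_mem hθ i x
  rcases h1.1.eq_or_lt with h | h
  · rw [← h]; exact le_self_add
  · refine le_trans ?_ le_add_self
    obtain ⟨n, hn⟩ := Nat.exists_eq_succ_of_ne_zero (by omega : lev θ m0 i x ≠ 0)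
    have h2 : m0 ≤ n := by omega
    have h3 : x ∈ bad θ n i := by
      intro hg
      have := lev_le h2 hg
      omega
    refine le_trans (le_of_eq ?_) (ENNReal.le_tsum n)
    rw [if_pos h2, Set.indicator_of_mem h3, mul_one, hn]

/-- Step D. -/
theorem stepD (k : ℕ) (hk : 0 < k) (hθ : ∃ m, m0 ≤ m ∧ (N : ℝ) ≤ θ m)
    (hθ2 : ∀ m, m0 ≤ m → 2 ≤ θ m) (i : Fin N) (φ : HS (Fin N × Fin 3)) (d : ℝ) (hd : 1 < d) :
    ∫⁻ x, ENNReal.ofReal (2 ^ (lev θ m0 i x)) * ‖φ x‖ₑ ^ 2 ≤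
      (ENNReal.ofReal (2 ^ m0) + ENNReal.ofReal (2 * KK k) * Zs N θ m0) * ‖φ‖ₑ ^ 2 +
      ENNReal.ofReal (CD k d) * ∑' m, (if m0 ≤ m then
        ENNReal.ofReal (d ^ (m - m0)) * Zs N θ m * ‖φ - PP k m i φ‖ₑ ^ 2 else 0) := by
  have hK1 := K1_pos k
  have hKK := KK_pos k
  have hd0 : 0 < d := by linarith
  have hCD : 0 ≤ CD k d := by
    unfold CD
    have hdi : 0 < (1 - d⁻¹)⁻¹ := inv_pos.2 (by linarith [inv_lt_one_of_one_lt₀ hd])
    positivity
  have hmb : ∀ n, Measurable ((bad θ n i).indicator (fun _ => (1 : ℝ≥0∞))) := fun n =>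
    measurable_const.indicator (meas_bad θ n i)
  have hmφ : Measurable fun x => ‖φ x‖ₑ ^ 2 := (meas_coe φ).enorm.pow_const 2
  have hone : ∀ n, m0 ≤ n → ENNReal.ofReal (2 ^ (n + 1)) *
      ‖ind (bad θ n i) (meas_bad θ n i) φ‖ₑ ^ 2 ≤
      ENNReal.ofReal (2 * KK k) * ENNReal.ofReal (2 ^ (n + 1) * Wb N θ n m0) * ‖φ‖ₑ ^ 2 +
      ENNReal.ofReal (CD k d) * ∑' m, (if m0 ≤ m ∧ m ≤ n then ENNReal.ofReal (d ^ (m - m0)) *
        ENNReal.ofReal (2 ^ (n + 1) * Wb N θ n m) * ‖φ - PP k m i φ‖ₑ ^ 2 else 0) := by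
    intro n hn
    have h1 := bad_bound (N := N) (θ := θ) (m0 := m0) k hk i φ d hd hn (hθ2 n hn)
    have hW0 : ∀ m, 0 ≤ Wb N θ n m := fun m => Wb_nonneg n m (hθ2 n hn)
    have hW00 := hW0 m0
    have h2 := ENNReal.ofReal_le_ofReal h1
    rw [enorm_sq_ofReal'] at h2
    refine (mul_le_mul_right h2 _).trans ?_
    have hs0 : 0 ≤ ∑ m ∈ Finset.Icc m0 n, d ^ (m - m0) * Wb N θ n m * ‖φ - PP k m i φ‖ ^ 2 :=
      Finset.sum_nonneg fun m _ => by have := hW0 m; positivity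
    rw [ENNReal.ofReal_add (by positivity) (by positivity), mul_add]
    refine add_le_add (le_of_eq ?_) ?_
    · rw [← enorm_sq_ofReal', ← ENNReal.ofReal_mul (by positivity),
        ← ENNReal.ofReal_mul (by positivity), ← ENNReal.ofReal_mul (by positivity)]
      congr 1; ring
    · rw [ENNReal.ofReal_mul hCD, ← mul_assoc, mul_comm (ENNReal.ofReal (2 ^ (n + 1))), mul_assoc]
      gcongr
      rw [ENNReal.ofReal_sum_of_nonneg (fun m _ => by have := hW0 m; positivity), Finset.mul_sum]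
      refine le_trans (le_of_eq ?_) (ENNReal.sum_le_tsum (Finset.Icc m0 n))
      refine Finset.sum_congr rfl fun m hm => ?_
      rw [Finset.mem_Icc] at hm
      have hWm := hW0 m
      rw [if_pos hm, ← enorm_sq_ofReal', ← ENNReal.ofReal_mul (by positivity),
        ← ENNReal.ofReal_mul (by positivity), ← ENNReal.ofReal_mul (by positivity)]
      congr 1; ring
  calc _ ≤ ∫⁻ x, (ENNReal.ofReal (2 ^ m0) +
      ∑' n : ℕ, (if m0 ≤ n then ENNReal.ofReal (2 ^ (n + 1)) else 0) *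
        (bad θ n i).indicator (fun _ => 1) x) * ‖φ x‖ₑ ^ 2 := by
        refine lintegral_mono fun x => ?_
        gcongr
        exact lev_weight hθ i x
    _ = ENNReal.ofReal (2 ^ m0) * ‖φ‖ₑ ^ 2 + ∑' n : ℕ, (if m0 ≤ n then
        ENNReal.ofReal (2 ^ (n + 1)) else 0) * ‖ind (bad θ n i) (meas_bad θ n i) φ‖ₑ ^ 2 := by
        simp_rw [add_mul]
        rw [lintegral_add_left (hmφ.const_mul _), lintegral_const_mul _ hmφ, lint_sq]
        congr 1
        simp_rw [← ENNReal.tsum_mul_right]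
        rw [lintegral_tsum]
        · refine tsum_congr fun n => ?_
          simp_rw [mul_assoc]
          have hm2 : Measurable fun x => (bad θ n i).indicator (fun _ => (1 : ℝ≥0∞)) x *
              ‖φ x‖ₑ ^ 2 := (hmb n).mul hmφ
          rw [lintegral_const_mul _ hm2, ind_sq]
          rfl
        · intro n
          exact (((hmb n).const_mul _).mul hmφ).aemeasurable
    _ ≤ ENNReal.ofReal (2 ^ m0) * ‖φ‖ₑ ^ 2 + ∑' n : ℕ, ((if m0 ≤ n then
        ENNReal.ofReal (2 * KK k) * ENNReal.ofReal (2 ^ (n + 1) * Wb N θ n m0) * ‖φ‖ₑ ^ 2 else 0) +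
        ENNReal.ofReal (CD k d) * ∑' m, (if m0 ≤ m ∧ m ≤ n then ENNReal.ofReal (d ^ (m - m0)) *
        ENNReal.ofReal (2 ^ (n + 1) * Wb N θ n m) * ‖φ - PP k m i φ‖ₑ ^ 2 else 0)) := by
        gcongr with n
        split_ifs with h
        · exact hone n h
        · rw [zero_mul]; exact zero_le
    _ = _ := by
        rw [ENNReal.tsum_add, ENNReal.tsum_mul_left, ENNReal.tsum_comm, ← add_assoc, add_mul]
        congr 2
        · unfold Zs
          rw [← ENNReal.tsum_mul_left, ← ENNReal.tsum_mul_right]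
          refine tsum_congr fun n => ?_
          split_ifs
          · rfl
          · simp
        · refine tsum_congr fun m => ?_
          split_ifs with hm
          · unfold Zs
            rw [← ENNReal.tsum_mul_left, ← ENNReal.tsum_mul_right]
            refine tsum_congr fun n => ?_
            by_cases h : m ≤ n
            · rw [if_pos ⟨hm, h⟩, if_pos h]
            · rw [if_neg (fun h' => h h'.2), if_neg h]; simp
          · simp [hm]

end Pool.Agent.T6.H42
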