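import Pool.Agent.T6.H42.StepC3
import Pool.Agent.T6.H42.StepD2

set_option autoImplicit false
set_option linter.unusedSectionVars false

noncomputable section

namespace Pool.Agent.T6.H42

open MeasureTheory Function Filter Topology
open scoped ENNReal

variable {N : ℕ} {θ : ℕ → ℝ} {m0 : ℕ}

theorem ofReal_tsum_le {ι : Type*} {f : ι → ℝ} (hf : Summable f) :
    ENNReal.ofReal (∑' i, f i) ≤ ∑' i, ENNReal.ofReal (f i) := by
  have h1 : Summable fun i => max (f i) 0 := by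
    refine Summable.of_nonneg_of_le (fun i => le_max_right _ _) (fun i => ?_) hf.abs
    exact max_le (le_abs_self _) (abs_nonneg _)
  have h2 : ∑' i, f i ≤ ∑' i, max (f i) 0 :=
    hf.tsum_le_tsum (fun i => le_max_left _ _) h1
  refine (ENNReal.ofReal_le_ofReal h2).trans ?_
  rw [ENNReal.ofReal_tsum_of_nonneg (fun i => le_max_right _ _) h1]
  refine ENNReal.tsum_le_tsum fun i => ?_
  rcases le_total (f i) 0 with h | h
  · rw [max_eq_right h]; simp
  · rw [max_eq_left h]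

/-- the type of a configuration: all tiles -/
def ty (θ : ℕ → ℝ) (m0 : ℕ) (x : Fin N × Fin 3 → ℝ) : Fin N → ℕ × (Fin 3 → ℤ) :=
  fun i => (lev θ m0 i x, cell3 (lev θ m0 i x) x i)

/-- the possible types -/
def Ty (N : ℕ) (θ : ℕ → ℝ) (m0 : ℕ) : Type := Set.range (ty (N := N) θ m0)

instance : Countable (Ty N θ m0) := by
  unfold Ty
  infer_instance

/-- a representative -/
def rep (τ : Ty N θ m0) : Fin N × Fin 3 → ℝ := τ.2.choose

theorem rep_spec (τ : Ty N θ m0) : ty θ m0 (rep τ) = τ.1 := τ.2.choose_spec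

/-- the region of a type -/
def Rg (τ : Ty N θ m0) : Set (Fin N × Fin 3 → ℝ) := Om θ m0 (rep τ)

theorem meas_Rg (τ : Ty N θ m0) : MeasurableSet (Rg τ) := meas_Om _

theorem Rg_iff (hθ : ∃ m, m0 ≤ m ∧ (N : ℝ) ≤ θ m) (hmono : Monotone θ) (τ : Ty N θ m0)
    (x : Fin N × Fin 3 → ℝ) : x ∈ Rg τ ↔ ty θ m0 x = τ.1 := by
  rw [← rep_spec τ]
  constructor
  · intro h
    funext i
    have h1 := lev_eq hθ hmono h i
    unfold ty
    rw [h1, h i]
  · intro h i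
    have h1 := congrFun h i
    unfold ty at h1
    rw [Prod.mk.injEq] at h1
    rw [← h1.1, h1.2, h1.1]

theorem Rg_lev (hθ : ∃ m, m0 ≤ m ∧ (N : ℝ) ≤ θ m) (hmono : Monotone θ) (τ : Ty N θ m0)
    {x : Fin N × Fin 3 → ℝ} (hx : x ∈ Rg τ) (i : Fin N) :
    lev θ m0 i x = lev θ m0 i (rep τ) := lev_eq hθ hmono hx i

theorem Rg_disj (hθ : ∃ m, m0 ≤ m ∧ (N : ℝ) ≤ θ m) (hmono : Monotone θ) :
    Pairwise (Function.onFun Disjoint (Rg (N := N) (θ := θ) (m0 := m0))) := by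
  intro τ τ' h
  rw [Function.onFun, Set.disjoint_left]
  intro x hx hx'
  rw [Rg_iff hθ hmono] at hx hx'
  exact h (Subtype.ext (hx.symm.trans hx'))

theorem Rg_union (hθ : ∃ m, m0 ≤ m ∧ (N : ℝ) ≤ θ m) (hmono : Monotone θ) :
    ⋃ τ, Rg (N := N) (θ := θ) (m0 := m0) τ = Set.univ := by
  ext x
  simp only [Set.mem_iUnion, Set.mem_univ, iff_true]
  exact ⟨⟨ty θ m0 x, x, rfl⟩, (Rg_iff hθ hmono _ x).2 rfl⟩

theorem coulR_int {e : Fin N → ℝ} {φ : HS (Fin N × Fin 3)} (h : PairFin φ) :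
    Integrable fun x => coulR e x * ‖φ x‖ ^ 2 := by
  have h1 : ∀ x : Fin N × Fin 3 → ℝ, coulR e x * ‖φ x‖ ^ 2 =
      ∑ i, ∑ j ∈ Finset.univ.erase i, 1 / 2 * (e i * e j) *
        (1 / ‖pt x i - pt x j‖ * ‖φ x‖ ^ 2) := by
    intro x
    rw [coulR_eq, Finset.mul_sum, Finset.sum_mul]
    refine Finset.sum_congr rfl fun i _ => ?_
    rw [Finset.mul_sum, Finset.sum_mul]
    refine Finset.sum_congr rfl fun j _ => ?_
    ring
  simp_rw [h1]
  refine integrable_finsetSum _ fun i _ => integrable_finsetSum _ fun j hj => ?_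
  rw [Finset.mem_erase] at hj
  exact (h.int hj.1).const_mul _

theorem PairFin.ind {φ : HS (Fin N × Fin 3)} (h : PairFin φ) {S : Set (Fin N × Fin 3 → ℝ)}
    (hS : MeasurableSet S) : PairFin (ind S hS φ) := by
  intro i j hij
  refine ne_top_of_le_ne_top (h i j hij) ?_
  refine lintegral_mono_ae ?_
  filter_upwards [ind_coe hS φ] with x hx
  rw [hx]
  gcongr
  by_cases h : x ∈ S <;> simp [h]

theorem lint_ind {S : Set (Fin N × Fin 3 → ℝ)} (hS : MeasurableSet S) (φ : HS (Fin N × Fin 3))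
    (G : (Fin N × Fin 3 → ℝ) → ℝ≥0∞) :
    ∫⁻ x, G x * ‖ind S hS φ x‖ₑ ^ 2 = ∫⁻ x in S, G x * ‖φ x‖ₑ ^ 2 := by
  rw [← lintegral_indicator hS]
  refine lintegral_congr_ae ?_
  filter_upwards [ind_coe hS φ] with x hx
  rw [hx]
  by_cases h : x ∈ S <;> simp [h]

/-- the total inequality in terms of the levels of the tiles -/
theorem total {k : ℕ} {nn : ℕ → ℕ} {a b ε CBC : ℝ} (hp : Params k θ m0 nn a b ε CBC)
    (hθ : ∃ m, m0 ≤ m ∧ (N : ℝ) ≤ θ m)
    (e : Fin N → ℝ) (he : ∀ i, e i = 1 ∨ e i = -1)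
    (φ : HS (Fin N × Fin 3)) (hfin : PairFin φ) :
    ENNReal.ofReal (-∫ x, coulR e x * ‖φ x‖ ^ 2) ≤
      ∑ i, (ENNReal.ofReal CBC * (∫⁻ x, ENNReal.ofReal (2 ^ (lev θ m0 i x)) * ‖φ x‖ₑ ^ 2) +
        ENNReal.ofReal ε * ∑' m, (if m0 ≤ m then
          ENNReal.ofReal (a ^ m) * ‖φ - PP k m i φ‖ₑ ^ 2 else 0)) := by
  classical
  have hmono := hp.θmono
  set v : Ty N θ m0 → HS (Fin N × Fin 3) := fun τ => ind (Rg τ) (meas_Rg τ) φ with hv
  have hvv : ∀ τ, ind (Om θ m0 (rep τ)) (meas_Om _) (v τ) = v τ := fun τ =>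
    ind_idem (meas_Rg τ) φ
  have hsum := hasSum_integral_iUnion (f := fun x => coulR e x * ‖φ x‖ ^ 2)
    (s := Rg (N := N) (θ := θ) (m0 := m0)) (fun τ => meas_Rg τ) (Rg_disj hθ hmono)
    (coulR_int hfin).integrableOn
  rw [Rg_union hθ hmono, setIntegral_univ] at hsum
  have hpτ : ∀ τ, ∫ x in Rg τ, coulR e x * ‖φ x‖ ^ 2 = ∫ x, coulR e x * ‖v τ x‖ ^ 2 := by
    intro τ
    rw [← integral_indicator (meas_Rg τ)]
    refine integral_congr_ae ?_
    filter_upwards [ind_coe (meas_Rg τ) φ] with x hx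
    simp only [hv]
    rw [hx]
    by_cases h : x ∈ Rg τ <;> simp [h]
  have hregion : ∀ τ, ENNReal.ofReal (-∫ x in Rg τ, coulR e x * ‖φ x‖ ^ 2) ≤
      ∑ i, (ENNReal.ofReal (CBC * 2 ^ (lev θ m0 i (rep τ))) * ‖v τ‖ₑ ^ 2 + ENNReal.ofReal ε *
        ∑' m, (if lev θ m0 i (rep τ) ≤ m then
          ENNReal.ofReal (a ^ m) * ‖v τ - PP k m i (v τ)‖ₑ ^ 2 else 0)) := by
    intro τ
    rw [hpτ]
    exact region hp hθ e he (rep τ) (v τ) (hvv τ) (hfin.ind (meas_Rg τ))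
  have hneg : -∫ x, coulR e x * ‖φ x‖ ^ 2 =
      ∑' τ : Ty N θ m0, -∫ x in Rg τ, coulR e x * ‖φ x‖ ^ 2 := by
    rw [tsum_neg, hsum.tsum_eq]
  rw [hneg]
  refine (ofReal_tsum_le hsum.summable.neg).trans ?_
  refine (ENNReal.tsum_le_tsum hregion).trans ?_
  rw [Summable.tsum_finsetSum (fun i _ => ENNReal.summable)]
  refine Finset.sum_le_sum fun i _ => ?_
  rw [ENNReal.tsum_add]
  refine add_le_add ?_ ?_
  · refine le_of_eq ?_
    have h1 : ∀ τ : Ty N θ m0, ENNReal.ofReal (CBC * 2 ^ (lev θ m0 i (rep τ))) * ‖v τ‖ₑ ^ 2 =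
        ENNReal.ofReal CBC * ∫⁻ x in Rg τ, ENNReal.ofReal (2 ^ (lev θ m0 i x)) * ‖φ x‖ₑ ^ 2 := by
      intro τ
      rw [ENNReal.ofReal_mul hp.C0, mul_assoc]
      congr 1
      have h2 : ∫⁻ x in Rg τ, ENNReal.ofReal (2 ^ (lev θ m0 i x)) * ‖φ x‖ₑ ^ 2 =
          ∫⁻ x in Rg τ, ENNReal.ofReal (2 ^ (lev θ m0 i (rep τ))) * ‖φ x‖ₑ ^ 2 := by
        refine setLIntegral_congr_fun (meas_Rg τ) fun x hx => ?_
        rw [Rg_lev hθ hmono τ hx]
      rw [h2, lintegral_const_mul _ ((meas_coe φ).enorm.pow_const 2)]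
      congr 1
      have h3 := lint_ind (meas_Rg τ) φ (fun _ => 1)
      simp only [one_mul] at h3
      rw [← h3, lint_sq]
    simp_rw [h1]
    rw [ENNReal.tsum_mul_left, ← lintegral_iUnion (fun τ => meas_Rg τ) (Rg_disj hθ hmono),
      Rg_union hθ hmono, setLIntegral_univ]
  · rw [ENNReal.tsum_mul_left, ENNReal.tsum_comm]
    gcongr with m
    have h1 : ∀ τ : Ty N θ m0, (if lev θ m0 i (rep τ) ≤ m then
          ENNReal.ofReal (a ^ m) * ‖v τ - PP k m i (v τ)‖ₑ ^ 2 else 0) ≤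
        if m0 ≤ m then ENNReal.ofReal (a ^ m) * ∫⁻ x in Rg τ, ‖(φ - PP k m i φ) x‖ₑ ^ 2
        else 0 := by
      intro τ
      split_ifs with h h'
      · have h2 : v τ - PP k m i (v τ) = ind (Rg τ) (meas_Rg τ) (φ - PP k m i φ) := by
          simp only [hv]
          rw [map_sub]
          congr 1
          exact PP_ind k m i (meas_Rg τ) (sat_Om (rep τ) i h) φ
        rw [h2]
        have h3 := lint_ind (meas_Rg τ) (φ - PP k m i φ) (fun _ => 1)
        simp only [one_mul] at h3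
        rw [← h3, lint_sq]
      · exact absurd ((lev_mem hθ i (rep τ)).1.trans h) h'
      · exact zero_le
      · exact le_rfl
    refine (ENNReal.tsum_le_tsum h1).trans (le_of_eq ?_)
    split_ifs
    · rw [ENNReal.tsum_mul_left, ← lintegral_iUnion (fun τ => meas_Rg τ) (Rg_disj hθ hmono),
        Rg_union hθ hmono, setLIntegral_univ, lint_sq]
    · simp

end Pool.Agent.T6.H42
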