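import Pool.Agent.T6.H42.KDefs

set_option autoImplicit false
set_option linter.unusedSectionVars false

noncomputable section

namespace Pool.Agent.T6.H42

open MeasureTheory Function Filter
open scoped ENNReal Polynomial

/-- The Gram matrix of the monomials on the unit interval. -/
def gram (k : ℕ) : Matrix (Fin k) (Fin k) ℝ := fun i j => 1 / (((i : ℕ) + (j : ℕ) : ℕ) + 1 : ℝ)

theorem gram_int (k : ℕ) (i j : Fin k) :
    gram k i j = ∫ t in (0 : ℝ)..1, t ^ ((i : ℕ) + (j : ℕ)) := by
  rw [integral_pow]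
  simp [gram]

theorem gram_det (k : ℕ) : IsUnit (gram k).det := by
  rw [isUnit_iff_ne_zero]
  intro h0
  obtain ⟨v, hv, hv0⟩ := Matrix.exists_mulVec_eq_zero_iff.2 h0
  apply hv
  set q : ℝ[X] := ∑ i : Fin k, Polynomial.C (v i) * Polynomial.X ^ (i : ℕ) with hq
  have hqe : ∀ t : ℝ, q.eval t = ∑ i : Fin k, v i * t ^ (i : ℕ) := by
    intro t
    simp [hq, Polynomial.eval_finsetSum]
  have h1 : ∫ t in (0 : ℝ)..1, (q.eval t) ^ 2 = 0 := by
    have h2 : ∀ t : ℝ, (q.eval t) ^ 2 =
        ∑ i : Fin k, ∑ j : Fin k, v i * v j * t ^ ((i : ℕ) + (j : ℕ)) := by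
      intro t
      rw [hqe, sq, Finset.sum_mul_sum]
      refine Finset.sum_congr rfl fun i _ => Finset.sum_congr rfl fun j _ => ?_
      ring
    simp_rw [h2]
    rw [intervalIntegral.integral_finsetSum]
    · have h3 : ∀ i : Fin k, ∫ t in (0 : ℝ)..1, ∑ j : Fin k, v i * v j * t ^ ((i : ℕ) + (j : ℕ)) =
          v i * (gram k).mulVec v i := by
        intro i
        rw [intervalIntegral.integral_finsetSum]
        · simp_rw [intervalIntegral.integral_const_mul, ← gram_int]
          rw [Matrix.mulVec, dotProduct, Finset.mul_sum]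
          refine Finset.sum_congr rfl fun j _ => ?_
          ring
        · intro j _
          exact Continuous.intervalIntegrable (by fun_prop) _ _
      simp_rw [h3, hv0]
      simp
    · intro i _
      exact Continuous.intervalIntegrable (by fun_prop) _ _
  have hq0 : q = 0 := by
    apply Polynomial.eq_zero_of_infinite_isRoot
    refine Set.Infinite.mono (s := Set.Ioo (0 : ℝ) 1) ?_ (Set.Ioo_infinite one_pos)
    intro t ht
    show q.eval t = 0
    by_contra hne
    have h4 : 0 < ∫ t in (0 : ℝ)..1, (q.eval t) ^ 2 := by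
      apply intervalIntegral.integral_pos one_pos
      · exact (Polynomial.continuous q).pow 2 |>.continuousOn
      · intro x _; positivity
      · exact ⟨t, ⟨ht.1.le, ht.2.le⟩, by positivity⟩
    linarith
  funext i
  have h5 : q.coeff (i : ℕ) = v i := by
    rw [hq, Polynomial.finsetSum_coeff]
    simp only [Polynomial.coeff_C_mul, Polynomial.coeff_X_pow]
    rw [Finset.sum_eq_single i]
    · simp
    · intro j _ hj
      rw [if_neg, mul_zero]
      intro h
      exact hj (Fin.ext h.symm)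
    · simp
  rw [← h5, hq0]
  simp

/-- The reproducing kernel of the polynomials of degree less than `k` on the unit interval. -/
def pker (k : ℕ) (s t : ℝ) : ℝ :=
  ∑ i : Fin k, ∑ j : Fin k, (gram k)⁻¹ i j * s ^ (i : ℕ) * t ^ (j : ℕ)

theorem gram_symm (k : ℕ) (i j : Fin k) : (gram k)⁻¹ i j = (gram k)⁻¹ j i := by
  have h1 : (gram k).transpose = gram k := by
    ext i j
    simp [gram, add_comm]
  have h2 := Matrix.transpose_nonsing_inv (gram k)
  rw [h1] at h2
  have h3 := congrFun (congrFun h2 j) i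
  rwa [Matrix.transpose_apply] at h3

theorem pker_symm (k : ℕ) (s t : ℝ) : pker k s t = pker k t s := by
  unfold pker
  rw [Finset.sum_comm]
  refine Finset.sum_congr rfl fun i _ => Finset.sum_congr rfl fun j _ => ?_
  rw [gram_symm]; ring

theorem pker_cont (k : ℕ) : Continuous (uncurry (pker k)) := by
  unfold pker
  simp only [uncurry_def]
  fun_prop

theorem pker_bound (k : ℕ) : ∃ κ : ℝ, 0 < κ ∧ ∀ s ∈ Set.Icc (0 : ℝ) 1, ∀ t ∈ Set.Icc (0 : ℝ) 1,
    |pker k s t| ≤ κ := by
  refine ⟨∑ i : Fin k, ∑ j : Fin k, |(gram k)⁻¹ i j| + 1, by positivity, ?_⟩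
  intro s hs t ht
  refine le_trans ?_ (le_add_of_nonneg_right zero_le_one)
  refine (Finset.abs_sum_le_sum_abs _ _).trans (Finset.sum_le_sum fun i _ => ?_)
  refine (Finset.abs_sum_le_sum_abs _ _).trans (Finset.sum_le_sum fun j _ => ?_)
  rw [abs_mul, abs_mul, abs_of_nonneg (pow_nonneg hs.1 _), abs_of_nonneg (pow_nonneg ht.1 _)]
  have h1 := pow_le_one₀ (n := (i : ℕ)) hs.1 hs.2
  have h2 := pow_le_one₀ (n := (j : ℕ)) ht.1 ht.2
  calc _ ≤ |(gram k)⁻¹ i j| * 1 * 1 := by gcongr; exact pow_nonneg ht.1 _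
    _ = _ := by ring

theorem pker_mon (k : ℕ) (s : ℝ) (l : Fin k) :
    ∫ t in (0 : ℝ)..1, pker k s t * t ^ (l : ℕ) = s ^ (l : ℕ) := by
  unfold pker
  have h1 : ∀ t : ℝ, (∑ i : Fin k, ∑ j : Fin k, (gram k)⁻¹ i j * s ^ (i : ℕ) * t ^ (j : ℕ)) *
      t ^ (l : ℕ) = ∑ i : Fin k, ∑ j : Fin k, ((gram k)⁻¹ i j * s ^ (i : ℕ)) *
        t ^ ((j : ℕ) + (l : ℕ)) := by
    intro t
    rw [Finset.sum_mul]
    refine Finset.sum_congr rfl fun i _ => ?_
    rw [Finset.sum_mul]
    refine Finset.sum_congr rfl fun j _ => ?_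
    ring
  simp_rw [h1]
  rw [intervalIntegral.integral_finsetSum]
  · have h3 : ∀ i : Fin k, ∫ t in (0 : ℝ)..1, ∑ j : Fin k, ((gram k)⁻¹ i j * s ^ (i : ℕ)) *
        t ^ ((j : ℕ) + (l : ℕ)) = s ^ (i : ℕ) * ((gram k)⁻¹ * gram k) i l := by
      intro i
      rw [intervalIntegral.integral_finsetSum]
      · simp_rw [intervalIntegral.integral_const_mul, ← gram_int]
        rw [Matrix.mul_apply, Finset.mul_sum]
        refine Finset.sum_congr rfl fun j _ => ?_
        ring
      · intro j _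
        exact Continuous.intervalIntegrable (by fun_prop) _ _
    simp_rw [h3]
    rw [Matrix.nonsing_inv_mul _ (gram_det k)]
    simp [Matrix.one_apply]
  · intro i _
    exact Continuous.intervalIntegrable (by fun_prop) _ _

theorem pker_rep (k : ℕ) (s : ℝ) (F : ℂ[X]) (hF : F.natDegree < k) :
    ∫ t in (0 : ℝ)..1, (pker k s t : ℂ) * F.eval (t : ℂ) = F.eval (s : ℂ) := by
  have h1 : ∀ t : ℝ, F.eval (t : ℂ) = ∑ l : Fin k, F.coeff (l : ℕ) * (t : ℂ) ^ (l : ℕ) := by
    intro t
    rw [Polynomial.eval_eq_sum_range' hF, Finset.sum_range]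
  have hc : Continuous fun t => pker k s t := (pker_cont k).comp (by fun_prop : Continuous fun t => (s, t))
  simp_rw [h1, Finset.mul_sum]
  rw [intervalIntegral.integral_finsetSum]
  · refine Finset.sum_congr rfl fun l _ => ?_
    have h2 : ∀ t : ℝ, (pker k s t : ℂ) * (F.coeff (l : ℕ) * (t : ℂ) ^ (l : ℕ)) =
        F.coeff (l : ℕ) * ((pker k s t * t ^ (l : ℕ) : ℝ) : ℂ) := by
      intro t; push_cast; ring
    simp_rw [h2]
    rw [intervalIntegral.integral_const_mul, intervalIntegral.integral_ofReal, pker_mon]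
    push_cast
    rfl
  · intro l _
    refine Continuous.intervalIntegrable ?_ _ _
    fun_prop

end Pool.Agent.T6.H42
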