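import Pool.Agent.T6.H42.Poly
import Pool.Agent.T6.H42.Ker0

set_option autoImplicit false
set_option linter.unusedSectionVars false

noncomputable section

namespace Pool.Agent.T6.H42

open MeasureTheory Function Filter
open scoped ENNReal Polynomial

theorem cel_sub (m l : ℕ) (s : ℝ) : cel m s = cel (m + l) s / (2 ^ l : ℕ) := by
  unfold cel
  rw [← Int.floor_div_natCast]
  congr 1
  push_cast
  rw [pow_add]
  field_simp

theorem cel_mono {m m' : ℕ} (h : m' ≤ m) {s t : ℝ} (hst : cel m s = cel m t) :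
    cel m' s = cel m' t := by
  obtain ⟨l, rfl⟩ := Nat.exists_eq_add_of_le h
  rw [cel_sub m' l s, cel_sub m' l t, hst]

/-- The kernel of the projection onto piecewise polynomials. -/
def dker (k m : ℕ) (s t : ℝ) : ℝ :=
  if cel m s = cel m t then 2 ^ m * pker k (2 ^ m * s - cel m s) (2 ^ m * t - cel m t) else 0

theorem cel_frac (m : ℕ) (s : ℝ) : 2 ^ m * s - (cel m s : ℝ) ∈ Set.Icc (0 : ℝ) 1 := by
  unfold cel
  constructor
  · linarith [Int.floor_le ((2 : ℝ) ^ m * s)]
  · linarith [Int.lt_floor_add_one ((2 : ℝ) ^ m * s)]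

/-- the bound of the reproducing kernel -/
def kap (k : ℕ) : ℝ := (pker_bound k).choose

theorem kap_pos (k : ℕ) : 0 < kap k := (pker_bound k).choose_spec.1

theorem dker_isKer (k m : ℕ) : IsKer m (kap k) (dker k m) where
  meas := by
    unfold dker
    refine Measurable.ite ?_ ?_ measurable_const
    · exact measurableSet_eq_fun ((meas_cel m).comp measurable_fst)
        ((meas_cel m).comp measurable_snd)
    · refine measurable_const.mul ?_
      refine (pker_cont k).measurable.comp
        (f := fun p : ℝ × ℝ => ((2 : ℝ) ^ m * p.1 - cel m p.1, (2 : ℝ) ^ m * p.2 - cel m p.2)) ?_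
      have h1 : Measurable fun s : ℝ => (cel m s : ℝ) :=
        (measurable_of_countable (fun z : ℤ => (z : ℝ))).comp (meas_cel m)
      exact (((measurable_const.mul measurable_fst).sub (h1.comp measurable_fst)).prodMk
        ((measurable_const.mul measurable_snd).sub (h1.comp measurable_snd)))
  symm := by
    intro s t
    unfold dker
    simp only [eq_comm (a := cel m s)]
    split_ifs
    · rw [pker_symm]
    · rfl
  bound := by
    intro s t
    unfold dker
    split_ifs
    · rw [abs_mul, abs_of_nonneg (by positivity : (0 : ℝ) ≤ 2 ^ m), mul_comm]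
      gcongr
      exact (pker_bound k).choose_spec.2 _ (cel_frac m s) _ (cel_frac m t)
    · simp

/-- reproducing property on functions that are polynomial on the interval of `s` -/
theorem dker_rep (k m : ℕ) (s : ℝ) (F : ℂ[X]) (hF : F.natDegree < k) (f : ℝ → ℂ)
    (hf : ∀ t, cel m s = cel m t → f t = F.eval (t : ℂ)) :
    ∫ t, (dker k m s t : ℂ) * f t = F.eval (s : ℂ) := by
  set q : ℤ := cel m s with hq
  have h2 : (0 : ℝ) < 2 ^ m := by positivity
  set G : ℂ[X] := F.comp (Polynomial.C ((2 : ℂ) ^ m)⁻¹ * Polynomial.X +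
    Polynomial.C ((q : ℂ) / 2 ^ m)) with hG
  have hGd : G.natDegree < k := by
    refine lt_of_le_of_lt ?_ hF
    rw [hG]
    refine Polynomial.natDegree_comp_le.trans ?_
    have h3 : (Polynomial.C ((2 : ℂ) ^ m)⁻¹ * Polynomial.X +
      Polynomial.C ((q : ℂ) / 2 ^ m)).natDegree ≤ 1 := Polynomial.natDegree_linear_le
    calc _ ≤ F.natDegree * 1 := by gcongr
      _ = _ := mul_one _
  have hGe : ∀ w : ℂ, G.eval w = F.eval ((w + q) / 2 ^ m) := by
    intro w
    rw [hG, Polynomial.eval_comp]
    congr 1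
    simp
    ring
  have h1 : ∀ t, (dker k m s t : ℂ) * f t = Set.indicator
      (Set.Ico ((q : ℝ) / 2 ^ m) (((q : ℝ) + 1) / 2 ^ m))
      (fun t => (2 ^ m : ℂ) * ((pker k (2 ^ m * s - q) (2 ^ m * t - q) : ℂ) *
        G.eval ((2 ^ m * t - q : ℝ) : ℂ))) t := by
    intro t
    rw [Set.indicator_apply]
    unfold dker
    by_cases hc : cel m s = cel m t
    · rw [if_pos hc, if_pos ((cel_eq_iff m s t).1 hc), hf t hc, hGe, ← hc]
      push_cast
      rw [mul_assoc]
      congr 3
      field_simp
      ring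
    · rw [if_neg hc, if_neg (fun h => hc ((cel_eq_iff m s t).2 h))]
      simp
  simp_rw [h1]
  rw [integral_indicator measurableSet_Ico, integral_Ico_eq_integral_Ioc,
    ← intervalIntegral.integral_of_le (by gcongr; linarith),
    intervalIntegral.integral_const_mul]
  have h5 := intervalIntegral.integral_comp_mul_sub
    (a := (q : ℝ) / 2 ^ m) (b := ((q : ℝ) + 1) / 2 ^ m)
    (fun w : ℝ => (pker k (2 ^ m * s - q) w : ℂ) * G.eval (w : ℂ)) h2.ne' (q : ℝ)
  rw [h5, mul_div_cancel₀ _ h2.ne', mul_div_cancel₀ _ h2.ne', sub_self, add_sub_cancel_left,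
    pker_rep k _ G hGd, hGe]
  rw [Complex.real_smul, ← mul_assoc]
  have h6 : (2 ^ m : ℂ) ≠ 0 := pow_ne_zero _ two_ne_zero
  push_cast
  rw [mul_inv_cancel₀ h6, one_mul]
  congr 1
  field_simp
  ring

/-- on the intervals of level `m' ≤ m`, the kernel is a polynomial -/
theorem dker_poly (k m' : ℕ) (s u : ℝ) (hk : 0 < k) : ∃ F : ℂ[X], F.natDegree < k ∧
    ∀ t, cel m' s = cel m' t → (dker k m' t u : ℂ) = F.eval (t : ℂ) := by
  by_cases hc : cel m' s = cel m' u
  · refine ⟨∑ i : Fin k, Polynomial.C (∑ j : Fin k, (2 ^ m' * ((gram k)⁻¹ i j : ℂ) *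
        ((2 ^ m' * u - cel m' u : ℝ) : ℂ) ^ (j : ℕ))) *
        (Polynomial.C (2 ^ m' : ℂ) * Polynomial.X + Polynomial.C (-(cel m' s : ℂ))) ^ (i : ℕ),
        ?_, ?_⟩
    · refine lt_of_le_of_lt (Polynomial.natDegree_sum_le_of_forall_le (n := k - 1) _ _ ?_)
        (by omega)
      intro i _
      refine (Polynomial.natDegree_C_mul_le _ _).trans ?_
      refine (Polynomial.natDegree_pow_le_of_le _ Polynomial.natDegree_linear_le).trans ?_
      have := i.2
      omega
    · intro t ht
      unfold dker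
      rw [if_pos (ht.symm.trans hc)]
      unfold pker
      rw [Polynomial.eval_finsetSum]
      push_cast
      rw [Finset.mul_sum]
      refine Finset.sum_congr rfl fun i _ => ?_
      rw [Polynomial.eval_mul, Polynomial.eval_C, Polynomial.eval_pow, Polynomial.eval_add,
        Polynomial.eval_mul, Polynomial.eval_C, Polynomial.eval_X, Polynomial.eval_C,
        Finset.mul_sum, Finset.sum_mul, ← ht]
      refine Finset.sum_congr rfl fun j _ => ?_
      ring
  · refine ⟨0, by simpa using hk, ?_⟩
    intro t ht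
    unfold dker
    rw [if_neg (fun h => hc (ht.trans h))]
    simp

theorem dker_nest (k : ℕ) (hk : 0 < k) {m m' : ℕ} (hm : m' ≤ m) (s u : ℝ) :
    ∫ t, dker k m s t * dker k m' t u = dker k m' s u := by
  obtain ⟨F, hF, hFe⟩ := dker_poly k m' s u hk
  have h1 := dker_rep k m s F hF (fun t => (dker k m' t u : ℂ))
    (fun t ht => hFe t (cel_mono hm ht))
  rw [← hFe s rfl] at h1
  have h2 : ∫ t, (dker k m s t : ℂ) * (dker k m' t u : ℂ) =
      ((∫ t, dker k m s t * dker k m' t u : ℝ) : ℂ) := by
    rw [← integral_complex_ofReal]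
    refine integral_congr_ae (Eventually.of_forall fun t => ?_)
    simp
  rw [h2] at h1
  exact_mod_cast h1

end Pool.Agent.T6.H42
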