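import Pool.Agent.T6.H42.Poly2
import Pool.Agent.T6.H42.Ker2

set_option autoImplicit false
set_option linter.unusedSectionVars false

noncomputable section

namespace Pool.Agent.T6.H42

open MeasureTheory Function Filter
open scoped ENNReal

section one

variable {ι : Type} [DecidableEq ι] [Fintype ι]

/-- The projection onto functions that are piecewise polynomial in the coordinate `c`. -/
def PC (k m : ℕ) (c : ι) : HS ι →L[ℂ] HS ι := op (dker_isKer k m) c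

theorem PC_adj (k m : ℕ) (c : ι) (φ ψ : HS ι) :
    inner ℂ (PC k m c φ) ψ = inner ℂ φ (PC k m c ψ) := op_adj _ c φ ψ

theorem PC_comp (k : ℕ) (hk : 0 < k) {m m' : ℕ} (h : m' ≤ m) (c : ι) (φ : HS ι) :
    PC k m c (PC k m' c φ) = PC k m' c φ :=
  op_comp _ _ _ (fun s u => dker_nest k hk h s u) c φ

theorem PC_comp' (k : ℕ) (hk : 0 < k) {m m' : ℕ} (h : m' ≤ m) (c : ι) (φ : HS ι) :
    PC k m' c (PC k m c φ) = PC k m' c φ := by
  refine op_comp _ _ _ (fun s u => ?_) c φ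
  rw [(dker_isKer k m').symm s u, ← dker_nest k hk h u s]
  refine integral_congr_ae (Eventually.of_forall fun t => ?_)
  simp only
  rw [(dker_isKer k m').symm s t, (dker_isKer k m).symm t u]
  ring

theorem PC_comm (k : ℕ) (m m' : ℕ) {c c' : ι} (h : c ≠ c') (φ : HS ι) :
    PC k m c (PC k m' c' φ) = PC k m' c' (PC k m c φ) := op_comm _ _ h φ

theorem PC_ind (k m : ℕ) (c : ι) {S : Set (ι → ℝ)} (hS : MeasurableSet S)
    (hsat : ∀ (x : ι → ℝ) (t : ℝ), cel m (x c) = cel m t → (update x c t ∈ S ↔ x ∈ S))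
    (φ : HS ι) : PC k m c (ind S hS φ) = ind S hS (PC k m c φ) := op_ind _ c hS hsat φ

theorem PC_wn (k m : ℕ) (c : ι) (φ : HS ι) {G : (ι → ℝ) → ℝ≥0∞} (hG : Measurable G) :
    wn G (PC k m c φ) ≤ ENNReal.ofReal (kap k) ^ 2 * wn (avg m c G) φ := op_wn _ c φ hG

theorem proj_norm_le {P : HS ι →L[ℂ] HS ι} (ha : ∀ φ ψ, inner ℂ (P φ) ψ = inner ℂ φ (P ψ))
    (hi : ∀ φ, P (P φ) = P φ) (φ : HS ι) : ‖P φ‖ ≤ ‖φ‖ := by
  have h1 : (‖P φ‖ : ℝ) ^ 2 = RCLike.re (inner ℂ (P φ) (P φ)) := by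
    rw [← inner_self_eq_norm_sq (𝕜 := ℂ)]
  have h2 : inner ℂ (P φ) (P φ) = inner ℂ φ (P φ) := by rw [ha, hi]
  have h3 : RCLike.re (inner ℂ φ (P φ)) ≤ ‖φ‖ * ‖P φ‖ := re_inner_le_norm _ _
  rw [← h2, ← h1] at h3
  rcases (norm_nonneg (P φ)).eq_or_lt with h | h
  · rw [← h]; exact norm_nonneg _
  · nlinarith

end one

variable {N : ℕ}

/-- The projection onto functions that are piecewise polynomial in the position of the
particle `i`. -/
def PP (k m : ℕ) (i : Fin N) : HS (Fin N × Fin 3) →L[ℂ] HS (Fin N × Fin 3) :=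
  (PC k m (i, 0)).comp ((PC k m (i, 1)).comp (PC k m (i, 2)))

theorem PP_apply (k m : ℕ) (i : Fin N) (φ : HS (Fin N × Fin 3)) :
    PP k m i φ = PC k m (i, 0) (PC k m (i, 1) (PC k m (i, 2) φ)) := rfl

theorem ne01 (i : Fin N) : ((i, 0) : Fin N × Fin 3) ≠ (i, 1) := by simp
theorem ne02 (i : Fin N) : ((i, 0) : Fin N × Fin 3) ≠ (i, 2) := by simp
theorem ne12 (i : Fin N) : ((i, 1) : Fin N × Fin 3) ≠ (i, 2) := by simp

theorem PP_adj (k m : ℕ) (i : Fin N) (φ ψ : HS (Fin N × Fin 3)) :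
    inner ℂ (PP k m i φ) ψ = inner ℂ φ (PP k m i ψ) := by
  rw [PP_apply, PP_apply, PC_adj, PC_adj, PC_adj, PC_comm k m m (ne01 i), PC_comm k m m (ne02 i),
    PC_comm k m m (ne12 i)]

theorem PP_comp (k : ℕ) (hk : 0 < k) {m m' : ℕ} (h : m' ≤ m) (i : Fin N)
    (φ : HS (Fin N × Fin 3)) : PP k m i (PP k m' i φ) = PP k m' i φ := by
  simp only [PP_apply]
  rw [PC_comm k m m' (ne02 i).symm, PC_comm k m m' (ne12 i).symm, PC_comp k hk h,
    PC_comm k m m' (ne01 i).symm, PC_comp k hk h, PC_comp k hk h]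

theorem PP_comp' (k : ℕ) (hk : 0 < k) {m m' : ℕ} (h : m' ≤ m) (i : Fin N)
    (φ : HS (Fin N × Fin 3)) : PP k m' i (PP k m i φ) = PP k m' i φ := by
  simp only [PP_apply]
  rw [PC_comm k m' m (ne02 i).symm, PC_comm k m' m (ne12 i).symm, PC_comp' k hk h,
    PC_comm k m' m (ne01 i).symm, PC_comp' k hk h, PC_comp' k hk h]

theorem PP_idem (k : ℕ) (hk : 0 < k) (m : ℕ) (i : Fin N) (φ : HS (Fin N × Fin 3)) :
    PP k m i (PP k m i φ) = PP k m i φ := PP_comp k hk le_rfl i φ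

theorem PP_norm_le (k : ℕ) (hk : 0 < k) (m : ℕ) (i : Fin N) (φ : HS (Fin N × Fin 3)) :
    ‖PP k m i φ‖ ≤ ‖φ‖ :=
  proj_norm_le (PP_adj k m i) (PP_idem k hk m i) φ

theorem PP_comm (k m m' : ℕ) {i j : Fin N} (h : i ≠ j) (φ : HS (Fin N × Fin 3)) :
    PP k m i (PP k m' j φ) = PP k m' j (PP k m i φ) := by
  have h1 : ∀ a b : Fin 3, ((i, a) : Fin N × Fin 3) ≠ (j, b) := by
    intro a b h2
    exact h (Prod.ext_iff.1 h2).1
  have h2 : ∀ (a b : Fin 3) (χ : HS (Fin N × Fin 3)),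
      PC k m (i, a) (PC k m' (j, b) χ) = PC k m' (j, b) (PC k m (i, a) χ) :=
    fun a b χ => PC_comm k m m' (h1 a b) χ
  simp only [PP_apply, h2]

/-- sets that are saturated with respect to the position of the particle `i` -/
def Sat (m : ℕ) (i : Fin N) (S : Set (Fin N × Fin 3 → ℝ)) : Prop :=
  ∀ (a : Fin 3) (x : Fin N × Fin 3 → ℝ) (t : ℝ), cel m (x (i, a)) = cel m t →
    (update x (i, a) t ∈ S ↔ x ∈ S)

theorem PP_ind (k m : ℕ) (i : Fin N) {S : Set (Fin N × Fin 3 → ℝ)} (hS : MeasurableSet S)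
    (hsat : Sat m i S) (φ : HS (Fin N × Fin 3)) :
    PP k m i (ind S hS φ) = ind S hS (PP k m i φ) := by
  simp only [PP_apply]
  rw [PC_ind k m _ hS (hsat 2), PC_ind k m _ hS (hsat 1), PC_ind k m _ hS (hsat 0)]

/-- average over the cubes of side `2^{-m}` in the position of the particle `i` -/
def avg3 (m : ℕ) (i : Fin N) (G : (Fin N × Fin 3 → ℝ) → ℝ≥0∞) : (Fin N × Fin 3 → ℝ) → ℝ≥0∞ :=
  avg m (i, 2) (avg m (i, 1) (avg m (i, 0) G))

theorem PP_wn (k m : ℕ) (i : Fin N) (φ : HS (Fin N × Fin 3))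
    {G : (Fin N × Fin 3 → ℝ) → ℝ≥0∞} (hG : Measurable G) :
    wn G (PP k m i φ) ≤ ENNReal.ofReal (kap k) ^ 6 * wn (avg3 m i G) φ := by
  rw [PP_apply]
  have h1 := PC_wn k m (i, 0) (PC k m (i, 1) (PC k m (i, 2) φ)) hG
  have h2 := PC_wn k m (i, 1) (PC k m (i, 2) φ) (meas_avg m (i, 0) hG)
  have h3 := PC_wn k m (i, 2) φ (meas_avg m (i, 1) (meas_avg m (i, 0) hG))
  calc _ ≤ _ := h1
    _ ≤ ENNReal.ofReal (kap k) ^ 2 * (ENNReal.ofReal (kap k) ^ 2 *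
        (ENNReal.ofReal (kap k) ^ 2 * wn (avg m (i, 2) (avg m (i, 1) (avg m (i, 0) G))) φ)) := by
        gcongr
        refine h2.trans ?_
        gcongr
    _ = _ := by unfold avg3; ring

theorem wn_mono {G G' : (Fin N × Fin 3 → ℝ) → ℝ≥0∞} (h : ∀ x, G x ≤ G' x)
    (φ : HS (Fin N × Fin 3)) : wn G φ ≤ wn G' φ :=
  lintegral_mono fun x => by gcongr; exact h x

theorem wn_const (a : ℝ≥0∞) (φ : HS (Fin N × Fin 3)) : wn (fun _ => a) φ = a * ‖φ‖ₑ ^ 2 := by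
  unfold wn
  rw [lintegral_const_mul _ ((meas_coe φ).enorm.pow_const 2), lint_sq]

/-- the basic weighted bound -/
theorem PP_wn_le (k m : ℕ) (i : Fin N) (φ : HS (Fin N × Fin 3))
    {G : (Fin N × Fin 3 → ℝ) → ℝ≥0∞} (hG : Measurable G) (B : ℝ≥0∞)
    (hB : ∀ x, avg3 m i G x ≤ B) :
    wn G (PP k m i φ) ≤ ENNReal.ofReal (kap k) ^ 6 * (B * ‖φ‖ₑ ^ 2) := by
  refine (PP_wn k m i φ hG).trans ?_
  gcongr
  rw [← wn_const]
  exact wn_mono hB φ

end Pool.Agent.T6.H42
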