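import Pool.Agent.T6.H42.Poly2

set_option autoImplicit false
set_option linter.unusedSectionVars false

noncomputable section

namespace Pool.Agent.T6.H42

open Function

variable {N : ℕ}

/-- the index of the dyadic cube of side `2^{-m}` containing the particle `i` -/
def cell3 (m : ℕ) (x : Fin N × Fin 3 → ℝ) (i : Fin N) : Fin 3 → ℤ := fun a => cel m (x (i, a))

/-- the number of particles in a dyadic cube -/
def cnt (m : ℕ) (q : Fin 3 → ℤ) (x : Fin N × Fin 3 → ℝ) : ℕ :=
  (Finset.univ.filter fun i => cell3 m x i = q).card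

/-- cubes with few particles -/
def light (θ : ℕ → ℝ) (m : ℕ) (q : Fin 3 → ℤ) (x : Fin N × Fin 3 → ℝ) : Prop :=
  (cnt m q x : ℝ) ≤ θ m

/-- neighbouring cubes -/
def nb (q q' : Fin 3 → ℤ) : Prop := ∀ a, |q' a - q a| ≤ 1

instance nbDec (q q' : Fin 3 → ℤ) : Decidable (nb q q') := by
  unfold nb; infer_instance

theorem nb_refl (q : Fin 3 → ℤ) : nb q q := fun a => by simp

/-- cubes all of whose neighbours have few particles -/
def good (θ : ℕ → ℝ) (m : ℕ) (q : Fin 3 → ℤ) (x : Fin N × Fin 3 → ℝ) : Prop :=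
  ∀ q', nb q q' → light θ m q' x

/-- the level of the tile of the particle `i` -/
def lev (θ : ℕ → ℝ) (m0 : ℕ) (i : Fin N) (x : Fin N × Fin 3 → ℝ) : ℕ :=
  sInf {m | m0 ≤ m ∧ good θ m (cell3 m x i) x}

variable {θ : ℕ → ℝ} {m0 : ℕ}

theorem lev_mem (hθ : ∃ m, m0 ≤ m ∧ (N : ℝ) ≤ θ m) (i : Fin N) (x : Fin N × Fin 3 → ℝ) :
    m0 ≤ lev θ m0 i x ∧ good θ (lev θ m0 i x) (cell3 (lev θ m0 i x) x i) x := by
  have h : Set.Nonempty {m | m0 ≤ m ∧ good θ m (cell3 m x i) x} := by
    obtain ⟨m, hm, hN⟩ := hθ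
    refine ⟨m, hm, fun q' _ => ?_⟩
    refine le_trans ?_ hN
    have : cnt m q' x ≤ N := by
      unfold cnt
      refine (Finset.card_filter_le _ _).trans ?_
      simp
    exact_mod_cast this
  exact Nat.sInf_mem h

theorem lev_le {i : Fin N} {x : Fin N × Fin 3 → ℝ} {m : ℕ} (hm : m0 ≤ m)
    (hg : good θ m (cell3 m x i) x) : lev θ m0 i x ≤ m := Nat.sInf_le ⟨hm, hg⟩

theorem cell3_mono {m m' : ℕ} (h : m' ≤ m) {x y : Fin N × Fin 3 → ℝ} {i j : Fin N}
    (hc : cell3 m x i = cell3 m y j) : cell3 m' x i = cell3 m' y j := by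
  funext a
  exact cel_mono h (congrFun hc a)

/-- the cube of level `m'` containing the cube `q` of level `m` -/
def par (m m' : ℕ) (q : Fin 3 → ℤ) : Fin 3 → ℤ := fun a => q a / (2 ^ (m - m') : ℕ)

theorem par_cell3 {m m' : ℕ} (h : m' ≤ m) (x : Fin N × Fin 3 → ℝ) (i : Fin N) :
    par m m' (cell3 m x i) = cell3 m' x i := by
  obtain ⟨l, rfl⟩ := Nat.exists_eq_add_of_le h
  funext a
  unfold par cell3
  rw [Nat.add_sub_cancel_left, ← cel_sub]

theorem cnt_par {m m' : ℕ} (h : m' ≤ m) (q : Fin 3 → ℤ) (x : Fin N × Fin 3 → ℝ) :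
    cnt m q x ≤ cnt m' (par m m' q) x := by
  unfold cnt
  refine Finset.card_le_card fun i hi => ?_
  simp only [Finset.mem_filter, Finset.mem_univ, true_and] at hi ⊢
  rw [← hi, par_cell3 h]

/-- the tiles do not change when the particles move inside their tiles -/
theorem light_iff (hθ : ∃ m, m0 ≤ m ∧ (N : ℝ) ≤ θ m) (hmono : Monotone θ)
    {x y : Fin N × Fin 3 → ℝ}
    (hxy : ∀ i, cell3 (lev θ m0 i x) y i = cell3 (lev θ m0 i x) x i) :
    ∀ m, m0 ≤ m → ∀ q, light θ m q x ↔ light θ m q y := by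
  intro m
  induction m using Nat.strong_induction_on with
  | _ m ih =>
    intro hm q
    by_cases hc : ∃ j, lev θ m0 j x < m ∧ par m (lev θ m0 j x) q = cell3 (lev θ m0 j x) x j
    · obtain ⟨j, hj, hpar⟩ := hc
      have hlm := lev_mem hθ j x
      have h1 : light θ (lev θ m0 j x) (par m (lev θ m0 j x) q) x := by
        rw [hpar]
        exact hlm.2 _ (nb_refl _)
      have h2 := (ih _ hj hlm.1 _).1 h1
      have h3 : θ (lev θ m0 j x) ≤ θ m := hmono hj.le
      constructor
      · intro _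
        have h4 : (cnt m q y : ℝ) ≤ cnt (lev θ m0 j x) (par m (lev θ m0 j x) q) y := by
          exact_mod_cast cnt_par hj.le q y
        exact (h4.trans h2).trans h3
      · intro _
        have h4 : (cnt m q x : ℝ) ≤ cnt (lev θ m0 j x) (par m (lev θ m0 j x) q) x := by
          exact_mod_cast cnt_par hj.le q x
        exact (h4.trans h1).trans h3
    · push Not at hc
      have h1 : cnt m q x = cnt m q y := by
        unfold cnt
        congr 1
        ext i
        simp only [Finset.mem_filter, Finset.mem_univ, true_and]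
        constructor
        · intro hi
          have h2 : m ≤ lev θ m0 i x := by
            by_contra h3
            push Not at h3
            apply hc i h3
            rw [← hi, par_cell3 h3.le]
          rw [← hi]
          exact cell3_mono h2 (hxy i)
        · intro hi
          have h2 : m ≤ lev θ m0 i x := by
            by_contra h3
            push Not at h3
            apply hc i h3
            rw [← hi, par_cell3 h3.le, hxy i]
          rw [← hi]
          exact cell3_mono h2 (hxy i).symm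
      unfold light
      rw [h1]

theorem lev_eq (hθ : ∃ m, m0 ≤ m ∧ (N : ℝ) ≤ θ m) (hmono : Monotone θ)
    {x y : Fin N × Fin 3 → ℝ}
    (hxy : ∀ i, cell3 (lev θ m0 i x) y i = cell3 (lev θ m0 i x) x i) (i : Fin N) :
    lev θ m0 i y = lev θ m0 i x := by
  have hl := light_iff hθ hmono hxy
  have hg : ∀ m, m0 ≤ m → ∀ q, good θ m q x ↔ good θ m q y := fun m hm q =>
    ⟨fun h q' hq' => (hl m hm q').1 (h q' hq'), fun h q' hq' => (hl m hm q').2 (h q' hq')⟩
  have h1 := lev_mem hθ i x
  have h2 := lev_mem hθ i y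
  apply le_antisymm
  · apply lev_le h1.1
    rw [hxy i]
    exact (hg _ h1.1 _).1 h1.2
  · by_contra h3
    push Not at h3
    have h4 : good θ (lev θ m0 i y) (cell3 (lev θ m0 i y) x i) x := by
      rw [hg _ h2.1]
      have h5 : cell3 (lev θ m0 i y) x i = cell3 (lev θ m0 i y) y i :=
        cell3_mono h3.le (hxy i).symm
      rw [h5]
      exact h2.2
    exact absurd (lev_le h2.1 h4) (not_le.2 h3)

theorem floor_close {u v : ℝ} (h : |u - v| < 1) : |⌊u⌋ - ⌊v⌋| ≤ 1 := by
  have h1 := abs_lt.1 h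
  rw [abs_le]
  constructor
  · have h2 : ⌊v⌋ < ⌊u⌋ + 2 := by
      rw [Int.floor_lt]
      push_cast
      linarith [Int.lt_floor_add_one u]
    omega
  · have h2 : ⌊u⌋ < ⌊v⌋ + 2 := by
      rw [Int.floor_lt]
      push_cast
      linarith [Int.lt_floor_add_one v]
    omega

theorem cel_close {m : ℕ} {s t : ℝ} (h : |s - t| < 1 / 2 ^ m) : |cel m s - cel m t| ≤ 1 := by
  apply floor_close
  rw [← mul_sub, abs_mul, abs_of_nonneg (by positivity : (0 : ℝ) ≤ 2 ^ m)]
  rw [lt_div_iff₀ (by positivity)] at h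
  linarith

/-- particles close to a tile have tiles that are not much smaller -/
theorem lev_close (hθ : ∃ m, m0 ≤ m ∧ (N : ℝ) ≤ θ m) (hmono : Monotone θ)
    {x : Fin N × Fin 3 → ℝ} {i j : Fin N}
    (h : ∀ a, |x (i, a) - x (j, a)| < 1 / 2 ^ (lev θ m0 i x + 1)) :
    lev θ m0 j x ≤ lev θ m0 i x + 1 := by
  have h1 := lev_mem hθ i x
  set m := lev θ m0 i x with hm
  apply lev_le (by omega)
  intro q' hq'
  have h2 : nb (cell3 m x i) (par (m + 1) m q') := by
    intro a
    have h3 := hq' a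
    have h4 : |cel (m + 1) (x (i, a)) - cel (m + 1) (x (j, a))| ≤ 1 := cel_close (h a)
    have h5 : cel m (x (i, a)) = cel (m + 1) (x (i, a)) / (2 ^ 1 : ℕ) := cel_sub m 1 _
    unfold par cell3 at *
    rw [h5]
    simp only [Nat.add_sub_cancel_left, pow_one, Nat.cast_ofNat] at h3 ⊢
    rw [abs_le] at h3 h4 ⊢
    omega
  have h6 : (cnt (m + 1) q' x : ℝ) ≤ cnt m (par (m + 1) m q') x := by
    exact_mod_cast cnt_par (Nat.le_succ m) q' x
  exact (h6.trans (h1.2 _ h2)).trans (hmono (Nat.le_succ m))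

/-- the finite set of neighbours -/
def nbs (q : Fin 3 → ℤ) : Finset (Fin 3 → ℤ) := Fintype.piFinset fun a => Finset.Icc (q a - 1) (q a + 1)

theorem mem_nbs {q q' : Fin 3 → ℤ} : q' ∈ nbs q ↔ nb q q' := by
  unfold nbs nb
  rw [Fintype.mem_piFinset]
  refine forall_congr' fun a => ?_
  rw [Finset.mem_Icc, abs_le]
  constructor <;> intro h <;> constructor <;> linarith [h.1, h.2]

theorem card_nbs (q : Fin 3 → ℤ) : (nbs q).card = 27 := by
  unfold nbs
  rw [Fintype.card_piFinset]
  have : ∀ a, (Finset.Icc (q a - 1) (q a + 1)).card = 3 := by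
    intro a
    rw [Int.card_Icc]
    have : q a + 1 + 1 - (q a - 1) = 3 := by ring
    rw [this]; rfl
  simp [this]

/-- the number of particles near a tile -/
theorem near_card (hθ : ∃ m, m0 ≤ m ∧ (N : ℝ) ≤ θ m) (x : Fin N × Fin 3 → ℝ) (i : Fin N) :
    (((Finset.univ.filter fun j => nb (cell3 (lev θ m0 i x) x i)
      (cell3 (lev θ m0 i x) x j)).card : ℕ) : ℝ) ≤ 27 * θ (lev θ m0 i x) := by
  classical
  have h1 := lev_mem hθ i x
  set m := lev θ m0 i x with hm
  have h2 : (Finset.univ.filter fun j => nb (cell3 m x i) (cell3 m x j)) ⊆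
      (nbs (cell3 m x i)).biUnion fun q => Finset.univ.filter fun j => cell3 m x j = q := by
    intro j hj
    simp only [Finset.mem_filter, Finset.mem_univ, true_and, Finset.mem_biUnion] at hj ⊢
    exact ⟨cell3 m x j, mem_nbs.2 hj, rfl⟩
  have h3 := (Finset.card_le_card h2).trans Finset.card_biUnion_le
  have h4 : ((∑ q ∈ nbs (cell3 m x i), cnt m q x : ℕ) : ℝ) ≤ 27 * θ m := by
    push_cast
    calc ∑ q ∈ nbs (cell3 m x i), (cnt m q x : ℝ) ≤ ∑ q ∈ nbs (cell3 m x i), θ m := by
          refine Finset.sum_le_sum fun q hq => h1.2 q (mem_nbs.1 hq)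
      _ = _ := by rw [Finset.sum_const, card_nbs]; simp
  refine le_trans ?_ h4
  exact_mod_cast h3

end Pool.Agent.T6.H42
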