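import Pool.Agent.T6.H42.Bd
import Pool.Agent.T6.H42.Tiles

set_option autoImplicit false
set_option linter.unusedSectionVars false

noncomputable section

namespace Pool.Agent.T6.H42

open MeasureTheory Function Filter
open scoped ENNReal

variable {N : ℕ} {θ : ℕ → ℝ} {m0 : ℕ}

theorem meas_cell3 (m : ℕ) (i : Fin N) :
    Measurable fun x : Fin N × Fin 3 → ℝ => cell3 m x i := by
  unfold cell3
  refine measurable_pi_lambda _ fun a => ?_
  exact (meas_cel m).comp (measurable_pi_apply (i, a))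

/-- the region of the configuration `x0`: every particle stays in its tile -/
def Om (θ : ℕ → ℝ) (m0 : ℕ) (x0 : Fin N × Fin 3 → ℝ) : Set (Fin N × Fin 3 → ℝ) :=
  {x | ∀ i, cell3 (lev θ m0 i x0) x i = cell3 (lev θ m0 i x0) x0 i}

theorem meas_Om (x0 : Fin N × Fin 3 → ℝ) : MeasurableSet (Om θ m0 x0) := by
  unfold Om
  rw [Set.ofPred_forall]
  refine MeasurableSet.iInter fun i => ?_
  exact measurableSet_eq_fun (meas_cell3 _ i) measurable_const

theorem sat_Om (x0 : Fin N × Fin 3 → ℝ) (i : Fin N) {m : ℕ} (hm : lev θ m0 i x0 ≤ m) :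
    Sat m i (Om θ m0 x0) := by
  intro a x t hc
  unfold Om
  simp only [Set.mem_ofPred_eq]
  refine forall_congr' fun j => ?_
  have h1 : cell3 (lev θ m0 j x0) (update x (i, a) t) j = cell3 (lev θ m0 j x0) x j := by
    funext b
    unfold cell3
    by_cases h : (j, b) = (i, a)
    · rw [h, update_self]
      have h2 : j = i := (Prod.ext_iff.1 h).1
      subst h2
      exact (cel_mono hm hc).symm
    · rw [update_of_ne h]
  rw [h1]

/-- the tile of a particle -/
def tile (θ : ℕ → ℝ) (m0 : ℕ) (x0 : Fin N × Fin 3 → ℝ) (i : Fin N) : Set S3 :=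
  {t | ∀ a, cel (lev θ m0 i x0) (t a) = cel (lev θ m0 i x0) (x0 (i, a))}

theorem pt_mem_tile {x0 x : Fin N × Fin 3 → ℝ} (hx : x ∈ Om θ m0 x0) (i : Fin N) :
    pt x i ∈ tile θ m0 x0 i := fun a => congrFun (hx i) a

theorem tile_close (hθ : ∃ m, m0 ≤ m ∧ (N : ℝ) ≤ θ m) (hmono : Monotone θ)
    (x0 : Fin N × Fin 3 → ℝ) {i j : Fin N} {t t' : S3} (ht : t ∈ tile θ m0 x0 i)
    (ht' : t' ∈ tile θ m0 x0 j) (h : ‖t - t'‖ < 1 / 2 ^ (lev θ m0 i x0 + 1)) :
    lev θ m0 j x0 ≤ lev θ m0 i x0 + 1 := by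
  by_cases hij : j = i
  · subst hij; omega
  set x' := setpos (setpos x0 i t) j t' with hx'
  have hi : ∀ a, x' (i, a) = t a := fun a => by
    rw [hx', setpos_ne _ _ _ (fun h => hij h.symm), setpos_self]
  have hj : ∀ a, x' (j, a) = t' a := fun a => by rw [hx', setpos_self]
  have hl : ∀ l, cell3 (lev θ m0 l x0) x' l = cell3 (lev θ m0 l x0) x0 l := by
    intro l
    funext a
    unfold cell3
    by_cases h1 : l = j
    · subst h1; rw [hj]; exact ht' a
    · by_cases h2 : l = i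
      · subst h2; rw [hi]; exact ht a
      · rw [hx', setpos_ne _ _ _ h1, setpos_ne _ _ _ h2]
  have h3 := lev_eq hθ hmono hl
  have h4 := lev_close hθ hmono (x := x') (i := i) (j := j) ?_
  · rwa [h3 i, h3 j] at h4
  · intro a
    rw [h3 i, hi, hj]
    refine lt_of_le_of_lt ?_ h
    have := coord_le (t - t') a
    simpa using this

theorem tile_nb (x0 : Fin N × Fin 3 → ℝ) {i j : Fin N} {t t' : S3} (ht : t ∈ tile θ m0 x0 i)
    (ht' : t' ∈ tile θ m0 x0 j) (hm : lev θ m0 i x0 ≤ lev θ m0 j x0)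
    (h : ‖t - t'‖ < 1 / 2 ^ (lev θ m0 i x0)) :
    nb (cell3 (lev θ m0 i x0) x0 i) (cell3 (lev θ m0 i x0) x0 j) := by
  intro a
  unfold cell3
  rw [← ht a, ← cel_mono hm (ht' a)]
  apply cel_close
  refine lt_of_le_of_lt ?_ h
  have := coord_le (t - t') a
  rw [abs_sub_comm]
  simpa using this

theorem gB_zero {x0 : Fin N × Fin 3 → ℝ} {v : HS (Fin N × Fin 3)}
    (hv : ind (Om θ m0 x0) (meas_Om x0) v = v) {i : Fin N} {z : S3} {r : ℝ}
    (h : ¬ ∃ t ∈ tile θ m0 x0 i, ‖t - z‖ < r) : gB i z r v = 0 := by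
  rw [← hv]
  unfold gB
  rw [ind_ind]
  have h1 : bset i z r ∩ Om θ m0 x0 = ∅ := by
    ext x
    simp only [Set.mem_inter_iff, Set.mem_empty_iff_false, iff_false, not_and]
    intro h2 h3
    exact h ⟨pt x i, pt_mem_tile h3 i, h2⟩
  have h2 : ∀ (S : Set (Fin N × Fin 3 → ℝ)) (hS : MeasurableSet S), S = ∅ →
      ind S hS v = 0 := by
    intro S hS h
    subst h
    apply Lp.ext
    filter_upwards [ind_coe hS v, Lp.coeFn_zero ℂ 2 (volume : Measure (Fin N × Fin 3 → ℝ))]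
      with x h3 h4
    rw [h3, h4]
    simp
  exact h2 _ _ h1

end Pool.Agent.T6.H42
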