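import Pool.Agent.T6.H42.Reg

set_option autoImplicit false
set_option linter.unusedSectionVars false

noncomputable section

namespace Pool.Agent.T6.H42

open MeasureTheory Function Filter
open scoped ENNReal

variable {N : ℕ} {θ : ℕ → ℝ} {m0 : ℕ}

theorem PP_comm_gB (k m : ℕ) {i j : Fin N} (h : i ≠ j) (z : S3) (r : ℝ)
    (φ : HS (Fin N × Fin 3)) : PP k m i (gB j z r φ) = gB j z r (PP k m i φ) := by
  unfold gB
  apply PP_ind
  intro a x t _
  have h1 : pt (update x (i, a) t) j = pt x j := by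
    unfold pt
    congr 1
    funext b
    rw [update_of_ne]
    intro h2
    exact h (Prod.ext_iff.1 h2).1.symm
  unfold bset
  simp only [Set.mem_ofPred_eq, h1]

theorem gB_comm (i j : Fin N) (z z' : S3) (r r' : ℝ) (φ : HS (Fin N × Fin 3)) :
    gB i z r (gB j z' r' φ) = gB j z' r' (gB i z r φ) := by
  unfold gB
  rw [ind_ind, ind_ind]
  congr 2
  exact Set.inter_comm _ _

/-- the three half power -/
def p32 (s : ℝ) : ℝ := s * Real.sqrt s

theorem p32_nonneg {s : ℝ} (hs : 0 ≤ s) : 0 ≤ p32 s := mul_nonneg hs (Real.sqrt_nonneg _)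

theorem p32_pos {s : ℝ} (hs : 0 < s) : 0 < p32 s := mul_pos hs (Real.sqrt_pos.2 hs)

theorem p32_mono {s t : ℝ} (hs : 0 ≤ s) (h : s ≤ t) : p32 s ≤ p32 t := by
  unfold p32
  have := Real.sqrt_le_sqrt h
  have h2 := Real.sqrt_nonneg s
  nlinarith

theorem p32_sq {s : ℝ} (hs : 0 ≤ s) : p32 s * p32 s = s ^ 3 := by
  unfold p32
  have := Real.mul_self_sqrt hs
  calc s * √s * (s * √s) = s * s * (√s * √s) := by ring
    _ = _ := by rw [this]; ring

theorem p32_le_one {s : ℝ} (hs : 0 ≤ s) (h : s ≤ 1) : p32 s ≤ 1 := by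
  have := p32_mono hs h
  simpa [p32] using this

theorem p32_cube_le {s : ℝ} (hs : 0 ≤ s) (h : s ≤ 1) : s ^ 3 ≤ p32 s := by
  rw [← p32_sq hs]
  have h1 := p32_le_one hs h
  have h2 := p32_nonneg hs
  nlinarith

theorem p32_ratio {s t : ℝ} (hs : 0 < s) (ht : 0 ≤ t) (h : t ≤ 2 * s) :
    (p32 s)⁻¹ * t ^ 3 ≤ 3 * p32 t := by
  have h1 : p32 t ≤ 3 * p32 s := by
    have h2 := p32_mono ht h
    refine h2.trans ?_
    unfold p32
    have h3 : √(2 * s) = √2 * √s := Real.sqrt_mul (by norm_num) s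
    rw [h3]
    have h4 : √2 ≤ 3 / 2 := by
      rw [Real.sqrt_le_left (by norm_num)]; norm_num
    have h5 := Real.sqrt_nonneg s
    have h6 : 0 ≤ s * √s := by positivity
    nlinarith
  rw [← p32_sq ht, ← mul_assoc]
  have h2 := p32_pos hs
  have h3 : (p32 s)⁻¹ * p32 t ≤ 3 := by
    rw [inv_mul_le_iff₀ h2]; linarith
  have := p32_nonneg ht
  nlinarith

/-- the error terms of the inequality for one ball -/
def errB (k : ℕ) (θ : ℕ → ℝ) (m : ℕ) (i : Fin N) (z : S3) (r : ℝ) (v : HS (Fin N × Fin 3)) : ℝ :=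
  if 4 * (2 ^ m * r) ≤ 1 then
    (1 + 3 * KK k) * p32 (2 ^ m * r) * ‖gB i z r (PP k m i v)‖ ^ 2 +
      (1 + 4 * KK k * (2 ^ m * r) ^ 3 + 324 * KK k * θ m * p32 (2 ^ m * r)) *
        ‖gB i z r (v - PP k m i v)‖ ^ 2
  else ‖gB i z r v‖ ^ 2

theorem errB_nonneg (k : ℕ) (hθ0 : ∀ m, 0 ≤ θ m) (m : ℕ) (i : Fin N) (z : S3) {r : ℝ}
    (hr : 0 ≤ r) (v : HS (Fin N × Fin 3)) : 0 ≤ errB k θ m i z r v := by
  unfold errB
  have h1 := KK_pos k
  have h2 := p32_nonneg (s := 2 ^ m * r) (by positivity)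
  have h3 := hθ0 m
  split_ifs <;> positivity

/-- the inequality for one ball -/
theorem stepB_pt (k : ℕ) (hk : 0 < k) (hθ : ∃ m, m0 ≤ m ∧ (N : ℝ) ≤ θ m) (hmono : Monotone θ)
    (hθ0 : ∀ m, 0 ≤ θ m)
    (e : Fin N → ℝ) (he : ∀ i, e i = 1 ∨ e i = -1) (x0 : Fin N × Fin 3 → ℝ)
    (v : HS (Fin N × Fin 3)) (hv : ind (Om θ m0 x0) (meas_Om x0) v = v)
    (S : Finset (Fin N)) (z : S3) {r : ℝ} (hr : 0 < r) :
    -(∑ i ∈ S, errB k θ (lev θ m0 i x0) i z r v) ≤
      ‖∑ i ∈ S, (e i : ℂ) • gB i z r v‖ ^ 2 - ∑ i ∈ S, ‖gB i z r v‖ ^ 2 := by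
  classical
  have hK := KK_pos k
  set m : Fin N → ℕ := fun i => lev θ m0 i x0 with hm
  set s : Fin N → ℝ := fun i => 2 ^ m i * r with hs
  have hs0 : ∀ i, 0 < s i := fun i => by simp only [hs]; positivity
  set J1 : Finset (Fin N) := S.filter fun i => 4 * s i ≤ 1 ∧ ∃ t ∈ tile θ m0 x0 i, ‖t - z‖ < r
    with hJ1
  set J2 : Finset (Fin N) := S.filter fun i => ¬ 4 * s i ≤ 1 with hJ2
  set J3 : Finset (Fin N) := S.filter fun i => 4 * s i ≤ 1 ∧ ¬ ∃ t ∈ tile θ m0 x0 i, ‖t - z‖ < r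
    with hJ3
  set P : Fin N → HS (Fin N × Fin 3) →L[ℂ] HS (Fin N × Fin 3) :=
    fun i => if i ∈ J1 then PP k (m i) i else 0 with hP
  have he2 : ∀ i, e i ^ 2 = 1 := by
    intro i
    rcases he i with h | h <;> rw [h] <;> norm_num
  -- levels
  have hclose : ∀ i ∈ J1, ∀ j ∈ J1, ∃ t ∈ tile θ m0 x0 i, ∃ t' ∈ tile θ m0 x0 j,
      ‖t - t'‖ < 1 / 2 ^ (m i + 1) := by
    intro i hi j hj
    simp only [hJ1, Finset.mem_filter] at hi hj
    obtain ⟨t, ht, htz⟩ := hi.2.2
    obtain ⟨t', ht', htz'⟩ := hj.2.2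
    refine ⟨t, ht, t', ht', ?_⟩
    have h1 : ‖t - t'‖ < 2 * r := by
      have h2 : t - t' = (t - z) - (t' - z) := by abel
      rw [h2]
      refine lt_of_le_of_lt (norm_sub_le _ _) ?_
      linarith
    refine lt_of_lt_of_le h1 ?_
    rw [le_div_iff₀ (by positivity), pow_succ]
    have := hi.2.1
    simp only [hs] at this
    linarith
  have hlev : ∀ i ∈ J1, ∀ j ∈ J1, m j ≤ m i + 1 := by
    intro i hi j hj
    obtain ⟨t, ht, t', ht', h⟩ := hclose i hi j hj
    exact tile_close hθ hmono x0 ht ht' h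
  have hcard : ∀ i ∈ J1, (∀ j ∈ J1, m i ≤ m j) → (J1.card : ℝ) ≤ 27 * θ (m i) := by
    intro i hi hmin
    refine le_trans ?_ (near_card hθ x0 i)
    have h1 : J1 ⊆ Finset.univ.filter fun j => nb (cell3 (lev θ m0 i x0) x0 i)
        (cell3 (lev θ m0 i x0) x0 j) := by
      intro j hj
      simp only [Finset.mem_filter, Finset.mem_univ, true_and]
      obtain ⟨t, ht, t', ht', h⟩ := hclose i hi j hj
      refine tile_nb x0 ht ht' (hmin j hj) (lt_of_lt_of_le h ?_)
      apply one_div_le_one_div_of_le (by positivity)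
      exact pow_le_pow_right₀ (by norm_num) (Nat.le_succ _)
    exact_mod_cast Finset.card_le_card h1
  -- the choice of κ
  obtain ⟨κ, hκ, hκJ⟩ : ∃ κ : ℝ, 0 < κ ∧ ∀ i ∈ J1, κ ≤ p32 (s i) ∧
      (2 + κ + κ⁻¹) * (J1.card * s i ^ 3) ≤ 324 * θ (m i) * p32 (s i) := by
    rcases J1.eq_empty_or_nonempty with h | h
    · refine ⟨1, one_pos, ?_⟩
      rw [h]
      intro i hi
      simp at hi
    · obtain ⟨i0, hi0, hmin⟩ := Finset.exists_min_image J1 m h
      refine ⟨p32 (s i0), p32_pos (hs0 i0), ?_⟩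
      intro i hi
      have h1 : s i0 ≤ s i := by
        simp only [hs]
        gcongr
        · norm_num
        · exact hmin i hi
      have h2 : s i ≤ 2 * s i0 := by
        have h3 := hlev i0 hi0 i hi
        simp only [hs]
        calc 2 ^ m i * r ≤ 2 ^ (m i0 + 1) * r := by
              gcongr
              norm_num
          _ = _ := by rw [pow_succ]; ring
      have h4 : 4 * s i0 ≤ 1 := by
        have := hi0
        simp only [hJ1, Finset.mem_filter] at this
        exact this.2.1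
      have h5 : p32 (s i0) ≤ 1 := p32_le_one (hs0 i0).le (by linarith)
      have h6 := p32_pos (hs0 i0)
      have h7 : 1 ≤ (p32 (s i0))⁻¹ := (one_le_inv₀ h6).2 h5
      refine ⟨p32_mono (hs0 i0).le h1, ?_⟩
      have h8 : 2 + p32 (s i0) + (p32 (s i0))⁻¹ ≤ 4 * (p32 (s i0))⁻¹ := by linarith
      have h9 : (J1.card : ℝ) ≤ 27 * θ (m i) := by
        refine (hcard i0 hi0 hmin).trans ?_
        gcongr
        exact hmono (hmin i hi)
      have h10 := p32_ratio (hs0 i0) (hs0 i).le h2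
      have h11 := hθ0 (m i)
      have h12 := p32_nonneg (hs0 i).le
      have h13 := hs0 i
      calc (2 + p32 (s i0) + (p32 (s i0))⁻¹) * (J1.card * s i ^ 3)
          ≤ (4 * (p32 (s i0))⁻¹) * (27 * θ (m i) * s i ^ 3) := by gcongr
        _ = 108 * θ (m i) * ((p32 (s i0))⁻¹ * s i ^ 3) := by ring
        _ ≤ 108 * θ (m i) * (3 * p32 (s i)) := by gcongr
        _ = _ := by ring
  -- the abstract inequality
  have hPadj : ∀ i, IsAdj (P i) (P i) := by
    intro i
    simp only [hP]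
    split_ifs
    · exact PP_isAdj k _ i
    · intro x y; simp
  have hPP : ∀ i, P i * P i = P i := by
    intro i
    ext1 φ
    show P i (P i φ) = P i φ
    simp only [hP]
    split_ifs
    · exact PP_idem k hk _ i φ
    · simp
  have c1 : ∀ i j, i ≠ j → Commute (P i) (P j) := by
    intro i j hij
    simp only [hP]
    split_ifs
    · ext1 φ
      exact PP_comm k _ _ hij φ
    · exact Commute.zero_right _
    · exact Commute.zero_left _
    · exact Commute.zero_left _
  have c2 : ∀ i j, i ≠ j → Commute (P i) (gB j z r) := by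
    intro i j hij
    simp only [hP]
    split_ifs
    · ext1 φ
      exact PP_comm_gB k _ hij z r φ
    · exact Commute.zero_left _
  have c3 : ∀ i j : Fin N, i ≠ j → Commute (gB i z r) (gB j z r) := by
    intro i j _
    ext1 φ
    exact gB_comm i j z z r r φ
  have hst := star_ineq S P (fun i => gB i z r) e (fun i _ => he2 i) hPadj hPP
    (fun i => gB_adj i z r) c1 c2 c3 κ hκ v
  -- the last term
  have hlast : ‖∑ i ∈ S, (e i : ℂ) • P i (gB i z r (v - P i v))‖ ^ 2 ≤
      J1.card * ∑ i ∈ J1, KK k * s i ^ 3 * ‖gB i z r (v - PP k (m i) i v)‖ ^ 2 := by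
    have h1 : ∑ i ∈ S, (e i : ℂ) • P i (gB i z r (v - P i v)) =
        ∑ i ∈ J1, (e i : ℂ) • PP k (m i) i (gB i z r (v - PP k (m i) i v)) := by
      have h2 : J1 ⊆ S := Finset.filter_subset _ _
      rw [← Finset.sum_subset h2]
      · refine Finset.sum_congr rfl fun i hi => ?_
        simp only [hP, if_pos hi]
      · intro i _ hi
        simp only [hP, if_neg hi]
        simp
    rw [h1]
    have h3 : ‖∑ i ∈ J1, (e i : ℂ) • PP k (m i) i (gB i z r (v - PP k (m i) i v))‖ ≤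
        ∑ i ∈ J1, ‖PP k (m i) i (gB i z r (v - PP k (m i) i v))‖ := by
      refine (norm_sum_le _ _).trans (le_of_eq ?_)
      refine Finset.sum_congr rfl fun i _ => ?_
      rw [norm_smul]
      have : ‖(e i : ℂ)‖ = 1 := by
        rcases he i with h | h <;> rw [h] <;> simp
      rw [this, one_mul]
    calc _ ≤ (∑ i ∈ J1, ‖PP k (m i) i (gB i z r (v - PP k (m i) i v))‖) ^ 2 := by gcongr
      _ ≤ J1.card * ∑ i ∈ J1, ‖PP k (m i) i (gB i z r (v - PP k (m i) i v))‖ ^ 2 :=
        sq_sum_le_card_mul_sum_sq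
      _ ≤ _ := by
        gcongr with i hi
        exact PP_gB k hk (m i) i z hr.le _
  have hterm : ∀ i ∈ S, κ * ‖gB i z r (P i v)‖ ^ 2 + 3 * ‖P i (gB i z r (P i v))‖ ^ 2 +
      4 * ‖P i (gB i z r (v - P i v))‖ ^ 2 + ‖gB i z r (v - P i v)‖ ^ 2 +
      (if i ∈ J1 then (2 + κ + κ⁻¹) * (J1.card * (KK k * s i ^ 3 *
        ‖gB i z r (v - PP k (m i) i v)‖ ^ 2)) else 0) ≤ errB k θ (m i) i z r v := by
    intro i hiS
    by_cases hi : i ∈ J1
    · have h1 : 4 * s i ≤ 1 := by
        have := hi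
        simp only [hJ1, Finset.mem_filter] at this
        exact this.2.1
      obtain ⟨h2, h3⟩ := hκJ i hi
      have h4 := PP_gB k hk (m i) i z hr.le (PP k (m i) i v)
      have h5 := PP_gB k hk (m i) i z hr.le (v - PP k (m i) i v)
      have h6 := p32_cube_le (hs0 i).le (by linarith : s i ≤ 1)
      have h7 := p32_nonneg (hs0 i).le
      rw [if_pos hi]
      simp only [hP, if_pos hi]
      unfold errB
      rw [if_pos h1]
      have e1 : (2 : ℝ) ^ m i * r = s i := rfl
      rw [e1] at h4 h5 ⊢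
      set A := ‖gB i z r (PP k (m i) i v)‖ ^ 2 with hA
      set B := ‖gB i z r (v - PP k (m i) i v)‖ ^ 2 with hB
      have hA0 : 0 ≤ A := by positivity
      have hB0 : 0 ≤ B := by positivity
      have k1 : κ * A ≤ p32 (s i) * A := by gcongr
      have k2 : KK k * s i ^ 3 * A ≤ KK k * p32 (s i) * A := by gcongr
      have k3 : (2 + κ + κ⁻¹) * (J1.card * (KK k * s i ^ 3 * B)) ≤
          324 * θ (m i) * p32 (s i) * (KK k * B) := by
        calc _ = (2 + κ + κ⁻¹) * (J1.card * s i ^ 3) * (KK k * B) := by ring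
          _ ≤ _ := by gcongr
      nlinarith [k1, k2, k3, h4, h5]
    · rw [if_neg hi, add_zero]
      simp only [hP, if_neg hi]
      simp only [zero_apply, map_zero, norm_zero, sub_zero]
      by_cases h1 : 4 * s i ≤ 1
      · have h2 : ¬ ∃ t ∈ tile θ m0 x0 i, ‖t - z‖ < r := by
          intro h2
          apply hi
          simp only [hJ1, Finset.mem_filter]
          exact ⟨hiS, h1, h2⟩
        have h3 := gB_zero hv h2
        rw [h3]
        simpa using errB_nonneg k hθ0 (m i) i z hr.le v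
      · unfold errB
        rw [if_neg h1]
        apply le_of_eq
        ring
  have hsum := Finset.sum_le_sum hterm
  rw [Finset.sum_add_distrib] at hsum
  have h20 : ∑ i ∈ S, (if i ∈ J1 then (2 + κ + κ⁻¹) * (J1.card * (KK k * s i ^ 3 *
        ‖gB i z r (v - PP k (m i) i v)‖ ^ 2)) else 0) =
      (2 + κ + κ⁻¹) * (J1.card * ∑ i ∈ J1, KK k * s i ^ 3 *
        ‖gB i z r (v - PP k (m i) i v)‖ ^ 2) := by
    rw [Finset.mul_sum, Finset.mul_sum, ← Finset.sum_filter]
    refine Finset.sum_congr ?_ fun _ _ => rfl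
    ext i
    simp only [Finset.mem_filter, hJ1]
    tauto
  rw [h20] at hsum
  have h21 : 0 < 2 + κ + κ⁻¹ := by positivity
  have h22 := mul_le_mul_of_nonneg_left hlast h21.le
  linarith

end Pool.Agent.T6.H42
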