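import Pool.Agent.T6.H42.StepB1
import Pool.Agent.H5R2.NL.Kern

set_option autoImplicit false
set_option linter.unusedSectionVars false

noncomputable section

namespace Pool.Agent.T6.H42

open MeasureTheory Function Filter
open scoped ENNReal
open Pool.Agent.H5R2.NL (inB kern_L kern_lint kern_T kern_ball kern_L_nonneg)

variable {N : ℕ} {θ : ℕ → ℝ} {m0 : ℕ}

/-- the part of `1/t` carried by the balls of radius larger than `a` -/
def farK (a t : ℝ) : ℝ :=
  if t < 2 * a then 1 / 12 * (16 / a - 6 * t / a ^ 2 + t ^ 3 / (4 * a ^ 4)) else 1 / t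

theorem farK_bounds {a t : ℝ} (ha : 0 < a) (ht : 0 ≤ t) :
    0 ≤ farK a t ∧ farK a t ≤ 2 / a ∧ (0 < t → 1 / t - farK a t ≤ if t < 2 * a then 1 / t else 0) := by
  unfold farK
  have e1 : 1 / 12 * (16 / a - 6 * t / a ^ 2 + t ^ 3 / (4 * a ^ 4)) =
      1 / 12 / (4 * a ^ 4) * (64 * a ^ 3 - 24 * t * a ^ 2 + t ^ 3) := by
    field_simp
    ring
  split_ifs with h
  · have h2 : 0 ≤ 64 * a ^ 3 - 24 * t * a ^ 2 + t ^ 3 := by
      have : 0 ≤ t ^ 3 := by positivity
      nlinarith [mul_pos ha ha, mul_pos (mul_pos ha ha) ha, mul_nonneg ht (mul_pos ha ha).le]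
    rw [e1]
    refine ⟨by positivity, ?_, ?_⟩
    · rw [div_div, div_mul_eq_mul_div, div_le_div_iff₀ (by positivity) ha]
      have h3 : t ^ 3 ≤ 24 * t * a ^ 2 := by
        have h4 : t ^ 2 ≤ 4 * a ^ 2 := by nlinarith
        have : t ^ 3 = t * t ^ 2 := by ring
        rw [this]
        nlinarith [mul_pos ha ha]
      have h5 : 0 < a ^ 4 := by positivity
      have h6 : (1 : ℝ) * (64 * a ^ 3 - 24 * t * a ^ 2 + t ^ 3) ≤ 96 * a ^ 3 := by
        nlinarith [mul_pos (mul_pos ha ha) ha]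
      calc 1 * (64 * a ^ 3 - 24 * t * a ^ 2 + t ^ 3) * a ≤ 96 * a ^ 3 * a := by gcongr
        _ = 2 * (12 * (4 * a ^ 4)) := by ring
    · intro _
      have : 0 ≤ 1 / 12 / (4 * a ^ 4) * (64 * a ^ 3 - 24 * t * a ^ 2 + t ^ 3) := by positivity
      linarith
  · push Not at h
    refine ⟨by positivity, ?_, ?_⟩
    · rcases ht.eq_or_lt with h0 | h0
      · rw [← h0]; simp; positivity
      · rw [div_le_div_iff₀ h0 ha]; linarith
    · intro _; simp

theorem farK_lint {a : ℝ} (ha : 0 < a) (x y : S3) :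
    ∫⁻ r in Set.Ioi a, ENNReal.ofReal (1 / (Real.pi * r ^ 5)) *
      ∫⁻ w, ENNReal.ofReal (inB w r x * inB w r y) = ENNReal.ofReal (farK a ‖x - y‖) := by
  set t := ‖x - y‖ with ht
  have ht0 : 0 ≤ t := norm_nonneg _
  have h1 : ∫⁻ r in Set.Ioi a, ENNReal.ofReal (1 / (Real.pi * r ^ 5)) *
      ∫⁻ w, ENNReal.ofReal (inB w r x * inB w r y) =
      ∫⁻ r in Set.Ioi a, ENNReal.ofReal (kern_L r t / (Real.pi * r ^ 5)) := by
    refine setLIntegral_congr_fun measurableSet_Ioi fun r hr => ?_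
    have hr0 : 0 < r := lt_trans ha hr
    rw [kern_lint r hr0, ← ENNReal.ofReal_mul (by positivity), ← ht]
    congr 1
    ring
  rw [h1]
  unfold farK
  split_ifs with h
  · exact kern_T t a ht0 ha h.le
  · push Not at h
    have hb : 0 < t / 2 := by linarith
    have h2 : ∫⁻ r in Set.Ioi a, ENNReal.ofReal (kern_L r t / (Real.pi * r ^ 5)) =
        ∫⁻ r in Set.Ioi (t / 2), ENNReal.ofReal (kern_L r t / (Real.pi * r ^ 5)) := by
      rw [← lintegral_indicator measurableSet_Ioi, ← lintegral_indicator measurableSet_Ioi]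
      refine lintegral_congr fun r => ?_
      rw [Set.indicator_apply, Set.indicator_apply]
      simp only [Set.mem_Ioi]
      by_cases h3 : t / 2 < r
      · rw [if_pos h3, if_pos (by linarith)]
      · rw [if_neg h3]
        split_ifs
        · have h4 : kern_L r t = 0 := by
            unfold kern_L
            rw [if_neg (by linarith)]
          rw [h4]; simp
        · rfl
    rw [h2, kern_T t (t / 2) ht0 hb (by linarith)]
    congr 1
    have ht1 : t ≠ 0 := by linarith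
    field_simp
    ring

/-- the measure on the balls -/
def nu : Measure (ℝ × S3) :=
  ((volume.restrict (Set.Ioi (0 : ℝ))).prod (volume : Measure S3)).withDensity
    fun b => ENNReal.ofReal (1 / (Real.pi * b.1 ^ 5))

instance nu_sigmaFinite : SigmaFinite nu := by
  unfold nu
  exact SigmaFinite.withDensity_ofReal _

theorem nu_lint (f : ℝ × S3 → ℝ≥0∞) (hf : Measurable f) :
    ∫⁻ b, f b ∂nu = ∫⁻ r in Set.Ioi 0, ENNReal.ofReal (1 / (Real.pi * r ^ 5)) *
      ∫⁻ w, f (r, w) := by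
  unfold nu
  exact Pool.Agent.H5R2.NL.kern_wd (Set.Ioi 0) (fun r => 1 / (Real.pi * r ^ 5)) (by fun_prop) f hf

theorem bset_ind (i : Fin N) (z : S3) (r : ℝ) (x : Fin N × Fin 3 → ℝ) :
    (bset i z r).indicator (fun _ => (1 : ℝ≥0∞)) x = ENNReal.ofReal (inB z r (pt x i)) := by
  classical
  unfold inB
  rw [Set.indicator_apply]
  unfold bset
  simp only [Set.mem_ofPred_eq]
  split_ifs <;> simp

theorem gB_enorm (i : Fin N) (z : S3) (r : ℝ) (w : HS (Fin N × Fin 3)) :
    ‖gB i z r w‖ₑ ^ 2 = ∫⁻ x, ENNReal.ofReal (inB z r (pt x i)) * ‖w x‖ₑ ^ 2 := by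
  unfold gB
  rw [ind_sq]
  unfold wn
  simp_rw [bset_ind]

theorem meas_inB (i : Fin N) : Measurable fun p : (ℝ × S3) × (Fin N × Fin 3 → ℝ) =>
    inB p.1.2 p.1.1 (pt p.2 i) := by
  unfold inB
  refine Measurable.ite ?_ measurable_const measurable_const
  exact measurableSet_lt (((meas_pt i).comp measurable_snd).sub
    (measurable_snd.comp measurable_fst)).norm (measurable_fst.comp measurable_fst)

theorem meas_gB (i : Fin N) (w : HS (Fin N × Fin 3)) :
    Measurable fun b : ℝ × S3 => ‖gB i b.2 b.1 w‖ₑ ^ 2 := by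
  simp_rw [gB_enorm]
  refine Measurable.lintegral_prod_right'
    (f := fun p : (ℝ × S3) × (Fin N × Fin 3 → ℝ) => ENNReal.ofReal (inB p.1.2 p.1.1 (pt p.2 i)) *
      ‖w p.2‖ₑ ^ 2) ?_
  exact (meas_inB i).ennreal_ofReal.mul (((meas_coe w).comp measurable_snd).enorm.pow_const 2)

theorem gB_lint (i : Fin N) {r : ℝ} (hr : 0 ≤ r) (w : HS (Fin N × Fin 3)) :
    ∫⁻ z, ‖gB i z r w‖ₑ ^ 2 = ENNReal.ofReal (r ^ 3 * (Real.pi * 4 / 3)) * ‖w‖ₑ ^ 2 := by
  simp_rw [gB_enorm]
  rw [lintegral_lintegral_swap]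
  · have h1 : ∀ x : Fin N × Fin 3 → ℝ, ∫⁻ z, ENNReal.ofReal (inB z r (pt x i)) * ‖w x‖ₑ ^ 2 =
        ENNReal.ofReal (r ^ 3 * (Real.pi * 4 / 3)) * ‖w x‖ₑ ^ 2 := by
      intro x
      rw [lintegral_mul_const, kern_ball, ENNReal.ofReal_mul (by positivity),
        ENNReal.ofReal_pow hr]
      exact (Pool.Agent.H5R2.NL.kern_measw r (pt x i)).ennreal_ofReal
    simp_rw [h1]
    rw [lintegral_const_mul _ ((meas_coe w).enorm.pow_const 2), lint_sq]
  · have h2 := (meas_inB (N := N) i).comp (f := fun p : S3 × (Fin N × Fin 3 → ℝ) => ((r, p.1), p.2))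
      (by fun_prop)
    exact (h2.ennreal_ofReal.mul
      (((meas_coe w).comp measurable_snd).enorm.pow_const 2)).aemeasurable

end Pool.Agent.T6.H42
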