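import Pool.Agent.T6.H42.StepB2

set_option autoImplicit false
set_option linter.unusedSectionVars false

noncomputable section

namespace Pool.Agent.T6.H42

open MeasureTheory Function Filter Topology
open scoped ENNReal
open Pool.Agent.H5R2.NL (inB kern_L kern_lint kern_T kern_ball kern_L_nonneg)

variable {N : ℕ} {θ : ℕ → ℝ} {m0 : ℕ}

theorem meas_p32 : Measurable p32 := by
  unfold p32
  exact measurable_id.mul (Real.continuous_sqrt.measurable)

theorem nu_gB (i : Fin N) (w : HS (Fin N × Fin 3)) (c : ℝ → ℝ≥0∞) (hc : Measurable c) :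
    ∫⁻ b, c b.1 * ‖gB i b.2 b.1 w‖ₑ ^ 2 ∂nu =
      (∫⁻ r in Set.Ioi 0, ENNReal.ofReal (4 / 3 / r ^ 2) * c r) * ‖w‖ₑ ^ 2 := by
  have hm : Measurable fun b : ℝ × S3 => c b.1 * ‖gB i b.2 b.1 w‖ₑ ^ 2 :=
    (hc.comp measurable_fst).mul (meas_gB i w)
  rw [nu_lint _ hm, ← lintegral_mul_const]
  · refine setLIntegral_congr_fun measurableSet_Ioi fun r hr => ?_
    have hr0 : (0 : ℝ) < r := hr
    have hmz : Measurable fun z : S3 => ‖gB i z r w‖ₑ ^ 2 :=
      (meas_gB i w).comp (f := fun z : S3 => (r, z)) (by fun_prop)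
    simp only
    rw [lintegral_const_mul _ hmz, gB_lint i hr0.le]
    have hpi := Real.pi_pos
    calc ENNReal.ofReal (1 / (Real.pi * r ^ 5)) * (c r *
          (ENNReal.ofReal (r ^ 3 * (Real.pi * 4 / 3)) * ‖w‖ₑ ^ 2)) =
          (ENNReal.ofReal (1 / (Real.pi * r ^ 5)) *
          ENNReal.ofReal (r ^ 3 * (Real.pi * 4 / 3))) * c r * ‖w‖ₑ ^ 2 := by ring
      _ = _ := by
        rw [← ENNReal.ofReal_mul (by positivity)]
        congr 3
        field_simp
  · exact (by fun_prop : Measurable fun r : ℝ => ENNReal.ofReal (4 / 3 / r ^ 2)).mul hc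

theorem rad_far {ρ : ℝ} (hρ : 0 < ρ) :
    ∫⁻ r in Set.Ioi 0, ENNReal.ofReal (4 / 3 / r ^ 2) * (if ρ < r then 1 else 0) =
      ENNReal.ofReal (4 / 3 / ρ) := by
  have h1 : ∫⁻ r in Set.Ioi 0, ENNReal.ofReal (4 / 3 / r ^ 2) * (if ρ < r then 1 else 0) =
      ∫⁻ r in Set.Ioi ρ, ENNReal.ofReal (4 / 3 / r ^ 2) := by
    rw [← lintegral_indicator measurableSet_Ioi, ← lintegral_indicator measurableSet_Ioi]
    refine lintegral_congr fun r => ?_
    rw [Set.indicator_apply, Set.indicator_apply]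
    simp only [Set.mem_Ioi]
    by_cases h : ρ < r
    · rw [if_pos (hρ.trans h), if_pos h, if_pos h, mul_one]
    · rw [if_neg h, if_neg h]; simp
  have hd : ∀ r ∈ Set.Ici ρ, HasDerivAt (fun r : ℝ => -(4 / 3 * r⁻¹)) (4 / 3 / r ^ 2) r := by
    intro r hr
    have hr0 : r ≠ 0 := (lt_of_lt_of_le hρ hr).ne'
    refine (((hasDerivAt_inv hr0).const_mul (4 / 3)).neg).congr_deriv ?_
    field_simp
  have hpos : ∀ r ∈ Set.Ioi ρ, 0 ≤ 4 / 3 / r ^ 2 := by
    intro r _; positivity
  have hlim : Tendsto (fun r : ℝ => -(4 / 3 * r⁻¹)) atTop (𝓝 0) := by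
    have h4 := ((tendsto_inv_atTop_zero (𝕜 := ℝ)).const_mul (4 / 3)).neg
    simpa using h4
  have h2 := integrableOn_Ioi_deriv_of_nonneg' hd hpos hlim
  have h3 := integral_Ioi_of_hasDerivAt_of_nonneg' hd hpos hlim
  rw [h1, ← ofReal_integral_eq_lintegral_ofReal h2, h3]
  · congr 1
    field_simp
    ring
  · exact (ae_restrict_iff' measurableSet_Ioi).2 (Eventually.of_forall fun r hr => hpos r hr)

theorem rad_near (M : ℝ) (hM : 0 < M) (C : ℝ) (hC : 0 ≤ C) :
    ∫⁻ r in Set.Ioi 0, ENNReal.ofReal (4 / 3 / r ^ 2) *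
      (if 4 * (M * r) ≤ 1 then ENNReal.ofReal (C * p32 (M * r)) else 0) =
      ENNReal.ofReal (4 / 3 * C * M) := by
  set b : ℝ := 1 / (4 * M) with hb
  have hb0 : 0 < b := by positivity
  have h1 : ∫⁻ r in Set.Ioi 0, ENNReal.ofReal (4 / 3 / r ^ 2) *
      (if 4 * (M * r) ≤ 1 then ENNReal.ofReal (C * p32 (M * r)) else 0) =
      ∫⁻ r in Set.Ioc 0 b, ENNReal.ofReal (4 / 3 * C * (M * √M) * (2 * (1 / (2 * √r)))) := by
    rw [← lintegral_indicator measurableSet_Ioi, ← lintegral_indicator measurableSet_Ioc]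
    refine lintegral_congr fun r => ?_
    rw [Set.indicator_apply, Set.indicator_apply]
    simp only [Set.mem_Ioi, Set.mem_Ioc]
    by_cases h : 0 < r
    · rw [if_pos h]
      have h3 : 4 * (M * r) ≤ 1 ↔ r ≤ b := by
        rw [hb, le_div_iff₀ (by positivity)]
        constructor <;> intro h <;> linarith
      by_cases h2 : r ≤ b
      · rw [if_pos (h3.2 h2), if_pos ⟨h, h2⟩, ← ENNReal.ofReal_mul (by positivity)]
        congr 1
        unfold p32
        rw [Real.sqrt_mul hM.le]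
        have h4 : √r * √r = r := Real.mul_self_sqrt h.le
        have h5 : 0 < √r := Real.sqrt_pos.2 h
        have h6 : √r / r = 1 / √r := by
          rw [div_eq_div_iff h.ne' h5.ne', h4, one_mul]
        calc 4 / 3 / r ^ 2 * (C * (M * r * (√M * √r))) = 4 / 3 * C * (M * √M) * (√r / r) := by
              field_simp
          _ = _ := by rw [h6]; ring
      · rw [if_neg (fun h' => h2 (h3.1 h')), if_neg (fun h' => h2 h'.2), mul_zero]
    · rw [if_neg h, if_neg (fun h' => h h'.1)]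
  have hcont : ContinuousOn (fun r : ℝ => 4 / 3 * C * (M * √M) * (2 * √r)) (Set.Icc 0 b) := by
    fun_prop
  have hd : ∀ r ∈ Set.Ioo 0 b, HasDerivAt (fun r : ℝ => 4 / 3 * C * (M * √M) * (2 * √r))
      (4 / 3 * C * (M * √M) * (2 * (1 / (2 * √r)))) r := by
    intro r hr
    exact ((Real.hasDerivAt_sqrt hr.1.ne').const_mul 2).const_mul _
  have hpos : ∀ r ∈ Set.Ioo 0 b, 0 ≤ 4 / 3 * C * (M * √M) * (2 * (1 / (2 * √r))) := by
    intro r _; positivity
  have h2 := intervalIntegral.integrableOn_deriv_of_nonneg hcont hd hpos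
  have h3 := intervalIntegral.integral_eq_sub_of_hasDerivAt_of_le hb0.le hcont hd
    ((intervalIntegrable_iff_integrableOn_Ioc_of_le hb0.le).2 h2)
  rw [intervalIntegral.integral_of_le hb0.le] at h3
  rw [h1, ← ofReal_integral_eq_lintegral_ofReal h2, h3]
  · congr 1
    have h4 : √M * √b = 1 / 2 := by
      rw [← Real.sqrt_mul hM.le, hb]
      have : M * (1 / (4 * M)) = (1 / 2) ^ 2 := by field_simp; norm_num
      rw [this, Real.sqrt_sq (by norm_num)]
    simp only [Real.sqrt_zero, mul_zero, sub_zero]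
    calc 4 / 3 * C * (M * √M) * (2 * √b) = 4 / 3 * C * M * 2 * (√M * √b) := by ring
      _ = _ := by rw [h4]; ring
  · refine (ae_restrict_iff' measurableSet_Ioc).2 (Eventually.of_forall fun r _ => ?_)
    positivity

end Pool.Agent.T6.H42
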