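import Pool.Agent.T6.H42.StepB3

set_option autoImplicit false
set_option linter.unusedSectionVars false

noncomputable section

namespace Pool.Agent.T6.H42

open MeasureTheory Function Filter Topology
open scoped ENNReal
open Pool.Agent.H5R2.NL (inB kern_L kern_lint kern_T kern_ball kern_L_nonneg)

variable {N : ℕ} {θ : ℕ → ℝ} {m0 : ℕ}

/-- a constant -/
def CB (k : ℕ) : ℝ := 4 / 3 * (5 + 7 * KK k)

theorem enorm_sq_ofReal {H : Type*} [NormedAddCommGroup H] (φ : H) :
    ENNReal.ofReal (‖φ‖ ^ 2) = ‖φ‖ₑ ^ 2 := by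
  rw [ENNReal.ofReal_pow (norm_nonneg _), ofReal_norm]

theorem err_lint (k : ℕ) (hk : 0 < k) (hθ0 : ∀ m, 0 ≤ θ m) (m : ℕ) (i : Fin N) {ρ : ℝ}
    (hρ : 0 < ρ) (v : HS (Fin N × Fin 3)) :
    ∃ E : ℝ × S3 → ℝ≥0∞, Measurable E ∧
      (∀ b, (if ρ < b.1 then ENNReal.ofReal (errB k θ m i b.2 b.1 v) else 0) ≤ E b) ∧
      ∫⁻ b, E b ∂nu ≤ ENNReal.ofReal (CB k * 2 ^ m * ‖v‖ ^ 2 +
        4 / 3 * (1 / ρ + 324 * KK k * θ m * 2 ^ m) * ‖v - PP k m i v‖ ^ 2) := by
  have hK := KK_pos k
  have hθm := hθ0 m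
  set M : ℝ := 2 ^ m with hM
  have hM0 : 0 < M := by positivity
  set A := PP k m i v with hA
  set B := v - PP k m i v with hB
  set c1 : ℝ → ℝ≥0∞ := fun r => if 4 * (M * r) ≤ 1 then ENNReal.ofReal ((1 + 3 * KK k) *
    p32 (M * r)) else 0 with hc1
  set c2 : ℝ → ℝ≥0∞ := fun r => if 4 * (M * r) ≤ 1 then
    ENNReal.ofReal ((4 * KK k + 324 * KK k * θ m) * p32 (M * r)) else 0 with hc2
  set c3 : ℝ → ℝ≥0∞ := fun r => if ρ < r then 1 else 0 with hc3
  set c4 : ℝ → ℝ≥0∞ := fun r => if 1 / (4 * M) < r then 1 else 0 with hc4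
  have mset : MeasurableSet {r : ℝ | 4 * (M * r) ≤ 1} :=
    measurableSet_le (by fun_prop) measurable_const
  have mp : Measurable fun r : ℝ => p32 (M * r) := meas_p32.comp (by fun_prop)
  have mc1 : Measurable c1 := Measurable.ite mset (mp.const_mul _).ennreal_ofReal measurable_const
  have mc2 : Measurable c2 := Measurable.ite mset (mp.const_mul _).ennreal_ofReal measurable_const
  have mc3 : Measurable c3 := Measurable.ite measurableSet_Ioi measurable_const measurable_const
  have mc4 : Measurable c4 := Measurable.ite measurableSet_Ioi measurable_const measurable_const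
  have mf : ∀ (c : ℝ → ℝ≥0∞) (w : HS (Fin N × Fin 3)), Measurable c →
      Measurable fun b : ℝ × S3 => c b.1 * ‖gB i b.2 b.1 w‖ₑ ^ 2 := fun c w hc =>
    (hc.comp measurable_fst).mul (meas_gB i w)
  refine ⟨fun b => (c1 b.1 * ‖gB i b.2 b.1 A‖ₑ ^ 2 + c2 b.1 * ‖gB i b.2 b.1 B‖ₑ ^ 2) +
    (c3 b.1 * ‖gB i b.2 b.1 B‖ₑ ^ 2 + c4 b.1 * ‖gB i b.2 b.1 v‖ₑ ^ 2), ?_, ?_, ?_⟩
  · exact ((mf c1 A mc1).add (mf c2 B mc2)).add ((mf c3 B mc3).add (mf c4 v mc4))
  · rintro ⟨r, z⟩
    simp only
    split_ifs with hr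
    · have hr0 : 0 < r := hρ.trans hr
      unfold errB
      split_ifs with h4
      · have h5 : 0 < M * r := by positivity
        have h6 := p32_cube_le h5.le (by linarith : M * r ≤ 1)
        have h7 := p32_nonneg h5.le
        simp only [hc1, hc2, hc3]
        rw [if_pos h4, if_pos h4, if_pos hr]
        rw [← enorm_sq_ofReal, ← enorm_sq_ofReal, ← ENNReal.ofReal_mul (by positivity),
          ← ENNReal.ofReal_mul (by positivity), one_mul]
        refine le_trans ?_ (add_le_add_right (self_le_add_right _ _) _)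
        rw [← ENNReal.ofReal_add (by positivity) (by positivity),
          ← ENNReal.ofReal_add (by positivity) (by positivity)]
        apply ENNReal.ofReal_le_ofReal
        have h8 : 0 ≤ ‖gB i z r B‖ ^ 2 := by positivity
        have h9 : KK k * (M * r) ^ 3 ≤ KK k * p32 (M * r) := by gcongr
        have h10 := mul_le_mul_of_nonneg_right h9 h8
        nlinarith [h10]
      · have h5 : 1 / (4 * M) < r := by
          rw [div_lt_iff₀ (by positivity)]
          push Not at h4
          linarith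
        simp only [hc4]
        rw [if_pos h5, enorm_sq_ofReal, one_mul]
        exact le_add_left (le_add_left le_rfl)
    · exact zero_le
  · have m12 : Measurable fun b : ℝ × S3 =>
        c1 b.1 * ‖gB i b.2 b.1 A‖ₑ ^ 2 + c2 b.1 * ‖gB i b.2 b.1 B‖ₑ ^ 2 :=
      (mf c1 A mc1).add (mf c2 B mc2)
    rw [lintegral_add_left m12, lintegral_add_left (mf c1 A mc1),
      lintegral_add_left (mf c3 B mc3), nu_gB i A c1 mc1, nu_gB i B c2 mc2, nu_gB i B c3 mc3,
      nu_gB i v c4 mc4]
    simp only [hc1, hc2, hc3, hc4]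
    rw [rad_near M hM0 _ (by positivity), rad_near M hM0 _ (by positivity), rad_far hρ,
      rad_far (by positivity), ← enorm_sq_ofReal, ← enorm_sq_ofReal, ← enorm_sq_ofReal,
      ← ENNReal.ofReal_mul (by positivity), ← ENNReal.ofReal_mul (by positivity),
      ← ENNReal.ofReal_mul (by positivity), ← ENNReal.ofReal_mul (by positivity),
      ← ENNReal.ofReal_add (by positivity) (by positivity),
      ← ENNReal.ofReal_add (by positivity) (by positivity),
      ← ENNReal.ofReal_add (by positivity) (by positivity)]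
    apply ENNReal.ofReal_le_ofReal
    have hA1 : ‖A‖ ^ 2 ≤ ‖v‖ ^ 2 := by
      have := PP_norm_le k hk m i v
      gcongr
    have hB1 : ‖B‖ ^ 2 ≤ ‖v‖ ^ 2 := by
      have h1 : ‖B‖ ≤ ‖v‖ := by
        have := proj_norm_le (P := 1 - PP k m i) (φ := v) ?_ ?_
        · exact this
        · exact IsAdj.one.sub (PP_isAdj k m i)
        · intro φ
          show (φ - PP k m i φ) - PP k m i (φ - PP k m i φ) = φ - PP k m i φ
          rw [map_sub, PP_idem k hk]
          simp
      gcongr
    have e1 : 4 / 3 / (1 / (4 * M)) = 16 / 3 * M := by field_simp; norm_num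
    rw [e1]
    unfold CB
    have e2 : 4 / 3 / ρ = 4 / 3 * (1 / ρ) := by ring
    rw [e2]
    have k1 : (1 + 3 * KK k) * M * ‖A‖ ^ 2 ≤ (1 + 3 * KK k) * M * ‖v‖ ^ 2 := by gcongr
    have k2 : 4 * KK k * M * ‖B‖ ^ 2 ≤ 4 * KK k * M * ‖v‖ ^ 2 := by gcongr
    nlinarith [k1, k2]

theorem gB_inner (i j : Fin N) (z : S3) (r : ℝ) (v : HS (Fin N × Fin 3)) :
    (inner ℂ (gB i z r v) (gB j z r v)).re =
      ∫ x, inB z r (pt x i) * inB z r (pt x j) * ‖v x‖ ^ 2 := by
  classical
  rw [L2.inner_def]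
  have h1 : ∫ x, inner ℂ (gB i z r v x) (gB j z r v x) =
      ∫ x, ((inB z r (pt x i) * inB z r (pt x j) * ‖v x‖ ^ 2 : ℝ) : ℂ) := by
    refine integral_congr_ae ?_
    filter_upwards [ind_coe (meas_bset i z r) v, ind_coe (meas_bset j z r) v] with x e1 e2
    have hin : ∀ l : Fin N, inB z r (pt x l) = if x ∈ bset l z r then 1 else 0 := fun l => rfl
    unfold gB
    rw [e1, e2, hin i, hin j, RCLike.inner_apply]
    by_cases h1 : x ∈ bset i z r <;> by_cases h2 : x ∈ bset j z r
    · rw [Set.indicator_of_mem h1, Set.indicator_of_mem h2, if_pos h1, if_pos h2,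
        RCLike.mul_conj]
      simp
    · simp [h1, h2]
    · simp [h1, h2]
    · simp [h1, h2]
  rw [h1, integral_complex_ofReal, Complex.ofReal_re]

theorem pair_int (i j : Fin N) (v : HS (Fin N × Fin 3)) {a : ℝ} (ha : 0 < a) :
    Integrable (fun b : ℝ × S3 => if a < b.1 then
      (inner ℂ (gB i b.2 b.1 v) (gB j b.2 b.1 v)).re else 0) nu ∧
    ∫ b, (if a < b.1 then (inner ℂ (gB i b.2 b.1 v) (gB j b.2 b.1 v)).re else 0) ∂nu =
      ∫ x, farK a ‖pt x i - pt x j‖ * ‖v x‖ ^ 2 := by
  set f : ℝ × S3 → (Fin N × Fin 3 → ℝ) → ℝ := fun b x =>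
    (if a < b.1 then 1 else 0) * (inB b.2 b.1 (pt x i) * inB b.2 b.1 (pt x j)) * ‖v x‖ ^ 2 with hf
  have mite : Measurable fun b : ℝ × S3 => (if a < b.1 then (1 : ℝ) else 0) :=
    Measurable.ite (measurableSet_lt measurable_const measurable_fst) measurable_const
      measurable_const
  have mf : Measurable (uncurry f) := by
    have h1 := (mite.comp (measurable_fst (β := (Fin N × Fin 3 → ℝ)))).mul
      ((meas_inB i).mul (meas_inB j))
    exact h1.mul (((meas_coe v).comp measurable_snd).norm.pow_const 2)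
  have hf0 : ∀ b x, 0 ≤ f b x := by
    intro b x
    simp only [hf]
    have h1 := Pool.Agent.H5R2.NL.kern_inB_nonneg b.2 b.1 (pt x i)
    have h2 := Pool.Agent.H5R2.NL.kern_inB_nonneg b.2 b.1 (pt x j)
    split_ifs <;> positivity
  have hx : ∀ x, ∫⁻ b, ENNReal.ofReal (f b x) ∂nu =
      ENNReal.ofReal (farK a ‖pt x i - pt x j‖ * ‖v x‖ ^ 2) := by
    intro x
    have mfx : Measurable fun b => ENNReal.ofReal (f b x) :=
      (mf.comp (measurable_prodMk_right (y := x))).ennreal_ofReal
    rw [nu_lint _ mfx, mul_comm (farK a _), ENNReal.ofReal_mul (by positivity), ← farK_lint ha,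
      ← lintegral_indicator measurableSet_Ioi, ← lintegral_indicator measurableSet_Ioi,
      ← lintegral_const_mul]
    · refine lintegral_congr fun r => ?_
      rw [Set.indicator_apply, Set.indicator_apply]
      simp only [Set.mem_Ioi]
      by_cases h : a < r
      · rw [if_pos (ha.trans h), if_pos h]
        simp only [hf, if_pos h, one_mul]
        have h1 : ∀ w, ENNReal.ofReal (inB w r (pt x i) * inB w r (pt x j) * ‖v x‖ ^ 2) =
            ENNReal.ofReal (‖v x‖ ^ 2) * ENNReal.ofReal (inB w r (pt x i) * inB w r (pt x j)) := by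
          intro w
          rw [mul_comm, ENNReal.ofReal_mul (by positivity)]
        simp_rw [h1]
        rw [lintegral_const_mul]
        · ring
        · exact ((Pool.Agent.H5R2.NL.kern_measw r (pt x i)).mul
            (Pool.Agent.H5R2.NL.kern_measw r (pt x j))).ennreal_ofReal
      · rw [if_neg h]
        simp only [hf, if_neg h, zero_mul, ENNReal.ofReal_zero, lintegral_zero, mul_zero]
        split_ifs <;> rfl
    · refine Measurable.indicator ?_ measurableSet_Ioi
      refine (by fun_prop : Measurable fun r : ℝ => ENNReal.ofReal (1 / (Real.pi * r ^ 5))).mul ?_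
      refine Measurable.lintegral_prod_right' (f := fun p : ℝ × S3 =>
        ENNReal.ofReal (inB p.2 p.1 (pt x i) * inB p.2 p.1 (pt x j))) ?_
      exact (Pool.Agent.H5R2.NL.kern_pm (pt x i) (pt x j)).ennreal_ofReal
  have hfar : ∀ x : Fin N × Fin 3 → ℝ, farK a ‖pt x i - pt x j‖ * ‖v x‖ ^ 2 ≤
      2 / a * ‖v x‖ ^ 2 := by
    intro x
    gcongr
    exact (farK_bounds ha (norm_nonneg _)).2.1
  have hint : Integrable (uncurry f) (nu.prod volume) := by
    refine ⟨mf.aestronglyMeasurable, ?_⟩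
    have hf0' : 0 ≤ᵐ[nu.prod volume] uncurry f := Eventually.of_forall fun p => hf0 p.1 p.2
    rw [hasFiniteIntegral_iff_ofReal hf0',
      lintegral_prod_symm _ mf.ennreal_ofReal.aemeasurable]
    have h1 : ∀ x, ∫⁻ b, ENNReal.ofReal (uncurry f (b, x)) ∂nu ≤
        ENNReal.ofReal (2 / a) * ‖v x‖ₑ ^ 2 := by
      intro x
      simp only [uncurry_apply_pair]
      rw [hx x, ← enorm_sq_ofReal, ← ENNReal.ofReal_mul (by positivity)]
      exact ENNReal.ofReal_le_ofReal (hfar x)
    refine lt_of_le_of_lt (lintegral_mono h1) ?_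
    rw [lintegral_const_mul _ ((meas_coe v).enorm.pow_const 2), lint_sq]
    finiteness
  have e1 : ∀ b : ℝ × S3, (if a < b.1 then
      (inner ℂ (gB i b.2 b.1 v) (gB j b.2 b.1 v)).re else 0) = ∫ x, f b x := by
    intro b
    simp only [hf]
    split_ifs
    · rw [gB_inner]
      simp only [one_mul]
    · simp
  simp_rw [e1]
  refine ⟨hint.integral_prod_left, ?_⟩
  rw [integral_integral_swap hint]
  refine integral_congr_ae (Eventually.of_forall fun x => ?_)
  simp only
  rw [integral_eq_lintegral_of_nonneg_ae (Eventually.of_forall fun b => hf0 b x)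
    (mf.comp (measurable_prodMk_right (y := x))).aestronglyMeasurable, hx x,
    ENNReal.toReal_ofReal]
  have := (farK_bounds ha (norm_nonneg (pt x i - pt x j))).1
  positivity

/-- Step B: the contribution of the large balls. -/
theorem stepB (k : ℕ) (hk : 0 < k) (hθ : ∃ m, m0 ≤ m ∧ (N : ℝ) ≤ θ m) (hmono : Monotone θ)
    (hθ0 : ∀ m, 0 ≤ θ m)
    (e : Fin N → ℝ) (he : ∀ i, e i = 1 ∨ e i = -1) (x0 : Fin N × Fin 3 → ℝ)
    (v : HS (Fin N × Fin 3)) (hv : ind (Om θ m0 x0) (meas_Om x0) v = v)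
    (ρ : Fin N → ℝ) (hρ : ∀ i, 0 < ρ i) :
    -(∑ i, (CB k * 2 ^ (lev θ m0 i x0) * ‖v‖ ^ 2 +
      4 / 3 * (1 / ρ i + 324 * KK k * θ (lev θ m0 i x0) * 2 ^ (lev θ m0 i x0)) *
        ‖v - PP k (lev θ m0 i x0) i v‖ ^ 2)) ≤
    ∑ i, ∑ j ∈ Finset.univ.erase i, e i * e j *
      ∫ x, farK (max (ρ i) (ρ j)) ‖pt x i - pt x j‖ * ‖v x‖ ^ 2 := by
  classical
  have he2 : ∀ i, e i ^ 2 = 1 := by
    intro i
    rcases he i with h | h <;> rw [h] <;> norm_num
  set R : ℝ × S3 → ℝ := fun b => ∑ i, ∑ j ∈ Finset.univ.erase i, e i * e j *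
    (if max (ρ i) (ρ j) < b.1 then (inner ℂ (gB i b.2 b.1 v) (gB j b.2 b.1 v)).re else 0) with hR
  have hρm : ∀ i j, 0 < max (ρ i) (ρ j) := fun i j => lt_max_of_lt_left (hρ i)
  have hRint : Integrable R nu := by
    refine integrable_finsetSum _ fun i _ => integrable_finsetSum _ fun j _ => ?_
    exact (pair_int i j v (hρm i j)).1.const_mul _
  have hRval : ∫ b, R b ∂nu = ∑ i, ∑ j ∈ Finset.univ.erase i, e i * e j *
      ∫ x, farK (max (ρ i) (ρ j)) ‖pt x i - pt x j‖ * ‖v x‖ ^ 2 := by
    simp only [hR]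
    rw [integral_finsetSum _ fun i _ => integrable_finsetSum _ fun j _ =>
      (pair_int i j v (hρm i j)).1.const_mul _]
    refine Finset.sum_congr rfl fun i _ => ?_
    rw [integral_finsetSum _ fun j _ => (pair_int i j v (hρm i j)).1.const_mul _]
    refine Finset.sum_congr rfl fun j _ => ?_
    rw [integral_const_mul, (pair_int i j v (hρm i j)).2]
  choose E hEm hEb hEi using fun i : Fin N =>
    err_lint k hk hθ0 (lev θ m0 i x0) i (hρ i) v
  -- pointwise bound
  have hpt : ∀ b : ℝ × S3, ENNReal.ofReal (-R b) ≤ ∑ i, E i b := by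
    intro b
    set S : Finset (Fin N) := Finset.univ.filter fun i => ρ i < b.1 with hS
    have hRb : R b = ∑ i ∈ S, ∑ j ∈ S, e i * e j *
        (inner ℂ (gB i b.2 b.1 v) (gB j b.2 b.1 v)).re - ∑ i ∈ S, ‖gB i b.2 b.1 v‖ ^ 2 := by
      simp only [hR]
      have h1 : ∀ i, ∑ j ∈ Finset.univ.erase i, e i * e j *
          (if max (ρ i) (ρ j) < b.1 then (inner ℂ (gB i b.2 b.1 v) (gB j b.2 b.1 v)).re else 0) =
          if ρ i < b.1 then (∑ j ∈ S, e i * e j *
            (inner ℂ (gB i b.2 b.1 v) (gB j b.2 b.1 v)).re - ‖gB i b.2 b.1 v‖ ^ 2) else 0 := by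
        intro i
        split_ifs with hi
        · have hiS : i ∈ S := by simp [hS, hi]
          rw [← Finset.sum_erase_add _ _ hiS]
          have h2 : e i * e i * (inner ℂ (gB i b.2 b.1 v) (gB i b.2 b.1 v)).re =
              ‖gB i b.2 b.1 v‖ ^ 2 := by
            have := inner_self_eq_norm_sq (𝕜 := ℂ) (gB i b.2 b.1 v)
            rw [← sq, he2, one_mul]
            simpa using this
          rw [h2, add_sub_cancel_right]
          symm
          refine Finset.sum_subset_zero_on_sdiff (Finset.erase_subset_erase i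
            (Finset.subset_univ S)) ?_ ?_
          · intro j hj
            simp only [Finset.mem_sdiff, Finset.mem_erase, Finset.mem_univ, and_true, hS,
              Finset.mem_filter, true_and, not_and] at hj
            have h3 : ¬ max (ρ i) (ρ j) < b.1 := by
              intro h4
              exact hj.2 hj.1 ((le_max_right _ _).trans_lt h4)
            rw [if_neg h3, mul_zero]
          · intro j hj
            simp only [Finset.mem_erase, hS, Finset.mem_filter, Finset.mem_univ, true_and] at hj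
            rw [if_pos (max_lt hi hj.2)]
        · refine Finset.sum_eq_zero fun j _ => ?_
          have h3 : ¬ max (ρ i) (ρ j) < b.1 := fun h4 => hi ((le_max_left _ _).trans_lt h4)
          rw [if_neg h3, mul_zero]
      simp_rw [h1]
      rw [← Finset.sum_filter, Finset.sum_sub_distrib]
    rcases S.eq_empty_or_nonempty with hSe | ⟨i0, hi0⟩
    · rw [hRb, hSe]; simp
    have hb : 0 < b.1 := by
      simp only [hS, Finset.mem_filter, Finset.mem_univ, true_and] at hi0
      exact (hρ i0).trans hi0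
    have h1 := stepB_pt k hk hθ hmono hθ0 e he x0 v hv S b.2 hb
    rw [sq_sum, ← hRb] at h1
    calc ENNReal.ofReal (-R b) ≤
          ENNReal.ofReal (∑ i ∈ S, errB k θ (lev θ m0 i x0) i b.2 b.1 v) :=
          ENNReal.ofReal_le_ofReal (by linarith)
      _ = ∑ i ∈ S, ENNReal.ofReal (errB k θ (lev θ m0 i x0) i b.2 b.1 v) :=
          ENNReal.ofReal_sum_of_nonneg fun i _ => errB_nonneg k hθ0 _ i _ hb.le v
      _ ≤ ∑ i ∈ S, E i b := by
          refine Finset.sum_le_sum fun i hi => ?_
          have h2 := hEb i b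
          simp only [hS, Finset.mem_filter, Finset.mem_univ, true_and] at hi
          rwa [if_pos hi] at h2
      _ ≤ _ := Finset.sum_le_sum_of_subset (Finset.subset_univ S)
  have hneg : ∫⁻ b, ENNReal.ofReal (-R b) ∂nu ≤ ENNReal.ofReal
      (∑ i, (CB k * 2 ^ (lev θ m0 i x0) * ‖v‖ ^ 2 +
      4 / 3 * (1 / ρ i + 324 * KK k * θ (lev θ m0 i x0) * 2 ^ (lev θ m0 i x0)) *
        ‖v - PP k (lev θ m0 i x0) i v‖ ^ 2)) := by
    refine (lintegral_mono hpt).trans ?_
    rw [lintegral_finsetSum _ fun i _ => hEm i]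
    rw [ENNReal.ofReal_sum_of_nonneg]
    · exact Finset.sum_le_sum fun i _ => hEi i
    · intro i _
      have h1 := KK_pos k
      have h2 := hθ0 (lev θ m0 i x0)
      have h3 := hρ i
      unfold CB
      positivity
  have hfin := integral_eq_lintegral_pos_part_sub_lintegral_neg_part hRint
  have h5 := ENNReal.toReal_mono ENNReal.ofReal_ne_top hneg
  rw [ENNReal.toReal_ofReal] at h5
  · rw [← hRval, hfin]
    have h6 : 0 ≤ (∫⁻ b, ENNReal.ofReal (R b) ∂nu).toReal := ENNReal.toReal_nonneg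
    linarith
  · refine Finset.sum_nonneg fun i _ => ?_
    have h1 := KK_pos k
    have h2 := hθ0 (lev θ m0 i x0)
    have h3 := hρ i
    unfold CB
    positivity

end Pool.Agent.T6.H42
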