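import Pool.Agent.T6.H42.StepC1
import Pool.Agent.T6.H42.StepB4

set_option autoImplicit false
set_option linter.unusedSectionVars false

noncomputable section

namespace Pool.Agent.T6.H42

open MeasureTheory Function Filter Topology
open scoped ENNReal

variable {N : ℕ} {θ : ℕ → ℝ} {m0 : ℕ}

theorem farK_le_inv {a t : ℝ} (ha : 0 < a) (ht : 0 < t) : farK a t ≤ 1 / t := by
  unfold farK
  split_ifs with h
  · rw [le_div_iff₀ ht]
    have e1 : 1 / 12 * (16 / a - 6 * t / a ^ 2 + t ^ 3 / (4 * a ^ 4)) * t =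
        1 - (2 * a - t) ^ 3 * (t + 6 * a) / (48 * a ^ 4) := by
      field_simp
      ring
    rw [e1]
    have h1 : 0 ≤ (2 * a - t) ^ 3 * (t + 6 * a) / (48 * a ^ 4) := by
      have h2 : 0 < 2 * a - t := by linarith
      positivity
    linarith
  · exact le_rfl

/-- the particles are at different positions almost surely -/
theorem ae_dist_pos {i j : Fin N} (hij : j ≠ i) :
    ∀ᵐ x : Fin N × Fin 3 → ℝ, 0 < ‖pt x i - pt x j‖ := by
  set s : Submodule ℝ (Fin N × Fin 3 → ℝ) :=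
    LinearMap.ker (LinearMap.proj (R := ℝ) (φ := fun _ : Fin N × Fin 3 => ℝ) (i, 0) -
      LinearMap.proj (j, 0)) with hs
  have h1 : s ≠ ⊤ := by
    intro h
    have h2 : Pi.single (i, 0) (1 : ℝ) ∈ s := by rw [h]; trivial
    rw [hs, LinearMap.mem_ker] at h2
    have h3 : ((j, 0) : Fin N × Fin 3) ≠ (i, 0) := by
      intro h4; exact hij (Prod.ext_iff.1 h4).1
    simp [h3] at h2
  have h2 : volume (s : Set (Fin N × Fin 3 → ℝ)) = 0 := Measure.addHaar_submodule _ s h1
  have h3 : ∀ᵐ x : Fin N × Fin 3 → ℝ, x ∉ (s : Set (Fin N × Fin 3 → ℝ)) :=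
    measure_eq_zero_iff_ae_notMem.1 h2
  filter_upwards [h3] with x hx
  rw [norm_pos_iff, sub_ne_zero]
  intro h4
  apply hx
  rw [SetLike.mem_coe, hs, LinearMap.mem_ker]
  have h5 : pt x i 0 = pt x j 0 := by rw [h4]
  rw [pt_apply, pt_apply] at h5
  simp [h5]

/-- the Coulomb potential -/
def coulR (e : Fin N → ℝ) (x : Fin N × Fin 3 → ℝ) : ℝ :=
  ∑ i, ∑ j, if i < j then e i * e j / ‖pt x i - pt x j‖ else 0

theorem coulR_eq (e : Fin N → ℝ) (x : Fin N × Fin 3 → ℝ) :
    coulR e x = 1 / 2 * ∑ i, ∑ j ∈ Finset.univ.erase i,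
      e i * e j * (1 / ‖pt x i - pt x j‖) := by
  classical
  have h1 : ∑ i, ∑ j ∈ Finset.univ.erase i, e i * e j * (1 / ‖pt x i - pt x j‖) =
      ∑ i, ∑ j, ((if i < j then e i * e j / ‖pt x i - pt x j‖ else 0) +
        (if j < i then e j * e i / ‖pt x j - pt x i‖ else 0)) := by
    refine Finset.sum_congr rfl fun i _ => ?_
    rw [← Finset.sum_erase_add (Finset.univ) _ (Finset.mem_univ i)]
    simp only [lt_irrefl, if_false, add_zero]
    refine Finset.sum_congr rfl fun j hj => ?_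
    rw [Finset.mem_erase] at hj
    rcases lt_or_gt_of_ne hj.1 with h | h
    · rw [if_neg (not_lt.2 h.le), if_pos h, norm_sub_rev (pt x j)]
      ring
    · rw [if_pos h, if_neg (not_lt.2 h.le)]
      ring
  rw [h1]
  simp_rw [Finset.sum_add_distrib]
  have h2 : ∑ i, ∑ j, (if j < i then e j * e i / ‖pt x j - pt x i‖ else 0) = coulR e x := by
    rw [Finset.sum_comm]; rfl
  rw [h2]
  have h3 : ∑ i, ∑ j, (if i < j then e i * e j / ‖pt x i - pt x j‖ else 0) = coulR e x := rfl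
  rw [h3]
  ring

/-- integrability of the pair potentials -/
def PairFin (v : HS (Fin N × Fin 3)) : Prop := ∀ i j : Fin N, j ≠ i →
  ∫⁻ x, ENNReal.ofReal (1 / ‖pt x i - pt x j‖) * ‖v x‖ₑ ^ 2 ≠ ⊤

theorem PairFin.int {v : HS (Fin N × Fin 3)} (h : PairFin v) {i j : Fin N} (hij : j ≠ i) :
    Integrable fun x => 1 / ‖pt x i - pt x j‖ * ‖v x‖ ^ 2 := by
  have hm : Measurable fun x : Fin N × Fin 3 → ℝ => 1 / ‖pt x i - pt x j‖ * ‖v x‖ ^ 2 :=
    (((meas_pt i).sub (meas_pt j)).norm.const_div 1).mul ((meas_coe v).norm.pow_const 2)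
  refine ⟨hm.aestronglyMeasurable, ?_⟩
  rw [hasFiniteIntegral_iff_ofReal (Eventually.of_forall fun x => by positivity)]
  refine lt_of_le_of_lt (le_of_eq ?_) (lt_top_iff_ne_top.2 (h i j hij))
  refine lintegral_congr fun x => ?_
  rw [ENNReal.ofReal_mul (by positivity), enorm_sq_ofReal]

/-- Step C: the pairs at short distance in one region. -/
theorem near_sum (k : ℕ) (hk : 0 < k) (hθ : ∃ m, m0 ≤ m ∧ (N : ℝ) ≤ θ m)
    (x0 : Fin N × Fin 3 → ℝ)
    (v : HS (Fin N × Fin 3)) (hv : ind (Om θ m0 x0) (meas_Om x0) v = v)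
    (b : ℝ) (hb2 : 2 < b) (hb : b < 8) (i : Fin N) (n0 : ℕ) (hn0 : lev θ m0 i x0 ≤ n0) :
    ∑ j ∈ (Finset.univ.erase i).filter (fun j => lev θ m0 i x0 ≤ lev θ m0 j x0),
      ∫⁻ x, (if ‖pt x i - pt x j‖ < 1 / 2 ^ n0 then ENNReal.ofReal (1 / ‖pt x i - pt x j‖)
        else 0) * ‖v x‖ₑ ^ 2 ≤
      ENNReal.ofReal (27 * θ (lev θ m0 i x0)) *
      (ENNReal.ofReal (16 / 3 * KK k * 8 ^ (lev θ m0 i x0) / 4 ^ n0) * ‖v‖ₑ ^ 2 +
      ENNReal.ofReal (CC k b * (2 / b) ^ n0) *
        ∑' m, (if lev θ m0 i x0 ≤ m then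
          ENNReal.ofReal (b ^ m) * ‖v - PP k m i v‖ₑ ^ 2 else 0)) := by
  classical
  set mi := lev θ m0 i x0 with hmi
  set SR : ℝ≥0∞ := ENNReal.ofReal (16 / 3 * KK k * 8 ^ mi / 4 ^ n0) * ‖v‖ₑ ^ 2 +
      ENNReal.ofReal (CC k b * (2 / b) ^ n0) *
        ∑' m, (if mi ≤ m then ENNReal.ofReal (b ^ m) * ‖v - PP k m i v‖ₑ ^ 2 else 0) with hSR
  have hterm : ∀ j ∈ (Finset.univ.erase i).filter (fun j => mi ≤ lev θ m0 j x0),
      ∫⁻ x, (if ‖pt x i - pt x j‖ < 1 / 2 ^ n0 then ENNReal.ofReal (1 / ‖pt x i - pt x j‖)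
        else 0) * ‖v x‖ₑ ^ 2 ≤ if nb (cell3 mi x0 i) (cell3 mi x0 j) then SR else 0 := by
    intro j hj
    simp only [Finset.mem_filter, Finset.mem_erase, Finset.mem_univ, and_true] at hj
    split_ifs with hnb
    · exact short k hk hj.1 v b hb2 hb hn0
    · rw [nonpos_iff_eq_zero]
      rw [lintegral_eq_zero_iff']
      · filter_upwards [ind_coe (meas_Om (θ := θ) (m0 := m0) x0) v] with x hx
        rw [hv] at hx
        by_cases hxΩ : x ∈ Om θ m0 x0
        · have h1 : ¬ ‖pt x i - pt x j‖ < 1 / 2 ^ n0 := by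
            intro h2
            apply hnb
            refine tile_nb x0 (pt_mem_tile hxΩ i) (pt_mem_tile hxΩ j) hj.2
              (lt_of_lt_of_le h2 ?_)
            apply one_div_le_one_div_of_le (by positivity)
            exact pow_le_pow_right₀ (by norm_num) hn0
          rw [if_neg h1]; simp
        · rw [hx, Set.indicator_of_notMem hxΩ]; simp
      · have hm1 : Measurable fun x : Fin N × Fin 3 → ℝ =>
            (if ‖pt x i - pt x j‖ < 1 / 2 ^ n0 then ENNReal.ofReal (1 / ‖pt x i - pt x j‖)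
              else 0) :=
          Measurable.ite (meas_pset i j _)
            (((meas_pt i).sub (meas_pt j)).norm.const_div 1).ennreal_ofReal measurable_const
        exact (hm1.mul ((meas_coe v).enorm.pow_const 2)).aemeasurable
  refine (Finset.sum_le_sum hterm).trans ?_
  rw [← Finset.sum_filter, Finset.sum_const, nsmul_eq_mul]
  gcongr
  have h1 := near_card hθ x0 i
  have h2 : (((((Finset.univ.erase i).filter (fun j => mi ≤ lev θ m0 j x0)).filter
      (fun j => nb (cell3 mi x0 i) (cell3 mi x0 j))).card : ℕ) : ℝ) ≤ 27 * θ mi := by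
    refine le_trans ?_ h1
    have h3 : ((Finset.univ.erase i).filter (fun j => mi ≤ lev θ m0 j x0)).filter
      (fun j => nb (cell3 mi x0 i) (cell3 mi x0 j)) ⊆
      Finset.univ.filter (fun j => nb (cell3 mi x0 i) (cell3 mi x0 j)) := by
      intro j hj
      simp only [Finset.mem_filter, Finset.mem_univ, true_and] at hj ⊢
      exact hj.2
    exact_mod_cast Finset.card_le_card h3
  rw [← ENNReal.ofReal_natCast]
  exact ENNReal.ofReal_le_ofReal h2

end Pool.Agent.T6.H42
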