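import Pool.Agent.T6.H42.StepC2

set_option autoImplicit false
set_option linter.unusedSectionVars false

noncomputable section

namespace Pool.Agent.T6.H42

open MeasureTheory Function Filter Topology
open scoped ENNReal

variable {N : ℕ} {θ : ℕ → ℝ} {m0 : ℕ}

theorem meas_farK (a : ℝ) : Measurable (farK a) := by
  unfold farK
  exact Measurable.ite measurableSet_Iio (by fun_prop) (by fun_prop)

theorem int_sq (v : HS (Fin N × Fin 3)) : Integrable fun x => ‖v x‖ ^ 2 := by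
  have hm : Measurable fun x : Fin N × Fin 3 → ℝ => ‖v x‖ ^ 2 := (meas_coe v).norm.pow_const 2
  refine ⟨hm.aestronglyMeasurable, ?_⟩
  rw [hasFiniteIntegral_iff_ofReal (Eventually.of_forall fun x => by positivity)]
  simp_rw [enorm_sq_ofReal]
  exact lt_top_iff_ne_top.2 (lint_sq_ne_top v)

theorem int_farK (v : HS (Fin N × Fin 3)) (i j : Fin N) {a : ℝ} (ha : 0 < a) :
    Integrable fun x => farK a ‖pt x i - pt x j‖ * ‖v x‖ ^ 2 := by
  have hm : Measurable fun x : Fin N × Fin 3 → ℝ => farK a ‖pt x i - pt x j‖ * ‖v x‖ ^ 2 :=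
    ((meas_farK a).comp ((meas_pt i).sub (meas_pt j)).norm).mul ((meas_coe v).norm.pow_const 2)
  refine Integrable.mono' ((int_sq v).const_mul (2 / a)) hm.aestronglyMeasurable
    (Eventually.of_forall fun x => ?_)
  have h := farK_bounds ha (norm_nonneg (pt x i - pt x j))
  rw [Real.norm_of_nonneg (mul_nonneg h.1 (by positivity))]
  gcongr
  exact h.2.1

/-- the parameters of the construction -/
structure Params (k : ℕ) (θ : ℕ → ℝ) (m0 : ℕ) (nn : ℕ → ℕ) (a b ε CBC : ℝ) : Prop where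
  hk : 0 < k
  θ0 : ∀ m, 0 ≤ θ m
  θmono : Monotone θ
  b2 : 2 < b
  b8 : b < 8
  ba : b ≤ a
  ε0 : 0 ≤ ε
  C0 : 0 ≤ CBC
  nmono : Monotone nn
  nle : ∀ m, m0 ≤ m → m ≤ nn m
  p1 : ∀ m, m0 ≤ m → 1 / 2 * CB k * 2 ^ m + 27 * θ m * (16 / 3 * KK k * 8 ^ m / 4 ^ (nn m)) ≤
    CBC * 2 ^ m
  p2 : ∀ m, m0 ≤ m → 2 / 3 * (2 ^ (nn m + 1) + 324 * KK k * θ m * 2 ^ m) ≤ ε / 2 * a ^ m
  p3 : ∀ m, m0 ≤ m → 27 * θ m * (CC k b * (2 / b) ^ (nn m)) * b ^ m ≤ ε / 2 * a ^ m

/-- The inequality in one region. -/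
theorem region {k : ℕ} {nn : ℕ → ℕ} {a b ε CBC : ℝ} (hp : Params k θ m0 nn a b ε CBC)
    (hθ : ∃ m, m0 ≤ m ∧ (N : ℝ) ≤ θ m)
    (e : Fin N → ℝ) (he : ∀ i, e i = 1 ∨ e i = -1) (x0 : Fin N × Fin 3 → ℝ)
    (v : HS (Fin N × Fin 3)) (hv : ind (Om θ m0 x0) (meas_Om x0) v = v) (hfin : PairFin v) :
    ENNReal.ofReal (-∫ x, coulR e x * ‖v x‖ ^ 2) ≤
      ∑ i, (ENNReal.ofReal (CBC * 2 ^ (lev θ m0 i x0)) * ‖v‖ₑ ^ 2 + ENNReal.ofReal ε *
        ∑' m, (if lev θ m0 i x0 ≤ m then
          ENNReal.ofReal (a ^ m) * ‖v - PP k m i v‖ₑ ^ 2 else 0)) := by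
  classical
  have hk := hp.hk
  have hKK := KK_pos k
  have hb0 : 0 < b := by linarith [hp.b2]
  have ha0 : 0 < a := lt_of_lt_of_le hb0 hp.ba
  set ρ : Fin N → ℝ := fun i => 1 / 2 ^ (nn (lev θ m0 i x0) + 1) with hρdef
  have hρ : ∀ i, 0 < ρ i := fun i => by simp only [hρdef]; positivity
  have hρm : ∀ i j, 0 < max (ρ i) (ρ j) := fun i j => lt_max_of_lt_left (hρ i)
  have hB := stepB k hk hθ hp.θmono hp.θ0 e he x0 v hv ρ hρ
  set D : Fin N → Fin N → ℝ := fun i j =>
    ∫ x, (1 / ‖pt x i - pt x j‖ - farK (max (ρ i) (ρ j)) ‖pt x i - pt x j‖) * ‖v x‖ ^ 2 with hD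
  set Nij : Fin N → Fin N → ℝ≥0∞ := fun i j =>
    ∫⁻ x, (if ‖pt x i - pt x j‖ < 2 * max (ρ i) (ρ j) then
      ENNReal.ofReal (1 / ‖pt x i - pt x j‖) else 0) * ‖v x‖ₑ ^ 2 with hN
  have hDint : ∀ i j, j ≠ i → Integrable fun x =>
      (1 / ‖pt x i - pt x j‖ - farK (max (ρ i) (ρ j)) ‖pt x i - pt x j‖) * ‖v x‖ ^ 2 := by
    intro i j hij
    have := (hfin.int hij).sub (int_farK v i j (hρm i j))
    refine this.congr (Eventually.of_forall fun x => ?_)
    simp only [Pi.sub_apply]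
    ring
  have hDN : ∀ i j, j ≠ i → 0 ≤ D i j ∧ ENNReal.ofReal (D i j) ≤ Nij i j := by
    intro i j hij
    have hpos : ∀ᵐ x : Fin N × Fin 3 → ℝ, 0 ≤
        (1 / ‖pt x i - pt x j‖ - farK (max (ρ i) (ρ j)) ‖pt x i - pt x j‖) * ‖v x‖ ^ 2 := by
      filter_upwards [ae_dist_pos hij] with x hx
      have := farK_le_inv (hρm i j) hx
      have h2 : 0 ≤ 1 / ‖pt x i - pt x j‖ - farK (max (ρ i) (ρ j)) ‖pt x i - pt x j‖ := by
        linarith
      positivity
    refine ⟨integral_nonneg_of_ae hpos, ?_⟩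
    simp only [hD]
    rw [ofReal_integral_eq_lintegral_ofReal (hDint i j hij) hpos]
    refine lintegral_mono_ae ?_
    filter_upwards [ae_dist_pos hij] with x hx
    have h1 := (farK_bounds (hρm i j) hx.le).2.2 hx
    rw [ENNReal.ofReal_mul' (by positivity), enorm_sq_ofReal]
    gcongr
    refine (ENNReal.ofReal_le_ofReal h1).trans (le_of_eq ?_)
    split_ifs <;> simp
  -- the potential
  have hpot : ∫ x, coulR e x * ‖v x‖ ^ 2 = 1 / 2 * (∑ i, ∑ j ∈ Finset.univ.erase i,
      e i * e j * (∫ x, farK (max (ρ i) (ρ j)) ‖pt x i - pt x j‖ * ‖v x‖ ^ 2)) +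
      1 / 2 * ∑ i, ∑ j ∈ Finset.univ.erase i, e i * e j * D i j := by
    have h1 : ∀ x : Fin N × Fin 3 → ℝ, coulR e x * ‖v x‖ ^ 2 =
        1 / 2 * ∑ i, ∑ j ∈ Finset.univ.erase i,
          e i * e j * (1 / ‖pt x i - pt x j‖ * ‖v x‖ ^ 2) := by
      intro x
      rw [coulR_eq, mul_assoc, Finset.sum_mul]
      congr 1
      refine Finset.sum_congr rfl fun i _ => ?_
      rw [Finset.sum_mul]
      refine Finset.sum_congr rfl fun j _ => ?_
      ring
    simp_rw [h1]
    rw [integral_const_mul, integral_finsetSum]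
    · rw [← mul_add, ← Finset.sum_add_distrib]
      congr 1
      refine Finset.sum_congr rfl fun i _ => ?_
      rw [integral_finsetSum, ← Finset.sum_add_distrib]
      · refine Finset.sum_congr rfl fun j hj => ?_
        rw [Finset.mem_erase] at hj
        rw [integral_const_mul, ← mul_add]
        congr 1
        simp only [hD]
        rw [← integral_add (int_farK v i j (hρm i j)) (hDint i j hj.1)]
        refine integral_congr_ae (Eventually.of_forall fun x => ?_)
        simp only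
        ring
      · intro j hj
        rw [Finset.mem_erase] at hj
        exact (hfin.int hj.1).const_mul _
    · intro i _
      refine integrable_finsetSum _ fun j hj => ?_
      rw [Finset.mem_erase] at hj
      exact (hfin.int hj.1).const_mul _
  have hDlow : -(∑ i, ∑ j ∈ Finset.univ.erase i, D i j) ≤
      ∑ i, ∑ j ∈ Finset.univ.erase i, e i * e j * D i j := by
    rw [← Finset.sum_neg_distrib]
    refine Finset.sum_le_sum fun i _ => ?_
    rw [← Finset.sum_neg_distrib]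
    refine Finset.sum_le_sum fun j hj => ?_
    rw [Finset.mem_erase] at hj
    have h1 := (hDN i j hj.1).1
    have h2 : -1 ≤ e i * e j := by
      rcases he i with h | h <;> rcases he j with h' | h' <;> rw [h, h'] <;> norm_num
    nlinarith
  set EB : ℝ := ∑ i, (CB k * 2 ^ (lev θ m0 i x0) * ‖v‖ ^ 2 +
      4 / 3 * (1 / ρ i + 324 * KK k * θ (lev θ m0 i x0) * 2 ^ (lev θ m0 i x0)) *
        ‖v - PP k (lev θ m0 i x0) i v‖ ^ 2) with hEB
  have hmain : -∫ x, coulR e x * ‖v x‖ ^ 2 ≤ 1 / 2 * EB +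
      1 / 2 * ∑ i, ∑ j ∈ Finset.univ.erase i, D i j := by
    rw [hpot]; linarith
  have hNsymm : ∀ i j, Nij i j = Nij j i := by
    intro i j
    simp only [hN]
    rw [max_comm]
    refine lintegral_congr fun x => ?_
    rw [norm_sub_rev]
  set L : Fin N → Fin N → Prop := fun i j => lev θ m0 i x0 ≤ lev θ m0 j x0 with hL
  set T : ℝ≥0∞ := ∑ i, ∑ j ∈ (Finset.univ.erase i).filter (fun j => L i j), Nij i j with hT
  have hsum2 : ∑ i, ∑ j ∈ Finset.univ.erase i, Nij i j ≤ 2 * T := by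
    have h1 : ∀ i, ∑ j ∈ Finset.univ.erase i, Nij i j ≤
        ∑ j ∈ (Finset.univ.erase i).filter (fun j => L i j), Nij i j +
        ∑ j ∈ (Finset.univ.erase i).filter (fun j => L j i), Nij i j := by
      intro i
      rw [Finset.sum_filter, Finset.sum_filter, ← Finset.sum_add_distrib]
      refine Finset.sum_le_sum fun j _ => ?_
      rcases le_total (lev θ m0 i x0) (lev θ m0 j x0) with h | h
      · have h' : L i j := h
        rw [if_pos h']
        exact le_self_add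
      · have h' : L j i := h
        rw [if_pos h']
        exact le_add_self
    refine (Finset.sum_le_sum fun i _ => h1 i).trans ?_
    rw [Finset.sum_add_distrib, two_mul]
    refine add_le_add le_rfl (le_of_eq ?_)
    have h2 : ∀ i, ∑ j ∈ (Finset.univ.erase i).filter (fun j => L j i), Nij i j =
        ∑ j, if (j ≠ i ∧ L j i) then Nij i j else 0 := by
      intro i
      rw [← Finset.sum_filter]
      refine Finset.sum_congr ?_ fun _ _ => rfl
      ext j
      simp [Finset.mem_filter, Finset.mem_erase]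
    have h3 : ∀ i, ∑ j ∈ (Finset.univ.erase i).filter (fun j => L i j), Nij i j =
        ∑ j, if (j ≠ i ∧ L i j) then Nij i j else 0 := by
      intro i
      rw [← Finset.sum_filter]
      refine Finset.sum_congr ?_ fun _ _ => rfl
      ext j
      simp [Finset.mem_filter, Finset.mem_erase]
    simp_rw [hT, h2, h3]
    rw [Finset.sum_comm]
    refine Finset.sum_congr rfl fun i _ => Finset.sum_congr rfl fun j _ => ?_
    rw [hNsymm j i]
    have h4 : (i ≠ j ∧ L i j) ↔ (j ≠ i ∧ L i j) := by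
      constructor <;> rintro ⟨h5, h6⟩ <;> exact ⟨h5.symm, h6⟩
    simp only [h4]
  have hDD : ENNReal.ofReal (1 / 2 * ∑ i, ∑ j ∈ Finset.univ.erase i, D i j) ≤ T := by
    have h1 : ENNReal.ofReal (∑ i, ∑ j ∈ Finset.univ.erase i, D i j) ≤ 2 * T := by
      refine le_trans ?_ hsum2
      rw [ENNReal.ofReal_sum_of_nonneg]
      · refine Finset.sum_le_sum fun i _ => ?_
        rw [ENNReal.ofReal_sum_of_nonneg]
        · refine Finset.sum_le_sum fun j hj => ?_
          rw [Finset.mem_erase] at hj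
          exact (hDN i j hj.1).2
        · intro j hj
          rw [Finset.mem_erase] at hj
          exact (hDN i j hj.1).1
      · intro i _
        refine Finset.sum_nonneg fun j hj => ?_
        rw [Finset.mem_erase] at hj
        exact (hDN i j hj.1).1
    rw [ENNReal.ofReal_mul (by norm_num)]
    calc _ ≤ ENNReal.ofReal (1 / 2) * (2 * T) := by gcongr
      _ = T := by
        rw [← mul_assoc]
        have : ENNReal.ofReal (1 / 2) * 2 = 1 := by
          rw [← ENNReal.ofReal_ofNat 2, ← ENNReal.ofReal_mul (by norm_num)]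
          norm_num
        rw [this, one_mul]
  set mm : Fin N → ℕ := fun i => lev θ m0 i x0 with hmm
  have hlev : ∀ i, m0 ≤ mm i := fun i => (lev_mem hθ i x0).1
  -- the sum over the pairs
  have hTle : T ≤ ∑ i, ENNReal.ofReal (27 * θ (mm i)) *
      (ENNReal.ofReal (16 / 3 * KK k * 8 ^ (mm i) / 4 ^ (nn (mm i))) * ‖v‖ₑ ^ 2 +
      ENNReal.ofReal (CC k b * (2 / b) ^ (nn (mm i))) *
        ∑' m, (if mm i ≤ m then
          ENNReal.ofReal (b ^ m) * ‖v - PP k m i v‖ₑ ^ 2 else 0)) := by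
    refine Finset.sum_le_sum fun i _ => ?_
    refine le_trans (le_of_eq ?_) (near_sum k hk hθ x0 v hv b hp.b2 hp.b8 i (nn (mm i))
      (hp.nle _ (hlev i)))
    refine Finset.sum_congr rfl fun j hj => ?_
    simp only [Finset.mem_filter] at hj
    have h1 : 2 * max (ρ i) (ρ j) = 1 / 2 ^ (nn (mm i)) := by
      have h2 : ρ j ≤ ρ i := by
        simp only [hρdef]
        apply one_div_le_one_div_of_le (by positivity)
        apply pow_le_pow_right₀ (by norm_num)
        have := hp.nmono hj.2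
        omega
      rw [max_eq_left h2]
      simp only [hρdef, hmm]
      rw [pow_succ]
      field_simp
    simp only [hN]
    rw [h1]
  have hEBle : ENNReal.ofReal (1 / 2 * EB) = ∑ i, (ENNReal.ofReal (1 / 2 * CB k * 2 ^ (mm i)) *
      ‖v‖ₑ ^ 2 + ENNReal.ofReal (2 / 3 * (2 ^ (nn (mm i) + 1) + 324 * KK k * θ (mm i) *
        2 ^ (mm i))) * ‖v - PP k (mm i) i v‖ₑ ^ 2) := by
    have hCB : 0 ≤ CB k := by unfold CB; positivity
    rw [hEB, Finset.mul_sum, ENNReal.ofReal_sum_of_nonneg]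
    · refine Finset.sum_congr rfl fun i _ => ?_
      have h2 := hp.θ0 (mm i)
      rw [← enorm_sq_ofReal, ← enorm_sq_ofReal, ← ENNReal.ofReal_mul (by positivity),
        ← ENNReal.ofReal_mul (by positivity), ← ENNReal.ofReal_add (by positivity)
          (by positivity)]
      congr 1
      have h3 : 1 / ρ i = 2 ^ (nn (mm i) + 1) := by
        simp only [hρdef]
        rw [one_div_one_div]
      rw [h3]
      simp only [hmm]
      ring
    · intro i _
      have h2 := hp.θ0 (lev θ m0 i x0)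
      have h3 := hρ i
      positivity
  -- conclusion
  refine (ENNReal.ofReal_le_ofReal hmain).trans ?_
  refine ENNReal.ofReal_add_le.trans ?_
  rw [hEBle]
  refine (add_le_add le_rfl (hDD.trans hTle)).trans ?_
  rw [← Finset.sum_add_distrib]
  refine Finset.sum_le_sum fun i _ => ?_
  have hm := hlev i
  have q1 := hp.p1 _ hm
  have q2 := hp.p2 _ hm
  have q3 := hp.p3 _ hm
  have hθi := hp.θ0 (mm i)
  have hCB : 0 ≤ CB k := by unfold CB; positivity
  have hCC : 0 ≤ CC k b := by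
    unfold CC
    have h1 := K1_pos k
    have h2 : 0 < (1 - b / 8)⁻¹ := inv_pos.2 (by linarith [hp.b8])
    have h3 : 0 < (1 - 2 / b)⁻¹ := by
      apply inv_pos.2
      have : 2 / b < 1 := by rw [div_lt_one hb0]; exact hp.b2
      linarith
    positivity
  set Sb : ℝ≥0∞ := ∑' m, (if mm i ≤ m then
          ENNReal.ofReal (b ^ m) * ‖v - PP k m i v‖ₑ ^ 2 else 0) with hSb
  set Sa : ℝ≥0∞ := ∑' m, (if mm i ≤ m then
          ENNReal.ofReal (a ^ m) * ‖v - PP k m i v‖ₑ ^ 2 else 0) with hSa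
  have r1 : ENNReal.ofReal (2 / 3 * (2 ^ (nn (mm i) + 1) + 324 * KK k * θ (mm i) *
        2 ^ (mm i))) * ‖v - PP k (mm i) i v‖ₑ ^ 2 ≤ ENNReal.ofReal (ε / 2) * Sa := by
    calc _ ≤ ENNReal.ofReal (ε / 2 * a ^ (mm i)) * ‖v - PP k (mm i) i v‖ₑ ^ 2 := by
          gcongr
      _ = ENNReal.ofReal (ε / 2) * (ENNReal.ofReal (a ^ (mm i)) *
          ‖v - PP k (mm i) i v‖ₑ ^ 2) := by
          rw [ENNReal.ofReal_mul (by linarith [hp.ε0]), mul_assoc]
      _ ≤ _ := by
          gcongr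
          refine le_trans (le_of_eq ?_) (ENNReal.le_tsum (mm i))
          rw [if_pos le_rfl]
  have r2 : ENNReal.ofReal (27 * θ (mm i)) * (ENNReal.ofReal (CC k b * (2 / b) ^ (nn (mm i))) * Sb) ≤
      ENNReal.ofReal (ε / 2) * Sa := by
    rw [hSb, hSa, ← ENNReal.tsum_mul_left, ← ENNReal.tsum_mul_left, ← ENNReal.tsum_mul_left]
    refine ENNReal.tsum_le_tsum fun m => ?_
    split_ifs with h
    · rw [← mul_assoc, ← mul_assoc, ← mul_assoc, ← ENNReal.ofReal_mul (by positivity),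
        ← ENNReal.ofReal_mul (by positivity), ← ENNReal.ofReal_mul (by linarith [hp.ε0])]
      refine mul_le_mul_left (ENNReal.ofReal_le_ofReal ?_) _
      obtain ⟨l, hl⟩ := Nat.exists_eq_add_of_le h
      rw [hl, pow_add, pow_add]
      have h1 : b ^ l ≤ a ^ l := by
        have := hp.ba
        gcongr
      have h2 : 0 ≤ ε / 2 * a ^ mm i := by
        have := hp.ε0
        positivity
      calc 27 * θ (mm i) * (CC k b * (2 / b) ^ nn (mm i)) * (b ^ mm i * b ^ l) =
          (27 * θ (mm i) * (CC k b * (2 / b) ^ nn (mm i)) * b ^ mm i) * b ^ l := by ring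
        _ ≤ (ε / 2 * a ^ mm i) * a ^ l := mul_le_mul q3 h1 (by positivity) h2
        _ = _ := by ring
    · simp
  have r3 : ENNReal.ofReal (1 / 2 * CB k * 2 ^ (mm i)) * ‖v‖ₑ ^ 2 +
      ENNReal.ofReal (27 * θ (mm i)) *
      (ENNReal.ofReal (16 / 3 * KK k * 8 ^ (mm i) / 4 ^ (nn (mm i))) * ‖v‖ₑ ^ 2) ≤
      ENNReal.ofReal (CBC * 2 ^ (mm i)) * ‖v‖ₑ ^ 2 := by
    rw [← mul_assoc, ← ENNReal.ofReal_mul (by positivity), ← add_mul,
      ← ENNReal.ofReal_add (by positivity) (by positivity)]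
    gcongr
  have r4 : ENNReal.ofReal ε * Sa = ENNReal.ofReal (ε / 2) * Sa + ENNReal.ofReal (ε / 2) * Sa := by
    rw [← add_mul, ← ENNReal.ofReal_add (by linarith [hp.ε0]) (by linarith [hp.ε0])]
    congr 2; ring
  calc _ = (ENNReal.ofReal (1 / 2 * CB k * 2 ^ (mm i)) * ‖v‖ₑ ^ 2 +
      ENNReal.ofReal (27 * θ (mm i)) *
      (ENNReal.ofReal (16 / 3 * KK k * 8 ^ (mm i) / 4 ^ (nn (mm i))) * ‖v‖ₑ ^ 2)) +
      (ENNReal.ofReal (2 / 3 * (2 ^ (nn (mm i) + 1) + 324 * KK k * θ (mm i) *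
        2 ^ (mm i))) * ‖v - PP k (mm i) i v‖ₑ ^ 2 +
      ENNReal.ofReal (27 * θ (mm i)) * (ENNReal.ofReal (CC k b * (2 / b) ^ (nn (mm i))) * Sb)) := by
        ring
    _ ≤ _ := by
        rw [r4]
        exact add_le_add r3 (add_le_add r1 r2)

end Pool.Agent.T6.H42
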