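import Pool.Agent.T6.H42.StepC1
import Pool.Agent.T6.H42.Reg

set_option autoImplicit false
set_option linter.unusedSectionVars false

noncomputable section

namespace Pool.Agent.T6.H42

open MeasureTheory Function Filter Topology
open scoped ENNReal

variable {N : ℕ} {θ : ℕ → ℝ} {m0 : ℕ}

/-- configurations in which the cube of the particle `i` is near a crowded cube -/
def bad (θ : ℕ → ℝ) (n : ℕ) (i : Fin N) : Set (Fin N × Fin 3 → ℝ) :=
  {x | ¬ good θ n (cell3 n x i) x}

theorem good_congr (θ : ℕ → ℝ) (n : ℕ) (q : Fin 3 → ℤ) {x y : Fin N × Fin 3 → ℝ}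
    (h : ∀ i, cell3 n x i = cell3 n y i) : good θ n q x ↔ good θ n q y := by
  unfold good light cnt
  simp only [h]

theorem meas_good (θ : ℕ → ℝ) (n : ℕ) (i : Fin N) :
    MeasurableSet {x : Fin N × Fin 3 → ℝ | good θ n (cell3 n x i) x} := by
  classical
  have h1 : Measurable fun x : Fin N × Fin 3 → ℝ => fun j : Fin N => cell3 n x j :=
    measurable_pi_lambda _ fun j => meas_cell3 n j
  set S : Set (Fin N → Fin 3 → ℤ) := {c | ∃ x : Fin N × Fin 3 → ℝ,
    (fun j => cell3 n x j) = c ∧ good θ n (cell3 n x i) x} with hS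
  have h2 : MeasurableSet S := (Set.to_countable S).measurableSet
  have h3 : {x : Fin N × Fin 3 → ℝ | good θ n (cell3 n x i) x} =
      (fun x : Fin N × Fin 3 → ℝ => fun j : Fin N => cell3 n x j) ⁻¹' S := by
    ext x
    simp only [Set.mem_preimage, hS, Set.mem_ofPred_eq]
    constructor
    · intro h
      exact ⟨x, rfl, h⟩
    · rintro ⟨y, hy, hg⟩
      have h4 : ∀ j, cell3 n y j = cell3 n x j := fun j => congrFun hy j
      rw [h4 i] at hg
      exact (good_congr θ n _ h4).1 hg
  rw [h3]
  exact h1 h2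

theorem meas_bad (θ : ℕ → ℝ) (n : ℕ) (i : Fin N) : MeasurableSet (bad θ n i) :=
  (meas_good θ n i).compl

theorem avg3_le_one (m : ℕ) (i : Fin N) (G : (Fin N × Fin 3 → ℝ) → ℝ≥0∞) (h : ∀ x, G x ≤ 1)
    (x : Fin N × Fin 3 → ℝ) : avg3 m i G x ≤ 1 := by
  unfold avg3
  have h1 : ∀ y, avg m (i, 0) G y ≤ 1 := fun y => (avg_mono m _ h y).trans (avg_one m _ 1 y).le
  have h2 : ∀ y, avg m (i, 1) (avg m (i, 0) G) y ≤ 1 := fun y =>
    (avg_mono m _ h1 y).trans (avg_one m _ 1 y).le
  exact (avg_mono m _ h2 x).trans (avg_one m _ 1 x).le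

/-- the average of the indicator of the bad set -/
theorem avg3_bad (m n : ℕ) (i : Fin N) (hθ2 : 2 ≤ θ n) (x : Fin N × Fin 3 → ℝ) :
    avg3 m i ((bad θ n i).indicator fun _ => 1) x ≤
      ENNReal.ofReal (54 * N / θ n * (8 ^ m / 8 ^ n)) := by
  classical
  set oth : (Fin 3 → ℤ) → Finset (Fin N) := fun q =>
    (Finset.univ.erase i).filter fun j => cell3 n x j = q with hoth
  set Hv : Finset (Fin 3 → ℤ) :=
    ((Finset.univ.erase i).image fun j => cell3 n x j).filter fun q =>
      θ n / 2 < ((oth q).card : ℝ) with hHv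
  set A : Finset (Fin 3 → ℤ) := Hv.biUnion nbs with hA
  have hcard1 : (Hv.card : ℝ) ≤ 2 * N / θ n := by
    have h1 : (Hv.card : ℝ) * (θ n / 2) ≤ ∑ q ∈ Hv, ((oth q).card : ℝ) := by
      rw [← nsmul_eq_mul, ← Finset.sum_const]
      refine Finset.sum_le_sum fun q hq => ?_
      simp only [hHv, Finset.mem_filter] at hq
      exact hq.2.le
    have h2 : ∑ q ∈ Hv, (oth q).card ≤ N := by
      rw [← Finset.card_biUnion]
      · refine (Finset.card_le_univ _).trans ?_
        simp
      · intro q _ q' _ hqq
        rw [Function.onFun, Finset.disjoint_left]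
        intro j hj hj'
        simp only [hoth, Finset.mem_filter] at hj hj'
        exact hqq (hj.2.symm.trans hj'.2)
    have h3 : ∑ q ∈ Hv, ((oth q).card : ℝ) ≤ N := by exact_mod_cast h2
    rw [le_div_iff₀ (by linarith)]
    linarith
  have hcard2 : (A.card : ℝ) ≤ 54 * N / θ n := by
    have h1 : A.card ≤ ∑ q ∈ Hv, (nbs q).card := Finset.card_biUnion_le
    simp only [card_nbs, Finset.sum_const, smul_eq_mul] at h1
    have h2 : (A.card : ℝ) ≤ Hv.card * 27 := by exact_mod_cast h1
    refine h2.trans ?_
    calc (Hv.card : ℝ) * 27 ≤ 2 * N / θ n * 27 := by gcongr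
      _ = _ := by ring
  have h := avg3_le m i ((bad θ n i).indicator fun _ => 1) x A
    (fun q a => Set.Ico ((q a : ℝ) / 2 ^ n) (((q a : ℝ) + 1) / 2 ^ n))
    (fun _ _ => measurableSet_Ico) ?_ (ENNReal.ofReal (1 / 2 ^ n)) ?_
  · refine h.trans ?_
    have e1 : (2 : ℝ≥0∞) ^ m = ENNReal.ofReal (2 ^ m) := by
      rw [ENNReal.ofReal_pow (by norm_num), ENNReal.ofReal_ofNat]
    rw [e1, ← ENNReal.ofReal_mul (by positivity), ← ENNReal.ofReal_pow (by positivity),
      ← ENNReal.ofReal_natCast, ← ENNReal.ofReal_mul (by positivity)]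
    apply ENNReal.ofReal_le_ofReal
    have e2 : ((2 : ℝ) ^ m * (1 / 2 ^ n)) ^ 3 = 8 ^ m / 8 ^ n := by
      have h8 : (8 : ℝ) = 2 ^ 3 := by norm_num
      rw [h8, ← pow_mul, ← pow_mul, mul_pow, div_pow, one_pow, ← pow_mul, ← pow_mul,
        mul_comm 3 m, mul_comm 3 n]
      ring
    rw [e2]
    gcongr
  · intro t
    by_cases hy : setpos x i t ∈ bad θ n i
    · rw [Set.indicator_of_mem hy]
      set y := setpos x i t with hydef
      have h1 : ¬ good θ n (cell3 n y i) y := hy
      unfold good at h1
      push Not at h1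
      obtain ⟨q', hnb, hl⟩ := h1
      unfold light at hl
      push Not at hl
      -- the other particles
      have hoj : ∀ j, j ≠ i → cell3 n y j = cell3 n x j := by
        intro j hj
        funext a
        unfold cell3
        rw [hydef, setpos_ne _ _ _ hj]
      have h2 : cnt n q' y ≤ (oth q').card + 1 := by
        unfold cnt
        have h3 : (Finset.univ.filter fun j => cell3 n y j = q') ⊆ insert i (oth q') := by
          intro j hj
          simp only [Finset.mem_filter, Finset.mem_univ, true_and] at hj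
          by_cases hji : j = i
          · rw [hji]; exact Finset.mem_insert_self _ _
          · apply Finset.mem_insert_of_mem
            simp only [hoth, Finset.mem_filter, Finset.mem_erase, Finset.mem_univ, and_true]
            exact ⟨hji, by rw [← hoj j hji]; exact hj⟩
        exact (Finset.card_le_card h3).trans (Finset.card_insert_le _ _)
      have h3 : θ n / 2 < ((oth q').card : ℝ) := by
        have h4 : (cnt n q' y : ℝ) ≤ (oth q').card + 1 := by exact_mod_cast h2
        linarith
      have h4 : q' ∈ Hv := by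
        simp only [hHv, Finset.mem_filter]
        refine ⟨?_, h3⟩
        have h5 : 0 < (oth q').card := by
          have : (0 : ℝ) < ((oth q').card : ℝ) := by linarith
          exact_mod_cast this
        obtain ⟨j, hj⟩ := Finset.card_pos.1 h5
        simp only [hoth, Finset.mem_filter] at hj
        rw [Finset.mem_image]
        exact ⟨j, hj.1, hj.2⟩
      have h5 : cell3 n y i ∈ A := by
        rw [hA, Finset.mem_biUnion]
        refine ⟨q', h4, ?_⟩
        rw [mem_nbs]
        intro a
        have := hnb a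
        rwa [abs_sub_comm]
      have h6 : ∀ a, t a ∈ Set.Ico ((cell3 n y i a : ℝ) / 2 ^ n)
          (((cell3 n y i a : ℝ) + 1) / 2 ^ n) := by
        intro a
        have h7 : y (i, a) = t a := by rw [hydef, setpos_self]
        have h8 : cell3 n y i a = cel n (t a) := by unfold cell3; rw [h7]
        rw [h8]
        exact (cel_eq_iff n (t a) (t a)).1 rfl
      refine le_trans ?_ (Finset.single_le_sum (fun _ _ => zero_le) h5)
      simp [h6 0, h6 1, h6 2]
    · rw [Set.indicator_of_notMem hy]
      exact zero_le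
  · intro q _ a
    rw [Real.volume_Ico]
    apply le_of_eq
    congr 1
    ring

end Pool.Agent.T6.H42
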